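import Pool.Agent.Lib.MP_5ce328_co.Main

/-!
# Branch bound (module BR, helper21)

If every vertex of a connected graph has at most `k` vertices at positive even distance, then the
number of vertices is at most `1 + deg s + k + (k+1)^2/4` for every vertex `s`.
-/

namespace Pool.Agent.MP5ce328

open Finset

variable {V : Type*} {G : SimpleGraph V}

/-- the next vertex on a geodesic -/
theorem br_next (hG : G.Connected) {u z : V} (h : u ≠ z) :
    ∃ w, G.Adj u w ∧ G.dist w z + 1 = G.dist u z := by
  obtain ⟨c, hc⟩ := hG.exists_walk_length_eq_dist u z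
  cases c with
  | nil => exact absurd rfl h
  | @cons _ w _ b c =>
    refine ⟨w, b, ?_⟩
    rw [SimpleGraph.Walk.length_cons] at hc
    have h1 := SimpleGraph.dist_le c
    have h2 := hG.dist_triangle (u := u) (v := w) (w := z)
    have h3 : G.dist u w = 1 := SimpleGraph.dist_eq_one_iff_adj.2 b
    omega

theorem branch {V : Type*} [Fintype V] {G : SimpleGraph V} [DecidableRel G.Adj] (hG : G.Connected)
    {k : ℕ} (hE : ∀ v, (EV G v).card ≤ k) (s : V) (_hs : G.degree s ≤ k) :
    4 * Fintype.card V ≤ 4 * (1 + G.degree s + k) + (k + 1) ^ 2 := by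
  classical
  let O : Finset V := univ.filter (fun x => x ≠ s ∧ ¬ G.Adj s x ∧ ¬ Even (G.dist s x))
  let X : V → Finset V := fun u => O.filter (fun x => G.dist u x + 1 = G.dist s x)
  have hO : ∀ x, x ∈ O ↔ x ≠ s ∧ ¬ G.Adj s x ∧ ¬ Even (G.dist s x) := fun x => by simp [O]
  have hX : ∀ u x, x ∈ X u ↔ x ∈ O ∧ G.dist u x + 1 = G.dist s x := fun u x => by simp [X]
  have hO3 : ∀ x ∈ O, 3 ≤ G.dist s x := by
    intro x hx
    rw [hO] at hx
    obtain ⟨h1, h2, h3⟩ := hx
    have h5 : G.dist s x ≠ 0 := fun h => h3 (by rw [h]; exact ⟨0, rfl⟩)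
    have h6 : G.dist s x ≠ 1 := fun h => h2 (SimpleGraph.dist_eq_one_iff_adj.1 h)
    have h7 : G.dist s x ≠ 2 := fun h => h3 (by rw [h]; exact ⟨1, rfl⟩)
    omega
  have hcov0 : O ⊆ (G.neighborFinset s).biUnion X := by
    intro x hx
    have h1 := (hO x).1 hx
    obtain ⟨u, hu, hu2⟩ := br_next hG (Ne.symm h1.1)
    rw [mem_biUnion]
    exact ⟨u, (SimpleGraph.mem_neighborFinset _ _ _).2 hu, (hX u x).2 ⟨hx, hu2⟩⟩
  -- a cover of least cardinality
  obtain ⟨U, hUmem, hUmin⟩ := exists_min_image
    ((G.neighborFinset s).powerset.filter (fun U => O ⊆ U.biUnion X)) card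
    ⟨G.neighborFinset s, by
      rw [mem_filter, mem_powerset]; exact ⟨subset_rfl, hcov0⟩⟩
  rw [mem_filter, mem_powerset] at hUmem
  obtain ⟨hUN, hUcov⟩ := hUmem
  have hUs : ∀ u ∈ U, G.Adj s u := fun u hu => (SimpleGraph.mem_neighborFinset _ _ _).1 (hUN hu)
  have hpriv : ∀ u ∈ U, ∃ q ∈ X u, ∀ u' ∈ U, u' ≠ u → q ∉ X u' := by
    intro u hu
    by_contra hcon
    push Not at hcon
    have h1 : U.erase u ∈ (G.neighborFinset s).powerset.filter (fun U => O ⊆ U.biUnion X) := by
      rw [mem_filter, mem_powerset]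
      refine ⟨(erase_subset _ _).trans hUN, ?_⟩
      intro x hx
      have h2 := hUcov hx
      rw [mem_biUnion] at h2
      obtain ⟨v, hv, hv2⟩ := h2
      rw [mem_biUnion]
      by_cases hvu : v = u
      · subst hvu
        obtain ⟨u', hu', hne, hm⟩ := hcon x hv2
        exact ⟨u', mem_erase.2 ⟨hne, hu'⟩, hm⟩
      · exact ⟨v, mem_erase.2 ⟨hvu, hv⟩, hv2⟩
    have h3 := hUmin _ h1
    rw [card_erase_of_mem hu] at h3
    have h4 : 0 < U.card := card_pos.2 ⟨u, hu⟩
    omega
  have hy : ∀ u ∈ U, ∃ y, G.Adj u y ∧ G.dist s y = 2 ∧ ∀ u' ∈ U, u' ≠ u → ¬ G.Adj u' y := by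
    intro u hu
    obtain ⟨q, hq, hqp⟩ := hpriv u hu
    rw [hX] at hq
    obtain ⟨hqO, hqd⟩ := hq
    have h3 := hO3 q hqO
    have hne : u ≠ q := by
      rintro rfl
      rw [SimpleGraph.dist_self] at hqd
      omega
    obtain ⟨y, hy1, hy2⟩ := br_next hG hne
    have hsu : G.dist s u = 1 := SimpleGraph.dist_eq_one_iff_adj.2 (hUs u hu)
    have huy : G.dist u y = 1 := SimpleGraph.dist_eq_one_iff_adj.2 hy1
    have t1 := hG.dist_triangle (u := s) (v := u) (w := y)
    have t2 := hG.dist_triangle (u := s) (v := y) (w := q)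
    refine ⟨y, hy1, by omega, ?_⟩
    intro u' hu' hne' hadj
    apply hqp u' hu' hne'
    rw [hX]
    refine ⟨hqO, ?_⟩
    have h5 : G.dist u' y = 1 := SimpleGraph.dist_eq_one_iff_adj.2 hadj
    have h6 : G.dist s u' = 1 := SimpleGraph.dist_eq_one_iff_adj.2 (hUs u' hu')
    have t3 := hG.dist_triangle (u := u') (v := y) (w := q)
    have t4 := hG.dist_triangle (u := s) (v := u') (w := q)
    omega
  choose! y hy1 hy2 hy3 using hy
  have hbound : ∀ u' ∈ U, (X u').card + (U.card - 1) ≤ k := by
    intro u' hu'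
    let a : V → V := fun u => if G.Adj u u' then y u else u
    have hsu' : G.dist s u' = 1 := SimpleGraph.dist_eq_one_iff_adj.2 (hUs u' hu')
    have ha1 : ∀ u ∈ U.erase u', a u ∈ EV G u' ∧ G.dist s (a u) ≤ 2 := by
      intro u hu
      rw [mem_erase] at hu
      obtain ⟨hne, hu⟩ := hu
      have hsu : G.dist s u = 1 := SimpleGraph.dist_eq_one_iff_adj.2 (hUs u hu)
      simp only [a]
      by_cases h : G.Adj u u'
      · rw [if_pos h]
        have hyne : y u ≠ u' := by
          intro he
          have := hy2 u hu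
          rw [he] at this
          omega
        have hd : G.dist u' (y u) = 2 :=
          dist_eq_two hG hyne (hy3 u hu u' hu' (Ne.symm hne)) ⟨u, h.symm, hy1 u hu⟩
        refine ⟨mem_EV.2 ⟨hyne, ?_⟩, (hy2 u hu).le⟩
        rw [hd]; exact ⟨1, rfl⟩
      · rw [if_neg h]
        have hd : G.dist u' u = 2 :=
          dist_eq_two hG hne (fun hh => h hh.symm) ⟨s, (hUs u' hu').symm, hUs u hu⟩
        refine ⟨mem_EV.2 ⟨hne, ?_⟩, by omega⟩
        rw [hd]; exact ⟨1, rfl⟩
    have hinj : Set.InjOn a (U.erase u' : Finset V) := by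
      intro u hu v hv he
      rw [mem_coe, mem_erase] at hu hv
      have hsu : G.dist s u = 1 := SimpleGraph.dist_eq_one_iff_adj.2 (hUs u hu.2)
      have hsv : G.dist s v = 1 := SimpleGraph.dist_eq_one_iff_adj.2 (hUs v hv.2)
      simp only [a] at he
      by_cases h1 : G.Adj u u' <;> by_cases h2 : G.Adj v u'
      · rw [if_pos h1, if_pos h2] at he
        by_contra hne
        apply hy3 v hv.2 u hu.2 hne
        rw [← he]
        exact hy1 u hu.2
      · rw [if_pos h1, if_neg h2] at he
        have := hy2 u hu.2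
        rw [he] at this
        omega
      · rw [if_neg h1, if_pos h2] at he
        have := hy2 v hv.2
        rw [← he] at this
        omega
      · rw [if_neg h1, if_neg h2] at he
        exact he
    have hXE : X u' ⊆ EV G u' := by
      intro x hx
      rw [hX] at hx
      obtain ⟨hxO, hxd⟩ := hx
      have h3 := hO3 x hxO
      have h4 := ((hO x).1 hxO).2.2
      rw [mem_EV]
      refine ⟨?_, ?_⟩
      · rintro rfl
        omega
      · rw [← hxd] at h4
        rw [Nat.not_even_iff_odd] at h4
        by_contra h5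
        rw [Nat.not_even_iff_odd] at h5
        exact (Nat.not_even_iff_odd.2 h4) (h5.add_one)
    have hdisj : Disjoint (X u') ((U.erase u').image a) := by
      rw [disjoint_left]
      intro x hx hx2
      rw [mem_image] at hx2
      obtain ⟨u, hu, rfl⟩ := hx2
      have h1 := (ha1 u hu).2
      have h2 := hO3 _ ((hX _ _).1 hx).1
      omega
    have hsub : X u' ∪ (U.erase u').image a ⊆ EV G u' := by
      refine union_subset hXE ?_
      intro x hx
      rw [mem_image] at hx
      obtain ⟨u, hu, rfl⟩ := hx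
      exact (ha1 u hu).1
    have hc := card_le_card hsub
    rw [card_union_of_disjoint hdisj, card_image_of_injOn hinj, card_erase_of_mem hu'] at hc
    exact hc.trans (hE u')
  have hOcard : 4 * O.card ≤ (k + 1) ^ 2 := by
    rcases Finset.eq_empty_or_nonempty U with h0 | ⟨u0, hu0⟩
    · have : O = ∅ := by
        rw [h0, biUnion_empty] at hUcov
        exact subset_empty.1 hUcov
      rw [this, card_empty]
      positivity
    · have ht : 0 < U.card := card_pos.2 ⟨u0, hu0⟩
      have htk := hbound u0 hu0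
      have h1 : O.card ≤ U.card * (k + 1 - U.card) := by
        refine (card_le_card hUcov).trans (card_biUnion_le_card_mul _ _ _ ?_)
        intro u hu
        have := hbound u hu
        omega
      obtain ⟨c, hc⟩ : ∃ c, k + 1 = U.card + c := ⟨k + 1 - U.card, by omega⟩
      rw [hc, Nat.add_sub_cancel_left] at h1
      rw [hc]
      have h2 := four_mul_le_sq_add U.card c
      nlinarith [h1, h2]
  have huniv : (univ : Finset V) ⊆ insert s (G.neighborFinset s) ∪ (EV G s ∪ O) := by
    intro x _
    rw [mem_union, mem_insert, SimpleGraph.mem_neighborFinset, mem_union, mem_EV, hO]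
    by_cases h1 : x = s
    · exact Or.inl (Or.inl h1)
    by_cases h2 : G.Adj s x
    · exact Or.inl (Or.inr h2)
    by_cases h3 : Even (G.dist s x)
    · exact Or.inr (Or.inl ⟨h1, h3⟩)
    · exact Or.inr (Or.inr ⟨h1, h2, h3⟩)
  have h1 := card_le_card huniv
  have h2 := card_union_le (insert s (G.neighborFinset s)) (EV G s ∪ O)
  have h3 := card_union_le (EV G s) O
  have h4 := card_insert_le s (G.neighborFinset s)
  rw [SimpleGraph.card_neighborFinset_eq_degree] at h4
  have h5 := hE s
  rw [card_univ] at h1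
  omega

end Pool.Agent.MP5ce328
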