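import Pool.Agent.Lib.MP_5ce328_co.Main

/-!
Case B: every longest path leaves out only one and the same vertex `w0`.
-/

namespace Pool.Agent.MP5ce328

open Finset

variable {V : Type*} {G : SimpleGraph V}

/-- the off vertices and the length -/
theorem LP.card_off [Fintype V] {m : ℕ} {x : ℕ → V} (C : LP G m x) [DecidablePred (Off m x)] :
    (univ.filter (fun v => Off m x v)).card + m = Fintype.card V := by
  classical
  have h1 : ((range m).image x).card = m := by
    rw [card_image_of_injOn, card_range]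
    intro i hi j hj h
    simp only [coe_range, Set.mem_Iio] at hi hj
    exact C.inj i hi j hj h
  have h2 : univ.filter (fun v => Off m x v) = ((range m).image x)ᶜ := by
    ext v
    rw [mem_filter, mem_compl, mem_image]
    unfold Off
    push Not
    simp only [mem_range, mem_univ, true_and]
  rw [h2, card_compl, h1]
  have h3 : ((range m).image x).card ≤ Fintype.card V := card_le_univ _
  omega

/-- (S): no path on `m` vertices contains `w0` -/
theorem not_mem_of_card [Fintype V] {m : ℕ} {x : ℕ → V} (C : LP G m x) {w0 : V}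
    (hw : Off m x w0) (hS : ∀ y, LP G m y → ∀ v, Off m y v → v = w0) {l : List V}
    (hl : IsP G l) (hlen : l.length = m) (hmem : w0 ∈ l) : False := by
  classical
  have D := LP.ofList C.pos C.max hl hlen (x 0)
  have h1 := C.card_off
  have h2 := D.card_off
  have h3 : 0 < (univ.filter (fun v => Off m x v)).card :=
    card_pos.2 ⟨w0, by rw [mem_filter]; exact ⟨mem_univ _, hw⟩⟩
  have h4 : 0 < (univ.filter (fun v => Off m (fun i => l.getD i (x 0)) v)).card := by omega
  obtain ⟨v, hv⟩ := card_pos.1 h4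
  rw [mem_filter] at hv
  have h5 := hS _ D v hv.2
  subst h5
  obtain ⟨j, hj, hj'⟩ := List.getElem_of_mem hmem
  refine hv.2 j (by omega) ?_
  simp only
  rw [List.getD_eq_getElem _ _ hj, hj']

section

variable [Fintype V] {m : ℕ} {x : ℕ → V}

/-- a new path of the same length, which contains `w0` -/
theorem LP.badS (C : LP G m x) {w0 : V} (hw : Off m x w0)
    (hS : ∀ y, LP G m y → ∀ v, Off m y v → v = w0) (L : List (ℕ × ℕ))
    (hL : ∀ s ∈ L, (s.1 < m ∧ s.2 < m) ∨ (m ≤ s.1 ∧ m ≤ s.2 ∧ s.1 < m + 1 ∧ s.2 < m + 1))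
    (hdis : L.Pairwise Dis)
    (hj : L.IsChain (fun s t => G.Adj (ext x m [w0] s.2) (ext x m [w0] t.1)))
    (hlen : (L.map len).sum = m) (hmem : (m, m) ∈ L) : False := by
  have h1 := C.build [w0] (isP_one w0) (off_one hw) L (by simpa using hL) hdis hj
  refine not_mem_of_card C hw hS h1 (by rw [List.length_map, length_cat, hlen]) ?_
  rw [List.mem_map]
  refine ⟨m, ?_, ext1⟩
  rw [mem_cat]
  exact ⟨(m, m), hmem, by rw [mem_seg]; simp⟩

theorem LP.s_first_succ2 (C : LP G m x) {w0 : V} (hw : Off m x w0)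
    (hS : ∀ y, LP G m y → ∀ v, Off m y v → v = w0) {w : ℕ} (hw2 : w + 2 < m)
    (a1 : G.Adj w0 (x w)) (a2 : G.Adj (x 0) (x (w + 2))) : False :=
  C.badS hw hS [(m, m), (w, 0), (w + 2, m - 1)] (by simp; omega) (by simp [Dis]; omega)
    (by simp only [List.isChain_cons_cons, List.isChain_singleton, and_true]
        refine ⟨?_, ?_⟩
        · rw [ext1, ext_lt (by omega)]; exact a1
        · rw [ext_lt (by omega), ext_lt (by omega)]; exact a2)
    (by simp [len]; omega) (by simp)

theorem LP.s_cycle2 (C : LP G m x) {w0 : V} (hw : Off m x w0)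
    (hS : ∀ y, LP G m y → ∀ v, Off m y v → v = w0) {i p : ℕ} (hi : i + 2 < p)
    (hp : p < m) (a : G.Adj w0 (x p)) (a1 : G.Adj (x (m - 1)) (x i))
    (a2 : G.Adj (x 0) (x (i + 2))) : False :=
  C.badS hw hS [(m, m), (p, m - 1), (i, 0), (i + 2, p - 1)] (by simp; omega)
    (by simp [Dis]; omega)
    (by simp only [List.isChain_cons_cons, List.isChain_singleton, and_true]
        refine ⟨?_, ?_, ?_⟩
        · rw [ext1, ext_lt (by omega)]; exact a
        · rw [ext_lt (by omega), ext_lt (by omega)]; exact a1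
        · rw [ext_lt (by omega), ext_lt (by omega)]; exact a2)
    (by simp [len]; omega) (by simp)

theorem LP.s_succ2 (C : LP G m x) {w0 : V} (hw : Off m x w0)
    (hS : ∀ y, LP G m y → ∀ v, Off m y v → v = w0) {p w : ℕ} (hpw : p < w)
    (hw2 : w + 2 < m) (a1 : G.Adj w0 (x p)) (a2 : G.Adj w0 (x w))
    (a3 : G.Adj (x (p + 1)) (x (w + 2))) : False :=
  C.badS hw hS [(0, p), (m, m), (w, p + 1), (w + 2, m - 1)] (by simp; omega)
    (by simp [Dis]; omega)
    (by simp only [List.isChain_cons_cons, List.isChain_singleton, and_true]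
        refine ⟨?_, ?_, ?_⟩
        · rw [ext1, ext_lt (by omega)]; exact a1.symm
        · rw [ext1, ext_lt (by omega)]; exact a2
        · rw [ext_lt (by omega), ext_lt (by omega)]; exact a3)
    (by simp [len]; omega) (by simp)

/-- the rotation trick -/
theorem LP.far_firstS [DecidableRel G.Adj] {k : ℕ} (C : LP G m x) {w0 : V} (hw : Off m x w0)
    (hS : ∀ y, LP G m y → ∀ v, Off m y v → v = w0)
    (hne : (W G m x w0).Nonempty) (hN : (N2 G w0).card ≤ k) (hd : k ≤ G.degree (x 0)) :
    ∃ y : ℕ → V, LP G m y ∧ Same m x y ∧ y (m - 1) = x (m - 1) ∧ Far G w0 (y 0) := by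
  classical
  have hA : (W G m x (x 0)).card = G.degree (x 0) := card_W C _ (fun v a => C.first_on a)
  have h1 : ∀ i ∈ W G m x (x 0), 1 ≤ i := by
    intro i hi
    rcases Nat.eq_zero_or_pos i with h0 | h0
    · subst h0
      exact absurd (mem_W.1 hi).2 (G.irrefl)
    · exact h0
  by_contra hc
  push Not at hc
  have hX : ∀ i ∈ W G m x (x 0), x (i - 1) ∈ N2 G w0 := by
    intro i hi
    have hi' := mem_W.1 hi
    have hi1 := h1 i hi
    have hna : ¬ G.Adj w0 (x (i - 1)) := by
      intro ha
      refine C.not_rot hw (i := i - 1) (by omega) ha ?_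
      rw [Nat.sub_add_cancel hi1]; exact hi'.2
    have := hc _ (C.rot hi'.1 hi1 hi'.2) (same_rot x hi'.1) (by
      try dsimp only
      rw [if_neg (by omega)])
    simp only [show (0 : ℕ) < i by omega, if_true, Nat.sub_zero] at this
    rw [mem_N2]
    refine ⟨fun he => hw (i - 1) (by omega) he, hna, ?_⟩
    by_contra hcc
    push Not at hcc
    exact this ⟨fun he => hw (i - 1) (by omega) he, hna, hcc⟩
  have hWl : ∀ j ∈ W G m x w0, j + 1 < m := by
    intro j hj
    have hj' := mem_W.1 hj
    by_contra hcc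
    have : j = m - 1 := by omega
    rw [this] at hj'
    exact C.not_last hw hj'.2
  have hY : ∀ j ∈ W G m x w0, x (j + 1) ∈ N2 G w0 := by
    intro j hj
    have hj' := mem_W.1 hj
    have hjl := hWl j hj
    rw [mem_N2]
    exact ⟨fun he => hw _ hjl he, fun ha => C.not_consec hw hjl hj'.2 ha, x j, hj'.2,
      C.adj j hjl⟩
  have hdis : Disjoint ((W G m x (x 0)).image (· - 1)) ((W G m x w0).image (· + 1)) := by
    rw [disjoint_left]
    intro i hi hi'
    rw [mem_image] at hi hi'
    obtain ⟨s, hs, hs'⟩ := hi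
    obtain ⟨j, hj, rfl⟩ := hi'
    have hs1 := h1 s hs
    have hse : s = j + 2 := by omega
    subst hse
    exact C.s_first_succ2 hw hS (mem_W.1 hs).1 (mem_W.1 hj).2 (mem_W.1 hs).2
  have hcard := card_le_of_inj C ((W G m x (x 0)).image (· - 1) ∪ (W G m x w0).image (· + 1))
    (by
      intro i hi
      rw [mem_union, mem_image, mem_image] at hi
      rcases hi with ⟨s, hs, rfl⟩ | ⟨j, hj, rfl⟩
      · have := (mem_W.1 hs).1; omega
      · exact hWl j hj) (N2 G w0) (by
      intro i hi
      rw [mem_union, mem_image, mem_image] at hi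
      rcases hi with ⟨s, hs, rfl⟩ | ⟨j, hj, rfl⟩
      · exact hX s hs
      · exact hY j hj)
  rw [card_union_of_disjoint hdis, card_shift_up, card_shift_down _ h1, hA] at hcard
  have := card_pos.2 hne
  omega

theorem LP.far_bothS [DecidableRel G.Adj] {k : ℕ} (C : LP G m x) {w0 : V} (hw : Off m x w0)
    (hS : ∀ y, LP G m y → ∀ v, Off m y v → v = w0)
    (hne : (W G m x w0).Nonempty) (hN : (N2 G w0).card ≤ k)
    (hd : ∀ v, v ≠ w0 → k ≤ G.degree v) :
    ∃ y : ℕ → V, LP G m y ∧ Same m x y ∧ Far G w0 (y 0) ∧ Far G w0 (y (m - 1)) := by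
  obtain ⟨y1, C1, S1, _, F1⟩ := C.far_firstS hw hS hne hN (hd _ (hw 0 C.pos))
  have S2 : Same m x (fun i => y1 (m - 1 - i)) := S1.trans (same_rev y1)
  have hne2 : (W G m (fun i => y1 (m - 1 - i)) w0).Nonempty := by
    rw [← card_pos, ← card_W_same C C1.rev S2, card_pos]; exact hne
  obtain ⟨z, C3, S3, e3, F3⟩ := C1.rev.far_firstS (S2.off hw) hS hne2 hN
    (hd _ (S2.off hw 0 C.pos))
  refine ⟨z, C3, S2.trans S3, F3, ?_⟩
  rw [e3]
  simpa using F1

/-- the second count, with two free slots for every further neighbour of `w0` -/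
theorem LP.coreS [DecidableRel G.Adj] {k : ℕ} (C : LP G m x) {w0 : V}
    (hd : ∀ v, v ≠ w0 → k ≤ G.degree v) (hw : Off m x w0)
    (hS : ∀ y, LP G m y → ∀ v, Off m y v → v = w0)
    (fa : Far G w0 (x 0)) (fb : Far G w0 (x (m - 1))) (h2 : 2 ≤ (W G m x w0).card) :
    3 * k + 2 * (W G m x w0).card ≤ m + 2 := by
  classical
  have hm := C.pos
  have hne : (W G m x w0).Nonempty := by rw [← card_pos]; omega
  set p := (W G m x w0).min' hne with hp
  have hpW : p ∈ W G m x w0 := min'_mem _ _
  have hpa := mem_W.1 hpW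
  have hple : ∀ i ∈ W G m x w0, p ≤ i := fun i hi => min'_le _ _ hi
  have h4 : ∀ i ∈ W G m x w0, i + 1 < m := by
    intro i hi
    have hi' := mem_W.1 hi
    by_contra hc
    have : i = m - 1 := by omega
    rw [this] at hi'
    exact C.not_last hw hi'.2
  have hpm := h4 p hpW
  have hX : (W G m x (x 0)).card = G.degree (x 0) := card_W C _ (fun v a => C.first_on a)
  have hY : (W G m x (x (m - 1))).card = G.degree (x (m - 1)) :=
    card_W C _ (fun v a => C.last_on a)
  have hB : (W G m x (x (p + 1))).card = G.degree (x (p + 1)) := by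
    refine card_W C _ (fun v a => ?_)
    by_contra hc
    push Not at hc
    have := hS x C v hc
    subst this
    exact C.not_consec hw hpm hpa.2 a.symm
  obtain ⟨q, hq, hqp⟩ : ∃ q ∈ W G m x w0, q ≠ p := by
    by_contra hc
    push Not at hc
    have : W G m x w0 ⊆ {p} := fun i hi => mem_singleton.2 (hc i hi)
    have := card_le_card this
    rw [card_singleton] at this
    omega
  have hq' := mem_W.1 hq
  have hq1 := hple q hq
  have hq2 : q ≠ p + 1 := by
    intro he
    subst he
    exact C.not_consec hw hpm hpa.2 hq'.2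
  -- the set of the free slots
  set W' : Finset ℕ := W G m x w0 ∪ ((W G m x w0).erase p).image (· + 1) with hW'
  have hW'c : W'.card + 1 = 2 * (W G m x w0).card := by
    rw [hW', card_union_of_disjoint, card_shift_up, card_erase_of_mem hpW]
    · omega
    · rw [disjoint_left]
      intro i hi hi'
      rw [mem_image] at hi'
      obtain ⟨j, hj, rfl⟩ := hi'
      rw [mem_erase] at hj
      exact C.not_consec hw (h4 j hj.2) (mem_W.1 hj.2).2 (mem_W.1 hi).2
  have hmemW' : ∀ i ∈ W', i ∈ W G m x w0 ∨ ∃ j ∈ W G m x w0, p < j ∧ i = j + 1 := by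
    intro i hi
    rw [hW', mem_union, mem_image] at hi
    rcases hi with hi | ⟨j, hj, rfl⟩
    · exact Or.inl hi
    · rw [mem_erase] at hj
      have := hple j hj.2
      exact Or.inr ⟨j, hj.2, by omega, rfl⟩
  have key := count2 m p (W G m x (x 0)) (W G m x (x (p + 1))) (W G m x (x (m - 1)))
    W' hpm
    (by
      intro i hi
      have hi' := mem_W.1 hi
      refine ⟨?_, hi'.1⟩
      rcases Nat.eq_zero_or_pos i with h0 | h0
      · subst h0
        exact absurd hi'.2 (G.irrefl)
      · exact h0)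
    (by
      intro i hi
      have hi' := mem_W.1 hi
      refine ⟨hi'.1, ?_⟩
      intro he
      subst he
      exact G.irrefl hi'.2)
    (by
      intro i hi
      have hi' := mem_W.1 hi
      refine ⟨?_, ?_⟩
      · by_contra hc
        have : i = m - 1 := by omega
        subst this
        exact G.irrefl hi'.2
      · intro he
        subst he
        exact fb.2.2 _ hpa.2 hi'.2.symm)
    (by
      intro i hi
      rcases hmemW' i hi with hi | ⟨j, hj, hpj, rfl⟩
      · exact ⟨hple i hi, (mem_W.1 hi).1⟩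
      · exact ⟨by omega, h4 j hj⟩)
    (fun i h1 h2 h3 => C.m1 hw h3 hpm hpa.2 (mem_W.1 h1).2 (mem_W.1 h2).2)
    (by
      intro i h1 h2 h3
      have hne' : i + 2 ≠ p := by
        intro he
        have h2' := (mem_W.1 h2).2
        rw [he] at h2'
        exact fa.2.2 _ hpa.2 h2'.symm
      exact C.s_cycle2 hw hS (by omega) hpa.1 hpa.2 (mem_W.1 h1).2 (mem_W.1 h2).2)
    (fun i h1 h2 h3 => C.m3 hw h3 hpm hpa.2 (mem_W.1 h2).2 (mem_W.1 h1).2)
    (fun i h1 h2 h3 => C.m4 hw h3 (mem_W.1 h2).1 hpa.2 (mem_W.1 h2).2 (mem_W.1 h1).2)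
    (fun i h1 h2 h3 => C.not_cycle hw (mem_W.1 h2).1 hpa.1 hpa.2 (mem_W.1 h1).2 (mem_W.1 h2).2)
    (by
      intro i h1 h2 h3
      have h1' := mem_W.1 h1
      have h2' := mem_W.1 h2
      obtain ⟨l, hl1, hl2, hl3⟩ := C.m6 (isP_one w0) (off_one hw) (h := w0) (g := w0) (by simp)
        (by simp) (by simp) (i := i) (p := p) (q := q) h3 h2'.1 (by omega) (h4 q hq)
        (by
          intro he
          subst he
          exact C.not_last_pred hw (w := i) (by omega) hq'.2 h1'.2) hpa.2 hq'.2 h2'.2 h1'.2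
      simp only [List.length_cons, List.length_nil] at hl2
      exact not_mem_of_card C hw hS hl1 (by omega) ((hl3 w0).2 (Or.inl (by simp))))
    (by
      intro i hi hpi hi'
      rcases hmemW' i hi with hi | ⟨j, hj, hpj, rfl⟩
      · exact fa.2.2 _ (mem_W.1 hi).2 (mem_W.1 hi').2.symm
      · exact C.not_first_succ hw (h4 j hj) (mem_W.1 hj).2 (mem_W.1 hi').2)
    (by
      intro i hi hpi hi'
      have hi'' := mem_W.1 hi'
      rcases hmemW' i hi with hi | ⟨j, hj, hpj, rfl⟩
      · exact C.not_succ hw hpi hi''.1 hpa.2 (mem_W.1 hi).2 hi''.2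
      · exact C.s_succ2 hw hS hpj hi''.1 hpa.2 (mem_W.1 hj).2 hi''.2)
    (by
      intro i hi hpi j hj hji
      rcases hmemW' i hi with hi | ⟨j', hj', hpj, he⟩
      · subst hji
        exact C.not_last_pred hw (mem_W.1 hi).1 (mem_W.1 hi).2 (mem_W.1 hj).2
      · have : j = j' := by omega
        subst this
        exact fb.2.2 _ (mem_W.1 hj').2 (mem_W.1 hj).2.symm)
  have := hd (x 0) (hw 0 hm)
  have := hd (x (m - 1)) (hw (m - 1) (by omega))
  have := hd (x (p + 1)) (hw (p + 1) hpm)
  omega

end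

/-- case B: every longest path leaves out only the vertex `w0` -/
theorem caseB [Fintype V] [DecidableRel G.Adj] {m k : ℕ} {x : ℕ → V} (C : LP G m x)
    (hG : G.Connected) (w0 : V) (hd : ∀ v, v ≠ w0 → k ≤ G.degree v)
    (hE : ∀ v, (EV G v).card ≤ k) (hw : Off m x w0)
    (hS : ∀ y, LP G m y → ∀ v, Off m y v → v = w0) : 3 * k + 3 ≤ Fintype.card V := by
  classical
  have hcard : m + 1 ≤ Fintype.card V := by
    have h1 := C.card_off
    have h2 : 0 < (univ.filter (fun v => Off m x v)).card :=
      card_pos.2 ⟨w0, by rw [mem_filter]; exact ⟨mem_univ _, hw⟩⟩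
    omega
  have hN : (N2 G w0).card ≤ k := (card_le_card (N2_sub_EV hG w0)).trans (hE w0)
  have hne : (W G m x w0).Nonempty := by
    obtain ⟨i, hi, v, hv, a⟩ := exists_cross hG (u := x 0) (z := w0)
      (fun ho => ho 0 C.pos rfl) hw
    have := hS x C v hv
    subst this
    exact ⟨i, mem_W.2 ⟨hi, a⟩⟩
  obtain ⟨y, D, S, fa, fb⟩ := C.far_bothS hw hS hne hN hd
  have gw : Off m y w0 := S.off hw
  have hne' : (W G m y w0).Nonempty := by
    rw [← card_pos, ← card_W_same C D S, card_pos]; exact hne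
  have hc1 := D.count1 gw hne' fa fb (hd _ (gw 0 D.pos))
    (hd _ (gw (m - 1) (by have := D.pos; omega)))
  by_cases h2 : 2 ≤ (W G m y w0).card
  · have := D.coreS hd gw hS fa fb h2
    omega
  · exfalso
    have h1 : (W G m y w0).card = 1 := by
      have := card_pos.2 hne'
      omega
    obtain ⟨p, hp⟩ := card_eq_one.1 h1
    have hpW : p ∈ W G m y w0 := by rw [hp]; exact mem_singleton_self p
    have hpa := mem_W.1 hpW
    have := D.parity hG hE gw hpa.1 hpa.2 (by
      intro g hg q hq a
      have := hS y D g hg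
      subst this
      have : q ∈ W G m y g := mem_W.2 ⟨hq, a⟩
      rw [hp, mem_singleton] at this
      exact this)
    omega

end Pool.Agent.MP5ce328
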