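import Pool.Agent.Lib.MP_5ce328_co.Exc

namespace Pool.Agent.MP5ce328

open Finset

variable {V : Type*} {G : SimpleGraph V}

/-- rotation to an end far from `h` and different from `w0` -/
theorem LP.far_first_ne [Fintype V] [DecidableRel G.Adj] {m k : ℕ} {x : ℕ → V} (C : LP G m x)
    (hG : G.Connected) {w0 h h' : V} (hh : Off m x h) (hh' : Off m x h') (b : G.Adj h' h)
    (hne : (W G m x h).Nonempty) (hE : ∀ v, (EV G v).card ≤ k) (hd : ∀ v, v ≠ w0 → k ≤ G.degree v)
    (hx0 : x 0 ≠ w0) :
    ∃ y : ℕ → V, LP G m y ∧ Same m x y ∧ y (m - 1) = x (m - 1) ∧ Far G h (y 0) ∧ y 0 ≠ w0 := by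
  classical
  have hN : (N2 G h).card ≤ k := (card_le_card (N2_sub_EV hG h)).trans (hE h)
  have hA : (W G m x (x 0)).card = G.degree (x 0) := card_W C _ (fun v a => C.first_on a)
  have h1 : ∀ i ∈ W G m x (x 0), 1 ≤ i := by
    intro i hi
    rcases Nat.eq_zero_or_pos i with h0 | h0
    · subst h0
      exact absurd (mem_W.1 hi).2 (G.irrefl)
    · exact h0
  by_contra hc
  push Not at hc
  have hX : ∀ i ∈ W G m x (x 0), x (i - 1) ≠ w0 → x (i - 1) ∈ N2 G h := by
    intro i hi hiw
    have hi' := mem_W.1 hi
    have hi1 := h1 i hi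
    have hna : ¬ G.Adj h (x (i - 1)) := by
      intro ha
      refine C.not_rot hh (i := i - 1) (by omega) ha ?_
      rw [Nat.sub_add_cancel hi1]; exact hi'.2
    have := hc _ (C.rot hi'.1 hi1 hi'.2) (same_rot x hi'.1) (by
      try dsimp only
      rw [if_neg (by omega)])
    simp only [show (0 : ℕ) < i by omega, if_true, Nat.sub_zero] at this
    rw [mem_N2]
    refine ⟨fun he => hh (i - 1) (by omega) he, hna, ?_⟩
    by_contra hcc
    push Not at hcc
    exact hiw (this ⟨fun he => hh (i - 1) (by omega) he, hna, hcc⟩)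
  have hWl : ∀ j ∈ W G m x h, j + 1 < m := by
    intro j hj
    have hj' := mem_W.1 hj
    by_contra hcc
    have : j = m - 1 := by omega
    rw [this] at hj'
    exact C.not_last hh hj'.2
  have hY : ∀ j ∈ W G m x h, x (j + 1) ∈ N2 G h := by
    intro j hj
    have hj' := mem_W.1 hj
    have hjl := hWl j hj
    rw [mem_N2]
    exact ⟨fun he => hh _ hjl he, fun ha => C.not_consec hh hjl hj'.2 ha, x j, hj'.2,
      C.adj j hjl⟩
  set X1 : Finset ℕ := (W G m x (x 0)).filter (fun i => x (i - 1) ≠ w0) with hX1
  have hX1c : (W G m x (x 0)).card ≤ X1.card + 1 := by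
    by_cases hex : ∃ j ∈ W G m x (x 0), x (j - 1) = w0
    · obtain ⟨j, hj, hjw⟩ := hex
      have : W G m x (x 0) ⊆ insert j X1 := by
        intro i hi
        rw [mem_insert, hX1, mem_filter]
        by_cases hiw : x (i - 1) = w0
        · left
          have e1 := C.inj (i - 1) (by have := (mem_W.1 hi).1; omega) (j - 1)
            (by have := (mem_W.1 hj).1; omega) (hiw.trans hjw.symm)
          have := h1 i hi
          have := h1 j hj
          omega
        · right; exact ⟨hi, hiw⟩
      exact (card_le_card this).trans (card_insert_le _ _)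
    · push Not at hex
      have : W G m x (x 0) ⊆ X1 := fun i hi => by
        rw [hX1, mem_filter]; exact ⟨hi, hex i hi⟩
      exact (card_le_card this).trans (Nat.le_succ _)
  set T : Finset ℕ := X1.image (· - 1) ∪ (W G m x h).image (· + 1) with hT
  have hdis : Disjoint (X1.image (· - 1)) ((W G m x h).image (· + 1)) := by
    rw [disjoint_left]
    intro i hi hi'
    rw [mem_image] at hi hi'
    obtain ⟨s, hs, hs'⟩ := hi
    rw [hX1, mem_filter] at hs
    obtain ⟨j, hj, rfl⟩ := hi'
    have hs1 := h1 s hs.1
    have hse : s = j + 2 := by omega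
    subst hse
    exact C.not_first_succ2 hh hh' b (mem_W.1 hs.1).1 (mem_W.1 hj).2 (mem_W.1 hs.1).2
  have hTm : ∀ i ∈ T, i < m := by
    intro i hi
    rw [hT, mem_union, mem_image, mem_image] at hi
    rcases hi with ⟨s, hs, rfl⟩ | ⟨j, hj, rfl⟩
    · rw [hX1, mem_filter] at hs
      have := (mem_W.1 hs.1).1; omega
    · exact hWl j hj
  have hTN : ∀ i ∈ T, x i ∈ N2 G h := by
    intro i hi
    rw [hT, mem_union, mem_image, mem_image] at hi
    rcases hi with ⟨s, hs, rfl⟩ | ⟨j, hj, rfl⟩
    · rw [hX1, mem_filter] at hs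
      exact hX s hs.1 hs.2
    · exact hY j hj
  have hTcard : T.card = X1.card + (W G m x h).card := by
    rw [hT, card_union_of_disjoint hdis, card_shift_up, card_shift_down]
    intro i hi
    rw [hX1, mem_filter] at hi
    exact h1 i hi.1
  have hTimg : (T.image x).card = T.card := by
    refine card_image_of_injOn ?_
    intro i hi j hj he
    exact C.inj i (hTm i hi) j (hTm j hj) he
  have hTsub : T.image x ⊆ N2 G h := by
    intro v hv
    rw [mem_image] at hv
    obtain ⟨i, hi, rfl⟩ := hv
    exact hTN i hi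
  have hcard := card_le_card hTsub
  have hpos := card_pos.2 hne
  have hd0 := hd _ hx0
  -- r = 1 and |X| = k
  have hr1 : (W G m x h).card = 1 := by omega
  have hXk : (W G m x (x 0)).card = k := by omega
  have hTeq : T.image x = N2 G h := by
    refine eq_of_subset_of_card_le hTsub ?_
    omega
  have hmemN : ∀ v, v ∈ N2 G h → ∃ i ∈ T, x i = v := by
    intro v hv
    rw [← hTeq, mem_image] at hv
    exact hv
  have hw0P : ∃ j ∈ W G m x (x 0), x (j - 1) = w0 := by
    by_contra hcc
    push Not at hcc
    have : X1 = W G m x (x 0) := by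
      rw [hX1]; exact filter_true_of_mem hcc
    rw [this] at hTcard
    omega
  obtain ⟨p, hp⟩ := card_eq_one.1 hr1
  have hpW : p ∈ W G m x h := by rw [hp]; exact mem_singleton_self p
  have hpa := mem_W.1 hpW
  have hpl := hWl p hpW
  have hm2 : 1 < m := by
    have := hWl p hpW
    rcases Nat.eq_zero_or_pos p with h0 | h0
    · rw [h0] at hpa; exact absurd hpa.2 (C.not_first hh)
    · omega
  -- the component of `h`
  set S : V → Prop := fun v => Off m x v ∧ (v = h ∨ G.Adj h v) with hS
  have hcl : ∀ u v, S u → ¬ S v → G.Adj u v → v = x p := by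
    intro u v hu hv ha
    by_cases ho : Off m x v
    · exfalso
      have hvh : v ≠ h := fun he => hv ⟨ho, Or.inl he⟩
      have hva : ¬ G.Adj h v := fun he => hv ⟨ho, Or.inr he⟩
      have huh : u ≠ h := by
        intro he; subst he; exact hva ha
      have hhu : G.Adj h u := hu.2.resolve_left huh
      obtain ⟨i, hi, hiv⟩ := hmemN v (mem_N2.2 ⟨hvh, hva, u, hhu, ha⟩)
      exact ho i (hTm i hi) hiv
    · unfold Off at ho
      push Not at ho
      obtain ⟨q, hq, rfl⟩ := ho
      rcases hu.2 with rfl | hhu
      · have : q ∈ W G m x u := mem_W.2 ⟨hq, ha⟩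
        rw [hp, mem_singleton] at this
        rw [this]
      · by_contra hqp
        have hqW : q ∉ W G m x h := by
          rw [hp, mem_singleton]
          intro he; subst he; exact hqp rfl
        have hqa : ¬ G.Adj h (x q) := fun he => hqW (mem_W.2 ⟨hq, he⟩)
        obtain ⟨i, hi, hiv⟩ := hmemN (x q) (mem_N2.2 ⟨fun he => hh q hq he, hqa, u, hhu, ha⟩)
        have hiq := C.inj i (hTm i hi) q hq hiv
        subst hiq
        rw [hT, mem_union, mem_image, mem_image] at hi
        rcases hi with ⟨s, hs, hse⟩ | ⟨j, hj, hje⟩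
        · rw [hX1, mem_filter] at hs
          have hs1 := h1 s hs.1
          have hs2 := mem_W.1 hs.1
          have hse' : s = i + 1 := by omega
          subst hse'
          exact C.not_first_succ hu.1 hs2.1 ha hs2.2
        · rw [hp, mem_singleton] at hj
          subst hj
          try dsimp only at hje
          subst hje
          have e1 : IsP G [h, u] := isP_two hhu
          exact C.not_insert (h := h) (g := u) e1 (off_two hu.1 hh) (by simp) (by simp) (by simp)
            hpl hpa.2 ha.symm.symm
  have hpar := parity2 hG hE S (v0 := x p) (g := h) ⟨hh, Or.inl rfl⟩ hpa.2 hcl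
    (((range m).erase p).image x) (by
      intro z hz
      rw [mem_image] at hz
      obtain ⟨i, hi, rfl⟩ := hz
      rw [mem_erase, mem_range] at hi
      exact ⟨fun hs => hs.1 i hi.2 rfl, fun he => hi.1 (C.inj _ hi.2 _ hpa.1 he)⟩)
  rw [card_image_of_injOn (by
    intro i hi j hj he
    rw [mem_coe, mem_erase, mem_range] at hi hj
    exact C.inj i hi.2 j hj.2 he), card_erase_of_mem (mem_range.2 hpa.1), card_range] at hpar
  -- the last vertex
  have hb : x (m - 1) ≠ w0 := by
    obtain ⟨j, hj, hjw⟩ := hw0P
    intro he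
    have h2 := (mem_W.1 hj).1
    have h3 := h1 j hj
    have := C.inj (j - 1) (by omega) (m - 1) (by omega) (hjw.trans he.symm)
    omega
  have hD : (W G m x (x (m - 1))).card = G.degree (x (m - 1)) := card_W C _ (fun v a => C.last_on a)
  have hdb := hd _ hb
  set XM : Finset ℕ := (W G m x (x 0)).image (· - 1) with hXM
  have hdis2 : Disjoint XM (W G m x (x (m - 1))) := by
    rw [disjoint_left]
    intro i hi hi'
    rw [hXM, mem_image] at hi
    obtain ⟨j, hj, rfl⟩ := hi
    have hj1 := h1 j hj
    have hj' := mem_W.1 hj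
    refine C.not_cycle hh (i := j - 1) (p := p) (by omega) hpa.1 hpa.2 (mem_W.1 hi').2 ?_
    rw [Nat.sub_add_cancel hj1]; exact hj'.2
  have hsub2 : XM ∪ W G m x (x (m - 1)) ⊆ range (m - 1) := by
    intro i hi
    rw [hXM, mem_union, mem_image] at hi
    rw [mem_range]
    rcases hi with ⟨j, hj, rfl⟩ | hi
    · have := h1 j hj
      have := (mem_W.1 hj).1
      omega
    · have hi' := mem_W.1 hi
      by_contra hcc
      have : i = m - 1 := by omega
      rw [this] at hi'
      exact G.irrefl hi'.2
  have hXMc : XM.card = (W G m x (x 0)).card := card_shift_down _ h1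
  have hc2 := card_le_card hsub2
  rw [card_union_of_disjoint hdis2, card_range] at hc2
  have heq2 : XM ∪ W G m x (x (m - 1)) = range (m - 1) := by
    refine eq_of_subset_of_card_le hsub2 ?_
    rw [card_union_of_disjoint hdis2, card_range]
    omega
  have hpin : p ∈ XM ∪ W G m x (x (m - 1)) := by
    rw [heq2, mem_range]; omega
  rw [mem_union] at hpin
  rcases hpin with hpin | hpin
  · rw [hXM, mem_image] at hpin
    obtain ⟨j, hj, hjp⟩ := hpin
    have hj1 := h1 j hj
    have hj' := mem_W.1 hj
    have : j = p + 1 := by omega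
    subst this
    exact C.not_first_succ hh hpl hpa.2 hj'.2
  · have hpb := (mem_W.1 hpin).2
    obtain ⟨i, hi, hiv⟩ := hmemN (x (m - 1)) (mem_N2.2 ⟨fun he => hh _ (by omega) he,
      C.not_last hh, x p, hpa.2, hpb.symm⟩)
    have hi' := C.inj i (hTm i hi) (m - 1) (by omega) hiv
    subst hi'
    rw [hT, mem_union, mem_image, mem_image] at hi
    rcases hi with ⟨s, hs, hse⟩ | ⟨j, hj, hje⟩
    · rw [hX1, mem_filter] at hs
      have hs1 := h1 s hs.1
      have hs2 := (mem_W.1 hs.1).1
      omega
    · rw [hp, mem_singleton] at hj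
      subst hj
      have := C.count [h', h] (isP_two b) (off_two hh hh') [(m, m + 1), (j, 0)]
        (by simp; omega) (by simp [Dis]; omega)
        (by simp only [List.isChain_cons_cons, List.isChain_singleton, and_true]
            rw [ext2b, ext_lt (by omega)]; exact hpa.2)
      simp [len] at this; omega

/-- some vertex off the path is not the exceptional one -/
theorem LP.caseA [Fintype V] [DecidableRel G.Adj] {m k : ℕ} {x : ℕ → V} (C : LP G m x)
    (hG : G.Connected) (w0 : V) (hd : ∀ v, v ≠ w0 → k ≤ G.degree v)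
    (hE : ∀ v, (EV G v).card ≤ k) (ho : ∃ h, Off m x h ∧ h ≠ w0) :
    3 * k + 3 ≤ Fintype.card V := by
  classical
  have hN2 : ∀ v, (N2 G v).card ≤ k := fun v => (card_le_card (N2_sub_EV hG v)).trans (hE v)
  set O : Finset V := univ.filter (fun v => Off m x v ∧ v ≠ w0) with hO
  have memO : ∀ v, v ∈ O ↔ Off m x v ∧ v ≠ w0 := by intro v; simp [hO]
  have hOne : O.Nonempty := by
    obtain ⟨h, h1, h2⟩ := ho
    exact ⟨h, (memO h).2 ⟨h1, h2⟩⟩
  obtain ⟨h, hhO, hmax⟩ := exists_max_image O (fun v => (W G m x v).card) hOne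
  obtain ⟨hh, hhw⟩ := (memO h).1 hhO
  rcases Nat.eq_zero_or_pos (W G m x h).card with hr | hr
  · -- only `w0` can be attached
    exfalso
    have hnW : ∀ v, Off m x v → v ≠ w0 → ∀ i < m, ¬ G.Adj v (x i) := by
      intro v h1 h2 i hi ha
      have h3 := hmax v ((memO v).2 ⟨h1, h2⟩)
      have h4 : 0 < (W G m x v).card := card_pos.2 ⟨i, mem_W.2 ⟨hi, ha⟩⟩
      omega
    obtain ⟨j, hj, v, hv, ha⟩ := exists_cross hG (u := x 0) (z := h)
      (fun ho => ho 0 C.pos rfl) hh
    have hvw : v = w0 := by
      by_contra hc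
      exact hnW v hv hc j hj ha
    subst hvw
    set S : V → Prop := fun u => Off m x u ∧ u ≠ v with hS
    have hcl : ∀ a b, S a → ¬ S b → G.Adj a b → b = v := by
      intro a b h1 h2 h3
      by_contra hc
      apply h2
      refine ⟨?_, hc⟩
      by_contra ho
      unfold Off at ho
      push Not at ho
      obtain ⟨i, hi, rfl⟩ := ho
      exact hnW a h1.1 h1.2 i hi h3
    obtain ⟨g, b, hg, hb, hgb⟩ := cross hG S (u := h) (z := v) ⟨hh, hhw⟩ (fun hs => hs.2 rfl)
    have hbv := hcl g b hg hb hgb
    subst hbv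
    have hpar := parity2 hG hE S (v0 := b) (g := g) hg hgb hcl ((range m).image x) (by
      intro z hz
      rw [mem_image] at hz
      obtain ⟨i, hi, rfl⟩ := hz
      exact ⟨fun hs => hs.1 i (mem_range.1 hi) rfl, fun he => hv i (mem_range.1 hi) he⟩)
    rw [card_image_of_injOn (by
      intro i hi j hj he
      rw [mem_coe, mem_range] at hi hj
      exact C.inj i hi j hj he), card_range] at hpar
    obtain ⟨e, he1, he2, he3, he4⟩ := greedy (k := k) S (w0 := b) (g := g) (fun hs => hs.2 rfl) hg
      hgb (by
        intro u z hu hz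
        by_cases hs : S z
        · exact Or.inl hs
        · exact Or.inr (hcl u z hu hs hz)) (fun u hu => hd u hu.2)
    have hoff : ∀ u ∈ e, Off m x u := by
      intro u hu
      rcases he2 u hu with h1 | h1
      · exact h1.1
      · rw [h1]; exact hv
    have c1 := C.count e he1 hoff [(m, m + (e.length - 1)), (j, m - 1)] (by simp; omega)
      (by simp [Dis]; omega)
      (by simp only [List.isChain_cons_cons, List.isChain_singleton, and_true]
          rw [ext_ge, ext_lt (by omega), he4]; exact ha)
    have c2 := C.count e he1 hoff [(m, m + (e.length - 1)), (j, 0)] (by simp; omega)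
      (by simp [Dis]; omega)
      (by simp only [List.isChain_cons_cons, List.isChain_singleton, and_true]
          rw [ext_ge, ext_lt (by omega), he4]; exact ha)
    simp [len] at c1 c2
    omega
  · have hne : (W G m x h).Nonempty := card_pos.1 hr
    have hr1 := C.lemma1 hh hne
    have hk := hN2 h
    obtain ⟨h', hh', b⟩ : ∃ h', Off m x h' ∧ G.Adj h' h := by
      by_contra hc
      push Not at hc
      have h1 := card_W C h (fun v a => by
        by_contra hc'
        push Not at hc'
        exact hc v hc' a.symm)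
      have := hd h hhw
      omega
    -- one good end
    have step : ∀ z : ℕ → V, LP G m z → Same m x z → z (m - 1) ≠ z 0 →
        (∃ y : ℕ → V, LP G m y ∧ Same m x y ∧ y (m - 1) = z (m - 1) ∧ Far G h (y 0) ∧ y 0 ≠ w0) := by
      intro z Z T hz01
      have gh := T.off hh
      have gh' := T.off hh'
      have gne : (W G m z h).Nonempty := by rw [← card_pos, ← card_W_same C Z T]; exact hr
      by_cases h0 : z 0 = w0
      · by_cases h2 : ∃ i, i < m ∧ 2 ≤ i ∧ G.Adj (z 0) (z i)
        · obtain ⟨i, hi, hi2, ha⟩ := h2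
          obtain ⟨y, Y, U, hy1, hy2⟩ := Z.first_ne hi hi2 ha
          have TU := T.trans U
          obtain ⟨y', Y', U', hy1', hy2', hy3'⟩ := Y.far_first_ne hG (w0 := w0) (TU.off hh)
            (TU.off hh') b (by rw [← card_pos, ← card_W_same C Y TU]; exact hr) hE hd
            (by rw [← h0]; exact hy2)
          exact ⟨y', Y', TU.trans U', hy1'.trans hy1, hy2', hy3'⟩
        · exfalso
          push Not at h2
          refine Z.pendant hG gh gh' b gne hE (hd _ (by rw [← h0]; exact hz01)) (hd h hhw) ?_
          intro i hi ha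
          by_contra hc
          refine h2 i hi ?_ ha
          rcases Nat.eq_zero_or_pos i with hi0 | hi0
          · subst hi0; exact absurd ha (G.irrefl)
          · omega
      · obtain ⟨y', Y', U', hy1', hy2', hy3'⟩ := Z.far_first_ne hG (w0 := w0) gh gh' b gne hE hd h0
        exact ⟨y', Y', T.trans U', hy1', hy2', hy3'⟩
    have hm3 : 1 < m := by
      obtain ⟨p, hp⟩ := hne
      have hp' := mem_W.1 hp
      rcases Nat.eq_zero_or_pos p with h0 | h0
      · rw [h0] at hp'; exact absurd hp'.2 (C.not_first hh)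
      · omega
    have hends : ∀ z : ℕ → V, LP G m z → z (m - 1) ≠ z 0 := by
      intro z Z he
      have := Z.inj _ (by omega) _ (by omega) he
      omega
    obtain ⟨y1, Y1, S1, _, f1, n1⟩ := step x C (fun v => Iff.rfl) (hends x C)
    have S2 : Same m x (fun i => y1 (m - 1 - i)) := S1.trans (same_rev y1)
    obtain ⟨y2, Y2, S3, e2, f2, n2⟩ := step _ Y1.rev S2 (hends _ Y1.rev)
    have e2' : y2 (m - 1) = y1 0 := by
      rw [e2]; simp
    have hcW : (W G m y2 h).card = (W G m x h).card := (card_W_same C Y2 S3 h).symm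
    have hne2 : (W G m y2 h).Nonempty := by rw [← card_pos, hcW]; exact hr
    have hc1 := Y2.count1 (S3.off hh) hne2 f2 (by rw [e2']; exact f1) (hd _ n2)
      (by rw [e2']; exact hd _ n1)
    rw [hcW] at hc1
    have h1 := card_NO C hh
    have h2 := off_card C (NO G m x h) (fun v hv => (mem_NO.1 hv).2)
    have h3 := hd h hhw
    omega

end Pool.Agent.MP5ce328
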