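import Pool.Agent.Lib.MP_5ce328_co.Ends

namespace Pool.Agent.MP5ce328

open Finset

variable {V : Type*} {G : SimpleGraph V}

theorem W_image_same [DecidableEq V] {m : ℕ} {x y : ℕ → V} (S : Same m x y) (u : V) :
    (W G m x u).image x = (W G m y u).image y := by
  ext v
  simp only [mem_image, mem_W]
  constructor
  · rintro ⟨i, ⟨hi, a⟩, rfl⟩
    obtain ⟨j, hj, hj'⟩ := (S (x i)).1 ⟨i, hi, rfl⟩
    exact ⟨j, ⟨hj, by rw [hj']; exact a⟩, hj'⟩
  · rintro ⟨i, ⟨hi, a⟩, rfl⟩
    obtain ⟨j, hj, hj'⟩ := (S (y i)).2 ⟨i, hi, rfl⟩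
    exact ⟨j, ⟨hj, by rw [hj']; exact a⟩, hj'⟩

theorem card_W_image [DecidableEq V] {m : ℕ} {x : ℕ → V} (C : LP G m x) (u : V) :
    ((W G m x u).image x).card = (W G m x u).card := by
  refine card_image_of_injOn ?_
  intro i hi j hj h
  exact C.inj i (mem_W.1 hi).1 j (mem_W.1 hj).1 h

theorem card_W_same {m : ℕ} {x y : ℕ → V} (C : LP G m x) (D : LP G m y)
    (S : Same m x y) (u : V) : (W G m x u).card = (W G m y u).card := by
  classical
  rw [← card_W_image C, ← card_W_image D, W_image_same S]

theorem LP.far_both [Fintype V] [DecidableRel G.Adj] {m k : ℕ} {x : ℕ → V} (C : LP G m x)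
    {h h' : V} (hh : Off m x h) (hh' : Off m x h') (b : G.Adj h' h)
    (hne : (W G m x h).Nonempty) (hN : (N2 G h).card ≤ k) (hd : ∀ v, k ≤ G.degree v) :
    ∃ y : ℕ → V, LP G m y ∧ Same m x y ∧ Far G h (y 0) ∧ Far G h (y (m - 1)) := by
  obtain ⟨y1, C1, S1, _, F1⟩ := C.far_first hh hh' b hne hN (hd _)
  have S2 : Same m x (fun i => y1 (m - 1 - i)) := S1.trans (same_rev y1)
  have hne2 : (W G m (fun i => y1 (m - 1 - i)) h).Nonempty := by
    rw [← card_pos, ← card_W_same C C1.rev S2, card_pos]; exact hne
  obtain ⟨z, C3, S3, e3, F3⟩ := C1.rev.far_first (S2.off hh) (S2.off hh') b hne2 hN (hd _)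
  refine ⟨z, C3, S2.trans S3, F3, ?_⟩
  rw [e3]
  simpa using F1

/-- Lemma 3 -/
theorem LP.count1 [Fintype V] [DecidableRel G.Adj] {m k : ℕ} {x : ℕ → V} (C : LP G m x)
    {h : V} (hh : Off m x h) (hne : (W G m x h).Nonempty)
    (fa : Far G h (x 0)) (fb : Far G h (x (m - 1))) (hd0 : k ≤ G.degree (x 0))
    (hd1 : k ≤ G.degree (x (m - 1))) :
    2 * k + 2 * (W G m x h).card + 1 ≤ m := by
  have hm := C.pos
  have hX : (W G m x (x 0)).card = G.degree (x 0) := card_W C _ (fun v a => C.first_on a)
  have hY : (W G m x (x (m - 1))).card = G.degree (x (m - 1)) :=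
    card_W C _ (fun v a => C.last_on a)
  have h1 : ∀ i ∈ W G m x (x 0), 1 ≤ i := by
    intro i hi
    rcases Nat.eq_zero_or_pos i with h0 | h0
    · subst h0
      exact absurd (mem_W.1 hi).2 (G.irrefl)
    · exact h0
  have h2 : ∀ i ∈ W G m x (x (m - 1)), i + 1 < m := by
    intro i hi
    have hi' := mem_W.1 hi
    by_contra hc
    have : i = m - 1 := by omega
    subst this
    exact G.irrefl hi'.2
  have h3 : ∀ i ∈ W G m x h, 1 ≤ i := by
    intro i hi
    rcases Nat.eq_zero_or_pos i with h0 | h0
    · subst h0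
      exact absurd (mem_W.1 hi).2 (C.not_first hh)
    · exact h0
  have h4 : ∀ i ∈ W G m x h, i + 1 < m := by
    intro i hi
    have hi' := mem_W.1 hi
    by_contra hc
    have : i = m - 1 := by omega
    subst this
    exact C.not_last hh hi'.2
  have key := card4 (S := range (m - 1)) (A := (W G m x (x 0)).image (· - 1))
    (B := W G m x (x (m - 1))) (C := W G m x h) (D := (W G m x h).image (· - 1))
    (by
      intro i hi
      rw [mem_image] at hi
      obtain ⟨j, hj, rfl⟩ := hi
      have := h1 j hj
      have := (mem_W.1 hj).1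
      rw [mem_range]; omega)
    (by
      intro i hi
      have := h2 i hi
      rw [mem_range]; omega)
    (by
      intro i hi
      have := h4 i hi
      rw [mem_range]; omega)
    (by
      intro i hi
      rw [mem_image] at hi
      obtain ⟨j, hj, rfl⟩ := hi
      have := h3 j hj
      have := h4 j hj
      rw [mem_range]; omega)
    (by
      rw [disjoint_left]
      intro i hi hi'
      rw [mem_image] at hi
      obtain ⟨j, hj, rfl⟩ := hi
      have hj1 := h1 j hj
      have hj' := mem_W.1 hj
      obtain ⟨p, hp⟩ := hne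
      have hp' := mem_W.1 hp
      refine C.not_cycle hh (i := j - 1) (p := p) (by omega) hp'.1 hp'.2 (mem_W.1 hi').2 ?_
      rw [Nat.sub_add_cancel hj1]; exact hj'.2)
    (by
      rw [disjoint_left]
      intro i hi hi'
      rw [mem_image] at hi
      obtain ⟨j, hj, rfl⟩ := hi
      have hj1 := h1 j hj
      have hj' := mem_W.1 hj
      refine C.not_rot hh (i := j - 1) (by omega) (mem_W.1 hi').2 ?_
      rw [Nat.sub_add_cancel hj1]; exact hj'.2)
    (by
      rw [disjoint_left]
      intro i hi hi'
      exact fb.2.2 _ (mem_W.1 hi').2 (mem_W.1 hi).2.symm)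
    (by
      rw [disjoint_left]
      intro i hi hi'
      rw [mem_image] at hi hi'
      obtain ⟨j, hj, rfl⟩ := hi
      obtain ⟨j', hj', he⟩ := hi'
      have := h1 j hj
      have := h3 j' hj'
      have e : j' = j := by omega
      subst e
      exact fa.2.2 _ (mem_W.1 hj').2 (mem_W.1 hj).2.symm)
    (by
      rw [disjoint_left]
      intro i hi hi'
      rw [mem_image] at hi'
      obtain ⟨j, hj, rfl⟩ := hi'
      have hj1 := h3 j hj
      have hj' := mem_W.1 hj
      refine C.not_last_pred hh (w := j - 1) (by omega) ?_ (mem_W.1 hi).2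
      rw [Nat.sub_add_cancel hj1]; exact hj'.2)
    (by
      rw [disjoint_left]
      intro i hi hi'
      rw [mem_image] at hi'
      obtain ⟨j, hj, rfl⟩ := hi'
      have hj1 := h3 j hj
      have hj' := mem_W.1 hj
      refine C.not_consec hh (p := j - 1) (by omega) (mem_W.1 hi).2 ?_
      rw [Nat.sub_add_cancel hj1]; exact hj'.2)
  rw [card_shift_down _ h1, card_shift_down _ h3, card_range, hX, hY] at key
  omega

/-- every off vertex can be reached from `h` off the path -/
def Conn (G : SimpleGraph V) (m : ℕ) (x : ℕ → V) (h : V) : Prop :=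
  ∀ z, Off m x z → ∃ e : List V, IsP G e ∧ (∀ v ∈ e, Off m x v) ∧ 1 ≤ e.length ∧
    (∀ d, e.getD 0 d = h) ∧ (∀ d, e.getD (e.length - 1) d = z) ∧ (z ≠ h → 2 ≤ e.length)

/-- Lemma 5 -/
theorem LP.core [Fintype V] [DecidableRel G.Adj] {m k : ℕ} {x : ℕ → V} (C : LP G m x)
    (hdeg : ∀ v, k ≤ G.degree v) (hN2 : ∀ v, (N2 G v).card ≤ k) {h h' : V}
    (hh : Off m x h) (hh' : Off m x h') (b : G.Adj h' h) (hne : (W G m x h).Nonempty)
    (fa : Far G h (x 0)) (fb : Far G h (x (m - 1))) (hC : Conn G m x h)
    (alt : 2 ≤ (W G m x h).card ∨ ∃ g q, Off m x g ∧ g ≠ h ∧ G.Adj g (x q) ∧ q < m ∧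
      ∀ p ∈ W G m x h, p < q) :
    3 * k + (W G m x h).card ≤ m + 1 := by
  classical
  have hm := C.pos
  set p := (W G m x h).min' hne with hp
  have hpW : p ∈ W G m x h := min'_mem _ _
  have hpa := mem_W.1 hpW
  have hple : ∀ i ∈ W G m x h, p ≤ i := fun i hi => min'_le _ _ hi
  have h3 : ∀ i ∈ W G m x h, 1 ≤ i := by
    intro i hi
    rcases Nat.eq_zero_or_pos i with h0 | h0
    · subst h0
      exact absurd (mem_W.1 hi).2 (C.not_first hh)
    · exact h0
  have h4 : ∀ i ∈ W G m x h, i + 1 < m := by
    intro i hi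
    have hi' := mem_W.1 hi
    by_contra hc
    have : i = m - 1 := by omega
    rw [this] at hi'
    exact C.not_last hh hi'.2
  have hpm := h4 p hpW
  have hX : (W G m x (x 0)).card = G.degree (x 0) := card_W C _ (fun v a => C.first_on a)
  have hY : (W G m x (x (m - 1))).card = G.degree (x (m - 1)) :=
    card_W C _ (fun v a => C.last_on a)
  have hB : (W G m x (x (p + 1))).card = G.degree (x (p + 1)) := by
    refine card_W C _ (fun v a => ?_)
    by_contra hc
    push Not at hc
    obtain ⟨e, he1, he2, he3, he4, he5, _⟩ := hC v hc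
    exact C.not_insert he1 he2 he3 (he4 _) (he5 _) hpm hpa.2 a.symm
  have key := count2 m p (W G m x (x 0)) (W G m x (x (p + 1))) (W G m x (x (m - 1)))
    (W G m x h) hpm
    (by
      intro i hi
      have hi' := mem_W.1 hi
      refine ⟨?_, hi'.1⟩
      rcases Nat.eq_zero_or_pos i with h0 | h0
      · subst h0
        exact absurd hi'.2 (G.irrefl)
      · exact h0)
    (by
      intro i hi
      have hi' := mem_W.1 hi
      refine ⟨hi'.1, ?_⟩
      intro he
      subst he
      exact G.irrefl hi'.2)
    (by
      intro i hi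
      have hi' := mem_W.1 hi
      refine ⟨?_, ?_⟩
      · by_contra hc
        have : i = m - 1 := by omega
        subst this
        exact G.irrefl hi'.2
      · intro he
        subst he
        exact fb.2.2 _ hpa.2 hi'.2.symm)
    (fun i hi => ⟨hple i hi, (mem_W.1 hi).1⟩)
    (fun i h1 h2 h3 => C.m1 hh h3 hpm hpa.2 (mem_W.1 h1).2 (mem_W.1 h2).2)
    (by
      intro i h1 h2 h3
      have hne' : i + 2 ≠ p := by
        intro he
        have h2' := (mem_W.1 h2).2
        rw [he] at h2'
        exact fa.2.2 _ hpa.2 h2'.symm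
      exact C.not_cycle2 hh hh' b (by omega) hpa.1 hpa.2 (mem_W.1 h1).2 (mem_W.1 h2).2)
    (fun i h1 h2 h3 => C.m3 hh h3 hpm hpa.2 (mem_W.1 h2).2 (mem_W.1 h1).2)
    (fun i h1 h2 h3 => C.m4 hh h3 (mem_W.1 h2).1 hpa.2 (mem_W.1 h2).2 (mem_W.1 h1).2)
    (fun i h1 h2 h3 => C.not_cycle hh (mem_W.1 h2).1 hpa.1 hpa.2 (mem_W.1 h1).2 (mem_W.1 h2).2)
    (by
      intro i h1 h2 h3
      have h1' := mem_W.1 h1
      have h2' := mem_W.1 h2
      have noff : ∀ v, Off m x v → ¬ G.Adj v (x (i + 1)) := fun v hv a =>
        C.not_last_pred hv (w := i) (by omega) a h1'.2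
      rcases alt with alt | ⟨g, q, hg, hgh, hga, hqm, hpq⟩
      · obtain ⟨q, hq, hqp⟩ : ∃ q ∈ W G m x h, q ≠ p := by
          by_contra hc
          push Not at hc
          have : W G m x h ⊆ {p} := fun i hi => mem_singleton.2 (hc i hi)
          have := card_le_card this
          rw [card_singleton] at this
          omega
        have hq' := mem_W.1 hq
        have hq1 := hple q hq
        have hq2 : q ≠ p + 1 := by
          intro he
          subst he
          exact C.not_consec hh hpm hpa.2 hq'.2
        obtain ⟨l, hl1, hl2, hl3⟩ := C.m6 (isP_one h) (off_one hh) (h := h) (g := h) (by simp)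
          (by simp) (by simp) (i := i) (p := p) (q := q) h3 h2'.1 (by omega) (h4 q hq)
          (by intro he; subst he; exact noff h hh hq'.2) hpa.2 hq'.2 h2'.2 h1'.2
        simp only [List.length_cons, List.length_nil] at hl2
        have C' := LP.ofList hm C.max hl1 (by omega) (x 0)
        have hmem : ∀ v, v ∈ l ↔ ∃ j < m, l.getD j (x 0) = v := by
          intro v
          constructor
          · intro hv
            obtain ⟨j, hj, rfl⟩ := List.getElem_of_mem hv
            exact ⟨j, by omega, List.getD_eq_getElem _ _ hj⟩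
          · rintro ⟨j, hj, rfl⟩
            rw [List.getD_eq_getElem _ _ (by omega)]
            exact List.getElem_mem _
        have hoffu : Off m (fun j => l.getD j (x 0)) (x (i + 1)) := by
          intro j hj he
          have : x (i + 1) ∈ l := (hmem _).2 ⟨j, hj, he⟩
          rw [hl3] at this
          rcases this with hv | ⟨j', hj', hne', he'⟩
          · rw [List.mem_singleton] at hv
            exact hh (i + 1) (by omega) hv
          · exact hne' (C.inj _ hj' _ (by omega) he')
        have hall : ∀ v, G.Adj (x (i + 1)) v → ∃ j < m, l.getD j (x 0) = v := by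
          intro v a
          rw [← hmem, hl3]
          by_cases hv : Off m x v
          · exact absurd a.symm (noff v hv)
          · unfold Off at hv
            push Not at hv
            obtain ⟨j, hj, rfl⟩ := hv
            right
            refine ⟨j, hj, ?_, rfl⟩
            intro he
            subst he
            exact G.irrefl a
        have hcard := card_W C' (x (i + 1)) hall
        have hd := hdeg (x (i + 1))
        have hne' : (W G m (fun j => l.getD j (x 0)) (x (i + 1))).Nonempty := by
          obtain ⟨j, hj, hj'⟩ := hall (x i) (C.adj i (by omega)).symm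
          refine ⟨j, mem_W.2 ⟨hj, ?_⟩⟩
          rw [hj']
          exact (C.adj i (by omega)).symm
        have := C'.lemma1 hoffu hne'
        have := hN2 (x (i + 1))
        omega
      · obtain ⟨e, he1, he2, he3, he4, he5, he6⟩ := hC g hg
        have hpq' := hpq p hpW
        have hlen := he6 hgh
        have hq2 : q ≠ p + 1 := by
          intro he
          subst he
          exact C.not_insert he1 he2 he3 (he4 _) (he5 _) hpm hpa.2 hga
        have hq3 : q + 1 < m := by
          by_contra hc
          have : q = m - 1 := by omega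
          subst this
          exact C.not_last hg hga
        obtain ⟨l, hl1, hl2, _⟩ := C.m6 he1 he2 he3 (he4 _) (he5 _) (i := i) (p := p) (q := q)
          h3 h2'.1 (by omega) hq3 (by intro he; subst he; exact noff g hg hga) hpa.2 hga h2'.2
          h1'.2
        have := C.max l hl1
        omega)
    (by
      intro i hi _ hi'
      exact fa.2.2 _ (mem_W.1 hi).2 (mem_W.1 hi').2.symm)
    (by
      intro i hi hpi hi'
      have hi'' := mem_W.1 hi'
      exact C.not_succ hh hpi hi''.1 hpa.2 (mem_W.1 hi).2 hi''.2)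
    (by
      intro i hi _ j hj hji
      subst hji
      exact C.not_last_pred hh (mem_W.1 hi).1 (mem_W.1 hi).2 (mem_W.1 hj).2)
  have := hdeg (x 0)
  have := hdeg (x (m - 1))
  have := hdeg (x (p + 1))
  omega

end Pool.Agent.MP5ce328
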