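import Pool.Agent.Lib.MP_5ce328_co.Moves

namespace Pool.Agent.MP5ce328

open Finset

variable {V : Type*} {G : SimpleGraph V}

/-! ### counting helpers -/

theorem card3 {S A B C : Finset ℕ} (hA : A ⊆ S) (hB : B ⊆ S) (hC : C ⊆ S)
    (h1 : Disjoint A B) (h2 : Disjoint A C) (h3 : Disjoint B C) :
    A.card + B.card + C.card ≤ S.card := by
  rw [← card_union_of_disjoint h1, ← card_union_of_disjoint (disjoint_union_left.2 ⟨h2, h3⟩)]
  exact card_le_card (union_subset (union_subset hA hB) hC)

theorem card4 {S A B C D : Finset ℕ} (hA : A ⊆ S) (hB : B ⊆ S) (hC : C ⊆ S) (hD : D ⊆ S)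
    (h1 : Disjoint A B) (h2 : Disjoint A C) (h3 : Disjoint B C)
    (h4 : Disjoint A D) (h5 : Disjoint B D) (h6 : Disjoint C D) :
    A.card + B.card + C.card + D.card ≤ S.card := by
  rw [← card_union_of_disjoint h1, ← card_union_of_disjoint (disjoint_union_left.2 ⟨h2, h3⟩),
    ← card_union_of_disjoint (disjoint_union_left.2 ⟨disjoint_union_left.2 ⟨h4, h5⟩, h6⟩)]
  exact card_le_card (union_subset (union_subset (union_subset hA hB) hC) hD)

theorem card_shift_up (A : Finset ℕ) (c : ℕ) : (A.image (· + c)).card = A.card :=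
  card_image_of_injective _ (fun a b h => by simpa using h)

theorem card_shift_down (A : Finset ℕ) (h : ∀ i ∈ A, 1 ≤ i) : (A.image (· - 1)).card = A.card := by
  refine card_image_of_injOn ?_
  intro a ha b hb hab
  have h1 := h a ha
  have h2 := h b hb
  simp only at hab
  omega

theorem count2 (m p : ℕ) (A B D W : Finset ℕ) (hpm : p + 1 < m)
    (hA : ∀ i ∈ A, 1 ≤ i ∧ i < m)
    (hB : ∀ i ∈ B, i < m ∧ i ≠ p + 1)
    (hD : ∀ i ∈ D, i + 1 < m ∧ i ≠ p)
    (hW : ∀ i ∈ W, p ≤ i ∧ i < m)
    (c1 : ∀ i, i ∈ B → i + 1 ∈ A → i + 1 ≤ p → False)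
    (c2 : ∀ i, i ∈ D → i + 2 ∈ A → i + 2 ≤ p → False)
    (c3 : ∀ i, i ∈ D → i + 1 ∈ B → i + 1 ≤ p → False)
    (c4 : ∀ i, i ∈ A → i + 1 ∈ B → p + 1 ≤ i → False)
    (c5 : ∀ i, i ∈ D → i + 1 ∈ A → p + 1 ≤ i → False)
    (c6 : ∀ i, i ∈ D → i + 2 ∈ B → p + 1 ≤ i → False)
    (w1 : ∀ i ∈ W, p < i → i ∉ A)
    (w2 : ∀ i ∈ W, p < i → i + 1 ∉ B)
    (w3 : ∀ i ∈ W, p < i → ∀ j ∈ D, j + 1 ≠ i) :
    A.card + B.card + D.card + W.card ≤ m + 1 := by
  have r1 : (A.filter (· ≤ p)).card + ((B.filter (· ≤ p)).image (· + 1)).card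
      + ((D.filter (· ≤ p)).image (· + 2)).card ≤ (Icc 1 (p + 1)).card := by
    refine card3 ?_ ?_ ?_ ?_ ?_ ?_
    · intro i hi
      rw [mem_filter] at hi
      have := hA i hi.1
      rw [mem_Icc]; omega
    · intro i hi
      rw [mem_image] at hi
      obtain ⟨j, hj, rfl⟩ := hi
      rw [mem_filter] at hj
      rw [mem_Icc]; omega
    · intro i hi
      rw [mem_image] at hi
      obtain ⟨j, hj, rfl⟩ := hi
      rw [mem_filter] at hj
      have := hD j hj.1
      rw [mem_Icc]; omega
    · rw [disjoint_left]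
      intro i hi hi'
      rw [mem_filter] at hi
      rw [mem_image] at hi'
      obtain ⟨j, hj, rfl⟩ := hi'
      rw [mem_filter] at hj
      exact c1 j hj.1 hi.1 hi.2
    · rw [disjoint_left]
      intro i hi hi'
      rw [mem_filter] at hi
      rw [mem_image] at hi'
      obtain ⟨j, hj, rfl⟩ := hi'
      rw [mem_filter] at hj
      exact c2 j hj.1 hi.1 hi.2
    · rw [disjoint_left]
      intro i hi hi'
      rw [mem_image] at hi hi'
      obtain ⟨j, hj, rfl⟩ := hi'
      obtain ⟨j', hj', he⟩ := hi
      rw [mem_filter] at hj hj'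
      have : j' = j + 1 := by omega
      subst this
      exact c3 j hj.1 hj'.1 hj'.2
  have r2 : (A.filter (fun i => ¬ i ≤ p)).card + ((B.filter (fun i => ¬ i ≤ p)).image (· - 1)).card
      + ((D.filter (fun i => ¬ i ≤ p)).image (· + 1)).card + (W.filter (p < ·)).card
      ≤ (Icc (p + 1) (m - 1)).card := by
    refine card4 ?_ ?_ ?_ ?_ ?_ ?_ ?_ ?_ ?_ ?_
    · intro i hi
      rw [mem_filter] at hi
      have := hA i hi.1
      rw [mem_Icc]; omega
    · intro i hi
      rw [mem_image] at hi
      obtain ⟨j, hj, rfl⟩ := hi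
      rw [mem_filter] at hj
      have := hB j hj.1
      rw [mem_Icc]; omega
    · intro i hi
      rw [mem_image] at hi
      obtain ⟨j, hj, rfl⟩ := hi
      rw [mem_filter] at hj
      have := hD j hj.1
      rw [mem_Icc]; omega
    · intro i hi
      rw [mem_filter] at hi
      have := hW i hi.1
      rw [mem_Icc]; omega
    · rw [disjoint_left]
      intro i hi hi'
      rw [mem_filter] at hi
      rw [mem_image] at hi'
      obtain ⟨j, hj, he⟩ := hi'
      rw [mem_filter] at hj
      have : j = i + 1 := by omega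
      subst this
      exact c4 i hi.1 hj.1 (by omega)
    · rw [disjoint_left]
      intro i hi hi'
      rw [mem_filter] at hi
      rw [mem_image] at hi'
      obtain ⟨j, hj, rfl⟩ := hi'
      rw [mem_filter] at hj
      exact c5 j hj.1 hi.1 (by omega)
    · rw [disjoint_left]
      intro i hi hi'
      rw [mem_image] at hi hi'
      obtain ⟨j, hj, rfl⟩ := hi'
      obtain ⟨j', hj', he⟩ := hi
      rw [mem_filter] at hj hj'
      have : j' = j + 2 := by omega
      subst this
      exact c6 j hj.1 hj'.1 (by omega)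
    · rw [disjoint_left]
      intro i hi hi'
      rw [mem_filter] at hi hi'
      exact w1 i hi'.1 hi'.2 hi.1
    · rw [disjoint_left]
      intro i hi hi'
      rw [mem_image] at hi
      rw [mem_filter] at hi'
      obtain ⟨j, hj, he⟩ := hi
      rw [mem_filter] at hj
      have : j = i + 1 := by omega
      subst this
      exact w2 i hi'.1 hi'.2 hj.1
    · rw [disjoint_left]
      intro i hi hi'
      rw [mem_image] at hi
      rw [mem_filter] at hi'
      obtain ⟨j, hj, he⟩ := hi
      rw [mem_filter] at hj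
      exact w3 i hi'.1 hi'.2 j hj.1 he
  rw [card_shift_up, card_shift_up, Nat.card_Icc] at r1
  rw [card_shift_up, card_shift_down _ (by
    intro i hi; rw [mem_filter] at hi; omega), Nat.card_Icc] at r2
  have eA := card_filter_add_card_filter_not (s := A) (fun i => i ≤ p)
  have eB := card_filter_add_card_filter_not (s := B) (fun i => i ≤ p)
  have eD := card_filter_add_card_filter_not (s := D) (fun i => i ≤ p)
  have eW : W.card ≤ (W.filter (p < ·)).card + 1 := by
    have : W ⊆ insert p (W.filter (p < ·)) := by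
      intro i hi
      have := hW i hi
      rw [mem_insert, mem_filter]
      by_cases h : i = p
      · left; exact h
      · right; exact ⟨hi, by omega⟩
    exact (card_le_card this).trans (card_insert_le _ _)
  omega

/-! ### neighbourhoods -/

/-- indices of the neighbours of `u` on the path -/
noncomputable def W (G : SimpleGraph V) (m : ℕ) (x : ℕ → V) (u : V) : Finset ℕ := by
  classical exact (range m).filter (fun i => G.Adj u (x i))

theorem mem_W {m : ℕ} {x : ℕ → V} {u : V} {i : ℕ} : i ∈ W G m x u ↔ i < m ∧ G.Adj u (x i) := by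
  unfold W; simp

/-- the vertices with a common neighbour with `u`, other than `u` and its neighbours -/
noncomputable def N2 [Fintype V] (G : SimpleGraph V) (u : V) : Finset V := by
  classical exact univ.filter (fun v => v ≠ u ∧ ¬ G.Adj u v ∧ ∃ w, G.Adj u w ∧ G.Adj w v)

theorem mem_N2 [Fintype V] {u v : V} :
    v ∈ N2 G u ↔ v ≠ u ∧ ¬ G.Adj u v ∧ ∃ w, G.Adj u w ∧ G.Adj w v := by
  unfold N2; simp

theorem card_le_of_inj [Fintype V] {m : ℕ} {x : ℕ → V} (C : LP G m x) (T : Finset ℕ)
    (hT : ∀ i ∈ T, i < m) (S : Finset V) (hS : ∀ i ∈ T, x i ∈ S) : T.card ≤ S.card := by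
  refine card_le_card_of_injOn x hS ?_
  intro i hi j hj h
  exact C.inj i (hT i hi) j (hT j hj) h

theorem card_W [Fintype V] [DecidableRel G.Adj] {m : ℕ} {x : ℕ → V} (C : LP G m x) (u : V)
    (hall : ∀ v, G.Adj u v → ∃ i < m, x i = v) : (W G m x u).card = G.degree u := by
  classical
  rw [← SimpleGraph.card_neighborFinset_eq_degree]
  have : G.neighborFinset u = (W G m x u).image x := by
    ext v
    rw [SimpleGraph.mem_neighborFinset, mem_image]
    constructor
    · intro h
      obtain ⟨i, hi, rfl⟩ := hall v h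
      exact ⟨i, mem_W.2 ⟨hi, h⟩, rfl⟩
    · rintro ⟨i, hi, rfl⟩
      exact (mem_W.1 hi).2
  rw [this, card_image_of_injOn]
  intro i hi j hj h
  exact C.inj i (mem_W.1 hi).1 j (mem_W.1 hj).1 h

/-- Lemma 1: an off vertex with a neighbour on the path -/
theorem LP.lemma1 [Fintype V] {m : ℕ} {x : ℕ → V} (C : LP G m x) {u : V} (hu : Off m x u)
    (hne : (W G m x u).Nonempty) : (W G m x u).card + 1 ≤ (N2 G u).card := by
  classical
  set i0 := (W G m x u).min' hne with hi0
  have h0 : i0 ∈ W G m x u := min'_mem _ _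
  have h0' := mem_W.1 h0
  have hpos : 1 ≤ i0 := by
    rcases Nat.eq_zero_or_pos i0 with h | h
    · rw [h] at h0'
      exact absurd h0'.2 (C.not_first hu)
    · exact h
  have hlast : ∀ i ∈ W G m x u, i + 1 < m := by
    intro i hi
    have hi' := mem_W.1 hi
    by_contra hc
    have : i = m - 1 := by omega
    rw [this] at hi'
    exact C.not_last hu hi'.2
  have hle : ∀ i ∈ W G m x u, i0 ≤ i := fun i hi => min'_le _ _ hi
  have hT : (insert (i0 - 1) ((W G m x u).image (· + 1))).card = (W G m x u).card + 1 := by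
    rw [card_insert_of_notMem, card_shift_up]
    rw [mem_image]
    rintro ⟨j, hj, he⟩
    have := hle j hj
    omega
  rw [← hT]
  refine card_le_of_inj C _ ?_ _ ?_
  · intro i hi
    rw [mem_insert, mem_image] at hi
    rcases hi with rfl | ⟨j, hj, rfl⟩
    · omega
    · exact hlast j hj
  · intro i hi
    rw [mem_insert, mem_image] at hi
    rcases hi with rfl | ⟨j, hj, rfl⟩
    · rw [mem_N2]
      refine ⟨hu _ (by omega), ?_, x i0, h0'.2, ?_⟩
      · intro ha
        have := hle (i0 - 1) (mem_W.2 ⟨by omega, ha⟩)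
        omega
      · have := C.adj (i0 - 1) (by omega)
        rw [Nat.sub_add_cancel hpos] at this
        exact this.symm
    · have hj' := mem_W.1 hj
      have hjl := hlast j hj
      rw [mem_N2]
      exact ⟨hu _ hjl, fun ha => C.not_consec hu hjl hj'.2 ha, x j, hj'.2, C.adj j hjl⟩

/-! ### rotation and reversal -/

theorem LP.rev {m : ℕ} {x : ℕ → V} (C : LP G m x) : LP G m (fun i => x (m - 1 - i)) where
  pos := C.pos
  inj := by
    intro i hi j hj h
    have := C.inj (m - 1 - i) (by omega) (m - 1 - j) (by omega) h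
    omega
  adj := by
    intro i hi
    have := C.adj (m - 1 - (i + 1)) (by omega)
    rw [show m - 1 - (i + 1) + 1 = m - 1 - i by omega] at this
    exact this.symm
  max := C.max

theorem LP.rot {m : ℕ} {x : ℕ → V} (C : LP G m x) {i : ℕ} (hi : i < m) (h0 : 1 ≤ i)
    (a : G.Adj (x 0) (x i)) : LP G m (fun j => if j < i then x (i - 1 - j) else x j) where
  pos := C.pos
  inj := by
    intro j hj j' hj' h
    try dsimp only at h
    split_ifs at h with h1 h2 h2
    · have := C.inj _ (by omega) _ (by omega) h; omega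
    · have := C.inj _ (by omega) _ (by omega) h; omega
    · have := C.inj _ (by omega) _ (by omega) h; omega
    · exact C.inj _ (by omega) _ (by omega) h
  adj := by
    intro j hj
    try dsimp only
    by_cases h1 : j + 1 < i
    · rw [if_pos (by omega), if_pos h1]
      have := C.adj (i - 1 - (j + 1)) (by omega)
      rw [show i - 1 - (j + 1) + 1 = i - 1 - j by omega] at this
      exact this.symm
    · by_cases h2 : j < i
      · rw [if_pos h2, if_neg h1]
        have e1 : i - 1 - j = 0 := by omega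
        have e2 : j + 1 = i := by omega
        rw [e1, e2]; exact a
      · rw [if_neg h2, if_neg h1]
        exact C.adj j hj
  max := C.max

theorem LP.ofList {m : ℕ} (hm : 0 < m) (hmax : ∀ l : List V, IsP G l → l.length ≤ m) {l : List V}
    (hl : IsP G l) (hlen : l.length = m) (u : V) : LP G m (fun i => l.getD i u) where
  pos := hm
  inj := by
    intro i hi j hj h
    try dsimp only at h
    rw [List.getD_eq_getElem _ _ (by omega), List.getD_eq_getElem _ _ (by omega)] at h
    exact (List.Nodup.getElem_inj_iff hl.1).1 h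
  adj := by
    intro i hi
    try dsimp only
    rw [List.getD_eq_getElem _ _ (by omega), List.getD_eq_getElem _ _ (by omega)]
    exact List.isChain_iff_getElem.1 hl.2 i (by omega)
  max := hmax

/-- `v` is at distance at least three from `h` -/
def Far (G : SimpleGraph V) (h v : V) : Prop := v ≠ h ∧ ¬ G.Adj h v ∧ ∀ w, G.Adj h w → ¬ G.Adj w v

/-- the same vertices -/
def Same (m : ℕ) (x y : ℕ → V) : Prop := ∀ v, (∃ i < m, x i = v) ↔ ∃ i < m, y i = v

theorem Same.off {m : ℕ} {x y : ℕ → V} (S : Same m x y) {v : V} (h : Off m x v) : Off m y v := by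
  intro i hi he
  obtain ⟨j, hj, hj'⟩ := (S v).2 ⟨i, hi, he⟩
  exact h j hj hj'

theorem Same.symm {m : ℕ} {x y : ℕ → V} (S : Same m x y) : Same m y x := fun v => (S v).symm

theorem Same.trans {m : ℕ} {x y z : ℕ → V} (S : Same m x y) (T : Same m y z) : Same m x z :=
  fun v => (S v).trans (T v)

theorem same_rev {m : ℕ} (x : ℕ → V) : Same m x (fun i => x (m - 1 - i)) := by
  intro v
  constructor
  · rintro ⟨i, hi, rfl⟩
    refine ⟨m - 1 - i, by omega, ?_⟩
    simp only
    congr 1; omega
  · rintro ⟨i, hi, rfl⟩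
    exact ⟨m - 1 - i, by omega, rfl⟩

theorem same_rot {m : ℕ} (x : ℕ → V) {i : ℕ} (hi : i < m) :
    Same m x (fun j => if j < i then x (i - 1 - j) else x j) := by
  intro v
  constructor
  · rintro ⟨j, hj, rfl⟩
    by_cases h : j < i
    · refine ⟨i - 1 - j, by omega, ?_⟩
      simp only
      rw [if_pos (by omega)]
      congr 1; omega
    · refine ⟨j, hj, ?_⟩
      simp only
      rw [if_neg h]
  · rintro ⟨j, hj, rfl⟩
    simp only
    by_cases h : j < i
    · rw [if_pos h]; exact ⟨i - 1 - j, by omega, rfl⟩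
    · rw [if_neg h]; exact ⟨j, hj, rfl⟩

/-- all neighbours of the first vertex are on the path -/
theorem LP.first_on {m : ℕ} {x : ℕ → V} (C : LP G m x) {v : V} (a : G.Adj (x 0) v) :
    ∃ i < m, x i = v := by
  by_contra hc
  push Not at hc
  exact C.not_first (h := v) hc a.symm

theorem LP.last_on {m : ℕ} {x : ℕ → V} (C : LP G m x) {v : V} (a : G.Adj (x (m - 1)) v) :
    ∃ i < m, x i = v := by
  by_contra hc
  push Not at hc
  exact C.not_last (h := v) hc a.symm

/-- Lemma 2: the rotation trick -/
theorem LP.far_first [Fintype V] [DecidableRel G.Adj] {m k : ℕ} {x : ℕ → V} (C : LP G m x)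
    {h h' : V} (hh : Off m x h) (hh' : Off m x h') (b : G.Adj h' h)
    (hne : (W G m x h).Nonempty) (hN : (N2 G h).card ≤ k) (hd : k ≤ G.degree (x 0)) :
    ∃ y : ℕ → V, LP G m y ∧ Same m x y ∧ y (m - 1) = x (m - 1) ∧ Far G h (y 0) := by
  classical
  have hA : (W G m x (x 0)).card = G.degree (x 0) := card_W C _ (fun v a => C.first_on a)
  have h1 : ∀ i ∈ W G m x (x 0), 1 ≤ i := by
    intro i hi
    rcases Nat.eq_zero_or_pos i with h0 | h0
    · subst h0
      exact absurd (mem_W.1 hi).2 (G.irrefl)
    · exact h0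
  by_contra hc
  push Not at hc
  have hX : ∀ i ∈ W G m x (x 0), x (i - 1) ∈ N2 G h := by
    intro i hi
    have hi' := mem_W.1 hi
    have hi1 := h1 i hi
    have hna : ¬ G.Adj h (x (i - 1)) := by
      intro ha
      refine C.not_rot hh (i := i - 1) (by omega) ha ?_
      rw [Nat.sub_add_cancel hi1]; exact hi'.2
    have := hc _ (C.rot hi'.1 hi1 hi'.2) (same_rot x hi'.1) (by
      try dsimp only
      rw [if_neg (by omega)])
    simp only [show (0 : ℕ) < i by omega, if_true, Nat.sub_zero] at this
    rw [mem_N2]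
    refine ⟨fun he => hh (i - 1) (by omega) he, hna, ?_⟩
    by_contra hcc
    push Not at hcc
    exact this ⟨fun he => hh (i - 1) (by omega) he, hna, hcc⟩
  have hWl : ∀ j ∈ W G m x h, j + 1 < m := by
    intro j hj
    have hj' := mem_W.1 hj
    by_contra hcc
    have : j = m - 1 := by omega
    rw [this] at hj'
    exact C.not_last hh hj'.2
  have hY : ∀ j ∈ W G m x h, x (j + 1) ∈ N2 G h := by
    intro j hj
    have hj' := mem_W.1 hj
    have hjl := hWl j hj
    rw [mem_N2]
    exact ⟨fun he => hh _ hjl he, fun ha => C.not_consec hh hjl hj'.2 ha, x j, hj'.2,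
      C.adj j hjl⟩
  have hdis : Disjoint ((W G m x (x 0)).image (· - 1)) ((W G m x h).image (· + 1)) := by
    rw [disjoint_left]
    intro i hi hi'
    rw [mem_image] at hi hi'
    obtain ⟨s, hs, hs'⟩ := hi
    obtain ⟨j, hj, rfl⟩ := hi'
    have hs1 := h1 s hs
    have hse : s = j + 2 := by omega
    subst hse
    exact C.not_first_succ2 hh hh' b (mem_W.1 hs).1 (mem_W.1 hj).2 (mem_W.1 hs).2
  have hcard := card_le_of_inj C ((W G m x (x 0)).image (· - 1) ∪ (W G m x h).image (· + 1))
    (by
      intro i hi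
      rw [mem_union, mem_image, mem_image] at hi
      rcases hi with ⟨s, hs, rfl⟩ | ⟨j, hj, rfl⟩
      · have := (mem_W.1 hs).1; omega
      · exact hWl j hj) (N2 G h) (by
      intro i hi
      rw [mem_union, mem_image, mem_image] at hi
      rcases hi with ⟨s, hs, rfl⟩ | ⟨j, hj, rfl⟩
      · exact hX s hs
      · exact hY j hj)
  rw [card_union_of_disjoint hdis, card_shift_up, card_shift_down _ h1, hA] at hcard
  have := card_pos.2 hne
  omega

end Pool.Agent.MP5ce328
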