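import Pool.Agent.Lib.MP_5ce328_co.Exist

namespace Pool.Agent.MP5ce328

open Finset

variable {V : Type*} {G : SimpleGraph V}

theorem cross (hG : G.Connected) (S : V → Prop) {u z : V} (hu : S u) (hz : ¬ S z) :
    ∃ a b, S a ∧ ¬ S b ∧ G.Adj a b := by
  obtain ⟨c⟩ := hG.preconnected u z
  induction c with
  | nil => exact absurd hu hz
  | @cons u v z b c ih =>
    by_cases hv : S v
    · exact ih hv hz
    · exact ⟨u, v, hu, hv, b⟩

/-- the parity lemma for a part of the graph which is attached at one vertex -/
theorem parity2 [Fintype V] (hG : G.Connected) {k : ℕ} (hE : ∀ v, (EV G v).card ≤ k)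
    (S : V → Prop) {v0 g : V} (hg : S g) (a : G.Adj g v0)
    (hcl : ∀ u v, S u → ¬ S v → G.Adj u v → v = v0) (T : Finset V)
    (hT : ∀ z ∈ T, ¬ S z ∧ z ≠ v0) : T.card ≤ 2 * k := by
  classical
  have key : ∀ (u z : V) (c : G.Walk u z), ¬ S u → S z → G.dist u v0 + 1 ≤ c.length := by
    intro u z c
    induction c with
    | nil => intro h1 h2; exact absurd h2 h1
    | @cons u v z b c ih =>
      intro h1 h2
      rw [SimpleGraph.Walk.length_cons]
      by_cases hv : S v
      · have := hcl v u hv h1 b.symm
        subst this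
        rw [SimpleGraph.dist_self]
        omega
      · have h3 := ih hv h2
        have h4 := hG.dist_triangle (u := u) (v := v) (w := v0)
        have h5 : G.dist u v = 1 := SimpleGraph.dist_eq_one_iff_adj.2 b
        omega
  have hsub : T ⊆ EV G g ∪ EV G v0 := by
    intro z hz
    obtain ⟨h1, h2⟩ := hT z hz
    obtain ⟨c, hc⟩ := hG.exists_walk_length_eq_dist z g
    have h3 := key _ _ c h1 hg
    have h4 := hG.dist_triangle (u := z) (v := v0) (w := g)
    have h5 : G.dist v0 g = 1 := SimpleGraph.dist_eq_one_iff_adj.2 a.symm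
    rw [mem_union, mem_EV, mem_EV]
    rcases Nat.even_or_odd (G.dist z v0) with h6 | h6
    · right
      exact ⟨h2, by rw [SimpleGraph.dist_comm]; exact h6⟩
    · left
      refine ⟨fun he => h1 (he ▸ hg), ?_⟩
      rw [SimpleGraph.dist_comm, show G.dist z g = G.dist z v0 + 1 by omega]
      exact h6.add_one
  have h1 := card_le_card hsub
  have h2 := card_union_le (EV G g) (EV G v0)
  have h3 := hE g
  have h4 := hE v0
  omega

theorem off_card [Fintype V] {m : ℕ} {x : ℕ → V} (C : LP G m x) (T : Finset V)
    (hT : ∀ v ∈ T, Off m x v) : m + T.card ≤ Fintype.card V := by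
  classical
  have h1 : ((range m).image x).card = m := by
    rw [card_image_of_injOn, card_range]
    intro i hi j hj h
    simp only [coe_range, Set.mem_Iio] at hi hj
    exact C.inj i hi j hj h
  have h2 : Disjoint ((range m).image x) T := by
    rw [disjoint_left]
    intro v hv hv'
    rw [mem_image] at hv
    obtain ⟨i, hi, rfl⟩ := hv
    exact hT _ hv' i (mem_range.1 hi) rfl
  have h3 := card_le_univ ((range m).image x ∪ T)
  rw [card_union_of_disjoint h2, h1] at h3
  exact h3

/-- a long path in a part of the graph which is attached at `w0`, ending in `w0` -/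
theorem greedy [Fintype V] [DecidableRel G.Adj] {k : ℕ} (S : V → Prop) {w0 g : V}
    (hw : ¬ S w0) (hg : S g) (a : G.Adj g w0) (hcl : ∀ u v, S u → G.Adj u v → S v ∨ v = w0)
    (hd : ∀ v, S v → k ≤ G.degree v) :
    ∃ e : List V, IsP G e ∧ (∀ v ∈ e, S v ∨ v = w0) ∧ k + 1 ≤ e.length ∧
      (∀ d, e.getD (e.length - 1) d = w0) := by
  classical
  let Q : ℕ → Prop := fun n => ∃ (z : V) (l : List V), IsP G (z :: l) ∧ S z ∧
    (∀ v ∈ z :: l, S v ∨ v = w0) ∧ (z :: l).getLast (by simp) = w0 ∧ l.length = n
  have h1 : Q 1 := ⟨g, [w0], ⟨by simp [a.ne], by simp [a]⟩, hg, by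
    intro v hv
    simp only [List.mem_cons, List.not_mem_nil, or_false] at hv
    rcases hv with rfl | rfl
    · exact Or.inl hg
    · exact Or.inr rfl, by simp, by simp⟩
  have hbd : ∀ n, Q n → n + 1 ≤ Fintype.card V := by
    rintro n ⟨z, l, hl, _, _, _, rfl⟩
    have := hl.1.length_le_card
    simpa using this
  have hcard := hbd 1 h1
  set n := Nat.findGreatest Q (Fintype.card V) with hn
  have h2 : Q n := Nat.findGreatest_spec (P := Q) (m := 1) (by omega) h1
  have h3 : ∀ j, Q j → j ≤ n := fun j hj => Nat.le_findGreatest (by have := hbd j hj; omega) hj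
  obtain ⟨z, l, hl, hz, hS, hlast, hlen⟩ := h2
  have hall : ∀ v, G.Adj z v → v ∈ z :: l := by
    intro v hv
    by_contra hc
    have hv' := hcl z v hz hv
    have hvw : v ≠ w0 := by
      intro he
      subst he
      apply hc
      rw [← hlast]
      exact List.getLast_mem _
    have hSv : S v := hv'.resolve_right hvw
    have := h3 (n + 1) ⟨v, z :: l, ⟨List.nodup_cons.2 ⟨hc, hl.1⟩, by
      rw [List.isChain_cons_cons]; exact ⟨hv.symm, hl.2⟩⟩, hSv, by
      intro u hu
      rw [List.mem_cons] at hu
      rcases hu with rfl | hu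
      · exact Or.inl hSv
      · exact hS u hu, by rw [List.getLast_cons (by simp)]; exact hlast, by
      rw [List.length_cons, hlen]⟩
    omega
  refine ⟨z :: l, hl, hS, ?_, ?_⟩
  · have h4 : insert z (G.neighborFinset z) ⊆ (z :: l).toFinset := by
      intro v hv
      rw [mem_insert, SimpleGraph.mem_neighborFinset] at hv
      rw [List.mem_toFinset]
      rcases hv with rfl | hv
      · exact List.mem_cons_self
      · exact hall v hv
    have h5 := card_le_card h4
    rw [card_insert_of_notMem (by rw [SimpleGraph.mem_neighborFinset]; exact G.irrefl),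
      SimpleGraph.card_neighborFinset_eq_degree, List.toFinset_card_of_nodup hl.1] at h5
    have := hd z hz
    omega
  · intro d
    rw [← hlast, List.getLast_eq_getElem, List.getD_eq_getElem _ _ (by simp)]

/-- the new end is not the exceptional vertex -/
theorem LP.first_ne {m : ℕ} {x : ℕ → V} (C : LP G m x) {i : ℕ} (hi : i < m) (h2 : 2 ≤ i)
    (a : G.Adj (x 0) (x i)) : ∃ y : ℕ → V, LP G m y ∧ Same m x y ∧ y (m - 1) = x (m - 1) ∧
      y 0 ≠ x 0 := by
  refine ⟨_, C.rot hi (by omega) a, same_rot x hi, ?_, ?_⟩
  · try dsimp only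
    rw [if_neg (by omega)]
  · try dsimp only
    rw [if_pos (by omega)]
    intro he
    have := C.inj _ (by omega) _ (by omega) he
    omega

/-- a pendant end -/
theorem LP.pendant [Fintype V] [DecidableRel G.Adj] {m k : ℕ} {x : ℕ → V} (C : LP G m x)
    (hG : G.Connected) {h h' : V} (hh : Off m x h) (hh' : Off m x h') (b : G.Adj h' h)
    (hne : (W G m x h).Nonempty) (hE : ∀ v, (EV G v).card ≤ k) (hdl : k ≤ G.degree (x (m - 1)))
    (hdh : k ≤ G.degree h) (hp : ∀ i < m, G.Adj (x 0) (x i) → i = 1) : False := by
  classical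
  have hm := C.pos
  have hWl : ∀ j ∈ W G m x h, j + 1 < m := by
    intro j hj
    have hj' := mem_W.1 hj
    by_contra hcc
    have : j = m - 1 := by omega
    rw [this] at hj'
    exact C.not_last hh hj'.2
  have hW2 : ∀ j ∈ W G m x h, 2 ≤ j := by
    intro j hj
    have hj' := mem_W.1 hj
    have hjl := hWl j hj
    by_contra hcc
    rcases Nat.eq_zero_or_pos j with h0 | h0
    · subst h0
      exact C.not_first hh hj'.2
    · have h1 : j = 1 := by omega
      subst h1
      have := C.count [h', h] (isP_two b) (off_two hh hh') [(m, m + 1), (1, m - 1)]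
        (by simp; omega) (by simp [Dis]; omega)
        (by simp only [List.isChain_cons_cons, List.isChain_singleton, and_true]
            rw [ext2b, ext_lt (by omega)]; exact hj'.2)
      simp [len] at this; omega
  obtain ⟨p, hpW⟩ := hne
  have hp1 := hWl p hpW
  have hp2 := hW2 p hpW
  have hD : (W G m x (x (m - 1))).card = G.degree (x (m - 1)) := card_W C _ (fun v a => C.last_on a)
  have hk : (W G m x (x (m - 1))).card + ((W G m x h).image (· - 1)).card ≤ (Icc 1 (m - 2)).card := by
    rw [← card_union_of_disjoint]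
    · refine card_le_card ?_
      intro i hi
      rw [mem_union, mem_image] at hi
      rw [mem_Icc]
      rcases hi with hi | ⟨j, hj, rfl⟩
      · have hi' := mem_W.1 hi
        refine ⟨?_, ?_⟩
        · by_contra hc
          have h0 : i = 0 := by omega
          rw [h0] at hi'
          have := hp (m - 1) (by omega) hi'.2.symm
          omega
        · by_contra hc
          have h0 : i = m - 1 := by omega
          rw [h0] at hi'
          exact G.irrefl hi'.2
      · have := hW2 j hj
        have := hWl j hj
        omega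
    · rw [disjoint_left]
      intro i hi hi'
      rw [mem_image] at hi'
      obtain ⟨j, hj, rfl⟩ := hi'
      have hj2 := hW2 j hj
      have hj' := mem_W.1 hj
      refine C.not_last_pred hh (w := j - 1) (by omega) ?_ (mem_W.1 hi).2
      rw [Nat.sub_add_cancel (by omega)]; exact hj'.2
  rw [hD, card_shift_down _ (fun i hi => by have := hW2 i hi; omega), Nat.card_Icc] at hk
  have h1 := card_NO C hh
  have h2 := off_card C (NO G m x h) (fun v hv => (mem_NO.1 hv).2)
  have h3 := parity2 hG hE (fun v => v = x 0) (v0 := x 1) (g := x 0) rfl (C.adj 0 (by omega))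
    (by
      intro u v hu hv ha
      subst hu
      obtain ⟨i, hi, rfl⟩ := C.first_on ha
      rw [hp i hi ha]) (univ \ {x 0, x 1}) (by
      intro z hz
      simp only [mem_sdiff, mem_univ, true_and, mem_insert, mem_singleton, not_or] at hz
      exact hz)
  have h4 : ({x 0, x 1} : Finset V).card ≤ 2 := card_le_two
  have h5 := card_sdiff_of_subset (subset_univ ({x 0, x 1} : Finset V))
  rw [card_univ] at h5
  omega

end Pool.Agent.MP5ce328
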