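import Pool.Agent.Lib.MP_5ce328_co.Main

namespace Pool.Agent.MP5ce328

open Finset

variable {V : Type*} {G : SimpleGraph V}

/-- existence of a longest path, as a function -/
theorem exists_LP [Fintype V] [Nonempty V] (G : SimpleGraph V) :
    ∃ (m : ℕ) (x : ℕ → V), LP G m x ∧ m ≤ Fintype.card V := by
  classical
  have hb : ∀ l : List V, IsP G l → l.length ≤ Fintype.card V := fun l hl => hl.1.length_le_card
  obtain ⟨v0⟩ := ‹Nonempty V›
  let Q : ℕ → Prop := fun m => ∃ l : List V, IsP G l ∧ l.length = m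
  have h1 : ∃ m, Q m := ⟨1, [v0], isP_one v0, rfl⟩
  set m := Nat.findGreatest Q (Fintype.card V) with hm
  have h2 : Q m := Nat.findGreatest_spec (P := Q) (m := 1)
    (Fintype.card_pos_iff.2 ⟨v0⟩) ⟨[v0], isP_one v0, rfl⟩
  have h3 : 1 ≤ m := Nat.le_findGreatest (Fintype.card_pos_iff.2 ⟨v0⟩) ⟨[v0], isP_one v0, rfl⟩
  have h4 : ∀ l : List V, IsP G l → l.length ≤ m := fun l hl =>
    Nat.le_findGreatest (hb l hl) ⟨l, hl, rfl⟩
  obtain ⟨l, hl, hlen⟩ := h2
  exact ⟨m, fun i => l.getD i v0, LP.ofList h3 h4 hl hlen v0, by rw [← hlen]; exact hb l hl⟩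

theorem walk_of_chain : ∀ (l : List V) (a : V), (a :: l).IsChain G.Adj →
    ∃ (b : V) (w : G.Walk a b), w.support = a :: l := by
  intro l
  induction l with
  | nil => intro a _; exact ⟨a, SimpleGraph.Walk.nil, rfl⟩
  | cons b l ih =>
    intro a hc
    rw [List.isChain_cons_cons] at hc
    obtain ⟨c, w, hw⟩ := ih b hc.2
    exact ⟨c, SimpleGraph.Walk.cons hc.1 w, by rw [SimpleGraph.Walk.support_cons, hw]⟩

/-- a longest path with as many vertices as the graph gives a Hamiltonian walk -/
theorem LP.hamiltonian [Fintype V] [DecidableEq V] {m : ℕ} {x : ℕ → V} (C : LP G m x)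
    (hm : m = Fintype.card V) : ∃ (a b : V) (w : G.Walk a b), w.IsHamiltonian := by
  have hl : IsP G ((cat [(0, m - 1)]).map (ext x m [])) := by
    refine C.build [] ⟨by simp, by simp⟩ (by simp) _ ?_ (by simp) (by simp)
    have := C.pos
    simp; omega
  have hlen : ((cat [(0, m - 1)]).map (ext x m [])).length = m := by
    have := C.pos
    rw [List.length_map, length_cat]
    simp [len]; omega
  set l := (cat [(0, m - 1)]).map (ext x m []) with hldef
  have hne : l ≠ [] := by
    intro h
    rw [h] at hlen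
    have := C.pos
    simp at hlen
    omega
  obtain ⟨a, l', hl'⟩ := List.exists_cons_of_ne_nil hne
  obtain ⟨b, w, hw⟩ := walk_of_chain (G := G) l' a (by rw [← hl']; exact hl.2)
  refine ⟨_, _, w, ?_⟩
  intro v
  rw [hw, ← hl']
  refine List.count_eq_one_of_mem hl.1 ?_
  have h1 : l.toFinset = univ := by
    rw [← card_eq_iff_eq_univ, List.toFinset_card_of_nodup hl.1, hlen, hm]
  rw [← List.mem_toFinset, h1]
  exact mem_univ v

end Pool.Agent.MP5ce328
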