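import Pool.Agent.Lib.MP_5ce328_co.Route

/-!
# Long paths between two vertices (helper65)

`long65`: a finite set `D` of vertices, `a ≠ b` in `D`, such that every nonempty subset of
`D` without `a` and `b` has two neighbours in `D` outside itself, and every vertex of `D` other
than `a`, `b` and one vertex `c` has `d` neighbours in `D`: then `a` and `b` are joined by a path
in `D` with at least `d` vertices.

`end65`: a minimal part of a set `H` attached at one vertex satisfies the first condition for all
pairs.
-/

namespace Pool.Agent.MP5ce328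

open Finset

variable {V : Type*} {G : SimpleGraph V}

/-- `l` is a path from `a` to `b` inside `D` -/
def Pth (G : SimpleGraph V) (D : Finset V) (a b : V) (l : List V) : Prop :=
  IsP G l ∧ (∀ v ∈ l, v ∈ D) ∧ l.head? = some a ∧ l.getLast? = some b

theorem Pth.ne {D : Finset V} {a b : V} {l : List V} (h : Pth G D a b l) : l ≠ [] := by
  rintro rfl
  simpa using h.2.2.1

theorem Pth.mono {D D' : Finset V} {a b : V} {l : List V} (h : Pth G D a b l) (hD : D ⊆ D') :
    Pth G D' a b l :=
  ⟨h.1, fun v hv => hD (h.2.1 v hv), h.2.2.1, h.2.2.2⟩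

theorem Pth.fst {D : Finset V} {a b : V} {l : List V} (h : Pth G D a b l) : a ∈ l :=
  List.mem_of_mem_head? h.2.2.1

theorem Pth.lst {D : Finset V} {a b : V} {l : List V} (h : Pth G D a b l) : b ∈ l :=
  List.mem_of_mem_getLast? h.2.2.2

theorem Pth.len {D : Finset V} {a b : V} {l : List V} (h : Pth G D a b l) (hab : a ≠ b) :
    2 ≤ l.length := by
  match l, h with
  | [], h => exact absurd rfl h.ne
  | [u], h =>
    have h1 : u = a := by simpa using h.2.2.1
    have h2 : u = b := by simpa using h.2.2.2
    exact absurd (h1.symm.trans h2) hab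
  | u :: w :: l, _ => simp

theorem pth_single {D : Finset V} {a : V} (ha : a ∈ D) : Pth G D a a [a] :=
  ⟨⟨by simp, by simp⟩, by simpa using ha, by simp, by simp⟩

theorem Pth.cons {D D' : Finset V} {a a' b : V} {l : List V} (h : Pth G D a' b l)
    (b1 : G.Adj a a') (ha : a ∉ l) (haD : a ∈ D') (hD : D ⊆ D') : Pth G D' a b (a :: l) := by
  obtain ⟨⟨h1, h2⟩, h3, h4, h5⟩ := h
  match l, h4 with
  | u :: l, h4 =>
    have h4' : u = a' := by simpa using h4
    subst h4'
    refine ⟨⟨List.nodup_cons.2 ⟨ha, h1⟩, List.isChain_cons_cons.2 ⟨b1, h2⟩⟩, ?_, by simp, ?_⟩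
    · intro v hv
      rcases List.mem_cons.1 hv with rfl | hv
      · exact haD
      · exact hD (h3 v hv)
    · rw [List.getLast?_cons_cons]
      exact h5

theorem Pth.join [DecidableEq V] {D1 D2 : Finset V} {a v b : V} {l1 l2 : List V}
    (h : Pth G D1 a v l1) (h' : Pth G D2 v b l2) (hd : ∀ u ∈ D1, u ∈ D2 → u = v) :
    Pth G (D1 ∪ D2) a b (l1 ++ l2.tail) := by
  obtain ⟨⟨h1, h2⟩, h3, h4, h5⟩ := h
  obtain ⟨⟨k1, k2⟩, k3, k4, k5⟩ := h'
  match l2, k4 with
  | u :: l, k4 =>
    have k4' : u = v := by simpa using k4
    subst k4'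
    rw [List.tail_cons]
    have hl1 : l1 ≠ [] := by
      rintro rfl
      simp at h4
    refine ⟨⟨?_, ?_⟩, ?_, ?_, ?_⟩
    · rw [List.nodup_append]
      refine ⟨h1, (List.nodup_cons.1 k1).2, ?_⟩
      intro p hp q hq hpq
      subst hpq
      have := hd p (h3 p hp) (k3 p (List.mem_cons_of_mem _ hq))
      subst this
      exact (List.nodup_cons.1 k1).1 hq
    · rw [List.isChain_append]
      refine ⟨h2, k2.tail, ?_⟩
      intro p hp q hq
      rw [h5] at hp
      have hp' : u = p := by simpa using hp
      subst hp'
      match l, hq with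
      | w :: l, hq =>
        have hq' : w = q := by simpa using hq
        subst hq'
        exact (List.isChain_cons_cons.1 k2).1
    · intro p hp
      rcases List.mem_append.1 hp with hp | hp
      · exact mem_union_left _ (h3 p hp)
      · exact mem_union_right _ (k3 p (List.mem_cons_of_mem _ hp))
    · rw [List.head?_append_of_ne_nil _ hl1]
      exact h4
    · match l, k5 with
      | [], k5 =>
        have : u = b := by simpa using k5
        rw [List.append_nil, h5, this]
      | w :: l, k5 =>
        rw [List.getLast?_append_of_ne_nil _ (by simp)]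
        rw [List.getLast?_cons_cons] at k5
        exact k5

theorem Pth.step {D : Finset V} {a v w : V} {l : List V} (h : Pth G D a v l)
    (b1 : G.Adj v w) (hw : w ∈ D) : ∃ l', Pth G D a w l' := by
  classical
  by_cases hwl : w ∈ l
  · obtain ⟨l1, l2, rfl⟩ := List.append_of_mem hwl
    obtain ⟨⟨h1, h2⟩, h3, h4, h5⟩ := h
    refine ⟨l1 ++ [w], ⟨?_, ?_⟩, ?_, ?_, by simp⟩
    · rw [List.nodup_append] at h1 ⊢
      refine ⟨h1.1, by simp, ?_⟩
      intro p hp q hq
      exact h1.2.2 p hp q (by rw [List.mem_singleton] at hq; simp [hq])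
    · rw [List.isChain_append] at h2 ⊢
      refine ⟨h2.1, by simp, ?_⟩
      intro p hp q hq
      exact h2.2.2 p hp q (by simpa using hq)
    · intro p hp
      refine h3 p ?_
      rcases List.mem_append.1 hp with hp | hp
      · exact List.mem_append_left _ hp
      · rw [List.mem_singleton] at hp
        exact List.mem_append_right _ (by simp [hp])
    · match l1, h4 with
      | [], h4 => simpa using h4
      | u :: l1, h4 => simpa using h4
  · have hne : v ≠ w := b1.ne
    have k : Pth G {v, w} v w [v, w] := by
      refine ⟨⟨by simp [hne], by simp [b1]⟩, ?_, by simp, by simp⟩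
      intro p hp
      simpa using hp
    have h' : Pth G l.toFinset a v l := ⟨h.1, fun p hp => List.mem_toFinset.2 hp, h.2.2⟩
    have j := h'.join k (by
      intro u hu hu'
      rw [List.mem_toFinset] at hu
      rw [mem_insert, mem_singleton] at hu'
      rcases hu' with rfl | rfl
      · rfl
      · exact absurd hu hwl)
    refine ⟨_, j.mono ?_⟩
    intro p hp
    rw [mem_union, List.mem_toFinset, mem_insert, mem_singleton] at hp
    rcases hp with hp | rfl | rfl
    · exact h.2.1 p hp
    · exact h.2.1 _ h.lst
    · exact hw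

/-- a property which passes to neighbours in `D` passes along a path in `D` -/
theorem Pth.closed {D : Finset V} {Z : V → Prop}
    (hZ : ∀ u ∈ D, ∀ w ∈ D, Z u → G.Adj u w → Z w) {b : V} :
    ∀ {l : List V} {a : V}, Pth G D a b l → Z a → Z b := by
  intro l
  induction l with
  | nil => intro a h; exact absurd rfl h.ne
  | cons u l ih =>
    intro a h ha
    obtain ⟨⟨h1, h2⟩, h3, h4, h5⟩ := h
    have h4' : u = a := by simpa using h4
    subst h4'
    rcases l with _ | ⟨w, l⟩
    · have : u = b := by simpa using h5
      rwa [← this]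
    · rw [List.isChain_cons_cons] at h2
      refine ih (a := w) ⟨⟨(List.nodup_cons.1 h1).2, h2.2⟩, ?_, by simp, ?_⟩ ?_
      · intro v hv
        exact h3 v (List.mem_cons_of_mem _ hv)
      · rw [List.getLast?_cons_cons] at h5
        exact h5
      · exact hZ u (h3 u (by simp)) w (h3 w (by simp)) ha h2.1

/-- the part of `D` reached from `a` inside `D` -/
theorem exists_part [DecidableEq V] (D : Finset V) {a : V} (ha : a ∈ D) :
    ∃ K ⊆ D, a ∈ K ∧ (∀ v ∈ K, ∃ l, Pth G K a v l) ∧
      ∀ u ∈ K, ∀ w ∈ D, G.Adj u w → w ∈ K := by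
  classical
  let K := D.filter (fun v => ∃ l, Pth G D a v l)
  have hK : ∀ v, v ∈ K ↔ v ∈ D ∧ ∃ l, Pth G D a v l := fun v => by simp [K]
  have hcl : ∀ u ∈ K, ∀ w ∈ D, G.Adj u w → w ∈ K := by
    intro u hu w hw b
    obtain ⟨l, hl⟩ := ((hK u).1 hu).2
    exact (hK w).2 ⟨hw, hl.step b hw⟩
  have haK : a ∈ K := (hK a).2 ⟨ha, _, pth_single ha⟩
  refine ⟨K, filter_subset _ _, haK, ?_, hcl⟩
  intro v hv
  obtain ⟨hvD, l, hl⟩ := (hK v).1 hv
  have := hl.closed (Z := fun w => w ∈ K ∧ ∃ l, Pth G K a w l) (by
    intro u hu w hw hZ b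
    have hwK := hcl u hZ.1 w hw b
    obtain ⟨l, hl⟩ := hZ.2
    exact ⟨hwK, hl.step b hwK⟩) ⟨haK, _, pth_single haK⟩
  exact this.2

theorem long65 [DecidableEq V] [DecidableRel G.Adj] (n : ℕ) : ∀ (D : Finset V) (a b c : V) (d : ℕ),
    D.card ≤ n → a ∈ D → b ∈ D → a ≠ b →
    (∀ Y ⊆ D, Y.Nonempty → a ∉ Y → b ∉ Y → ∃ u ∈ D, ∃ u' ∈ D, u ≠ u' ∧ u ∉ Y ∧ u' ∉ Y ∧
      (∃ y ∈ Y, G.Adj y u) ∧ ∃ y ∈ Y, G.Adj y u') →
    (∀ v ∈ D, v ≠ a → v ≠ b → v ≠ c → d ≤ (D.filter (G.Adj v)).card) →
    (∃ v ∈ D, v ≠ a ∧ v ≠ b ∧ v ≠ c) →
    ∃ l, Pth G D a b l ∧ d ≤ l.length := by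
  induction n with
  | zero =>
    intro D a b c d hn ha
    have := card_pos.2 ⟨a, ha⟩
    omega
  | succ n ih =>
    intro D a b c d hn ha hb hab h1 h2 ⟨v0, hv0, hv0a, hv0b, hv0c⟩
    -- the component of `v0` in `D` without `a`, `b`
    obtain ⟨K, hKD, hvK, hKp, hKc⟩ := exists_part (G := G) ((D.erase a).erase b) (a := v0)
      (mem_erase.2 ⟨hv0b, mem_erase.2 ⟨hv0a, hv0⟩⟩)
    have hK : ∀ v ∈ K, v ∈ D ∧ v ≠ a ∧ v ≠ b := by
      intro v hv
      have := hKD hv
      rw [mem_erase, mem_erase] at this
      exact ⟨this.2.2, this.2.1, this.1⟩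
    have hKn : ∀ v ∈ K, ∀ w ∈ D, G.Adj v w → w ∈ K ∨ w = a ∨ w = b := by
      intro v hv w hw e
      by_cases hwa : w = a
      · exact Or.inr (Or.inl hwa)
      by_cases hwb : w = b
      · exact Or.inr (Or.inr hwb)
      exact Or.inl (hKc v hv w (mem_erase.2 ⟨hwb, mem_erase.2 ⟨hwa, hw⟩⟩) e)
    have hKab : (∃ y ∈ K, G.Adj y a) ∧ ∃ y ∈ K, G.Adj y b := by
      obtain ⟨u, hu, u', hu', hne, huK, hu'K, ⟨y, hy, e⟩, y', hy', e'⟩ := h1 K
        (fun v hv => (hK v hv).1) ⟨v0, hvK⟩ (fun h => (hK a h).2.1 rfl) (fun h => (hK b h).2.2 rfl)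
      rcases hKn y hy u hu e with h | h | h
      · exact absurd h huK
      · rcases hKn y' hy' u' hu' e' with h' | h' | h'
        · exact absurd h' hu'K
        · exact absurd (h.trans h'.symm) hne
        · subst h; subst h'; exact ⟨⟨y, hy, e⟩, y', hy', e'⟩
      · rcases hKn y' hy' u' hu' e' with h' | h' | h'
        · exact absurd h' hu'K
        · subst h; subst h'; exact ⟨⟨y', hy', e'⟩, y, hy, e⟩
        · exact absurd (h.trans h'.symm) hne
    obtain ⟨⟨ya, hya, ea⟩, yb, hyb, eb⟩ := hKab
    -- any closed part of `Q = K + b` which meets `K` is everything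
    have hconn : ∀ Z : V → Prop, (∃ s ∈ K, Z s) →
        (∀ u ∈ insert b K, ∀ w ∈ insert b K, Z u → G.Adj u w → Z w) →
        ∀ u ∈ insert b K, Z u := by
      intro Z ⟨s, hs, hZs⟩ hcl
      have hclK : ∀ u ∈ K, ∀ w ∈ K, Z u → G.Adj u w → Z w := fun u hu w hw =>
        hcl u (mem_insert_of_mem hu) w (mem_insert_of_mem hw)
      have hZ0 : Z v0 := by
        by_contra hc
        obtain ⟨l, hl⟩ := hKp s hs
        refine hl.closed (Z := fun w => ¬ Z w) ?_ hc hZs
        intro u hu w hw hZu e hZw
        exact hZu (hclK w hw u hu hZw e.symm)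
      have hZK : ∀ u ∈ K, Z u := by
        intro u hu
        obtain ⟨l, hl⟩ := hKp u hu
        exact hl.closed hclK hZ0
      intro u hu
      rcases mem_insert.1 hu with rfl | hu
      · exact hcl yb (mem_insert_of_mem hyb) u (mem_insert_self _ _) (hZK yb hyb) eb
      · exact hZK u hu
    have hKsub : K ⊆ D := fun v hv => (hK v hv).1
    have haK : a ∉ K := fun h => (hK a h).2.1 rfl
    have hbK : b ∉ K := fun h => (hK b h).2.2 rfl
    rcases Nat.lt_or_ge d 4 with hd | hd
    · -- a path with three vertices
      obtain ⟨l1, hl1⟩ := hKp ya hya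
      -- from `ya` to `b` inside `K + b`
      have h3 : ∀ u ∈ insert b K, ∃ l, Pth G (insert b K) ya u l := by
        refine hconn _ ⟨ya, hya, _, pth_single (mem_insert_of_mem hya)⟩ ?_
        intro u _ w hw ⟨l, hl⟩ e
        exact hl.step e hw
      obtain ⟨l, hl⟩ := h3 b (mem_insert_self _ _)
      have hyb : ya ≠ b := (hK ya hya).2.2
      refine ⟨a :: l, hl.cons ea.symm ?_ ha ?_, ?_⟩
      · intro hal
        rcases mem_insert.1 (hl.2.1 a hal) with h | h
        · exact hab h
        · exact haK h
      · exact insert_subset hb hKsub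
      · have := hl.len hyb
        rw [List.length_cons]; omega
    -- the family of attached parts
    let F : Finset (Finset V) := K.powerset.filter (fun S => S.Nonempty ∧ S ≠ {c} ∧
      ∃ v ∈ insert b K, v ∉ S ∧ ∀ s ∈ S, ∀ u ∈ insert b K, u ∉ S → G.Adj s u → u = v)
    have hF : ∀ S, S ∈ F ↔ S ⊆ K ∧ S.Nonempty ∧ S ≠ {c} ∧
      ∃ v ∈ insert b K, v ∉ S ∧ ∀ s ∈ S, ∀ u ∈ insert b K, u ∉ S → G.Adj s u → u = v := by
      intro S
      simp only [F, mem_filter, mem_powerset]
    have hKF : K ∈ F := by
      rw [hF]
      refine ⟨subset_rfl, ⟨v0, hvK⟩, ?_, b, mem_insert_self _ _, hbK, ?_⟩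
      · intro h
        rw [h, mem_singleton] at hvK
        exact hv0c hvK
      · intro s _ u hu huK _
        rcases mem_insert.1 hu with h | h
        · exact h
        · exact absurd h huK
    obtain ⟨S, hSF, hSmin⟩ := exists_min_image F card ⟨K, hKF⟩
    obtain ⟨hSK, hSne, hSc, v, hvQ, hvS, hSv⟩ := (hF S).1 hSF
    have hSD : S ⊆ D := hSK.trans hKsub
    have haS : a ∉ S := fun h => haK (hSK h)
    have hbS : b ∉ S := fun h => hbK (hSK h)
    have hvD : v ∈ D := (insert_subset hb hKsub) hvQ
    have hva : v ≠ a := by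
      rintro rfl
      rcases mem_insert.1 hvQ with h | h
      · exact hab h
      · exact haK h
    -- neighbours of a vertex of `S`
    have hSn : ∀ s ∈ S, ∀ u ∈ D, G.Adj s u → u = a ∨ u ∈ insert v S := by
      intro s hs u hu e
      by_cases hua : u = a
      · exact Or.inl hua
      right
      by_cases huS : u ∈ S
      · exact mem_insert_of_mem huS
      have huQ : u ∈ insert b K := by
        rcases hKn s (hSK hs) u hu e with h | h | h
        · exact mem_insert_of_mem h
        · exact absurd h hua
        · rw [h]; exact mem_insert_self _ _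
      rw [hSv s hs u huQ huS e]
      exact mem_insert_self _ _
    obtain ⟨a', ha'S, ea'⟩ : ∃ a' ∈ S, G.Adj a' a := by
      obtain ⟨u, hu, u', hu', hne, huS, hu'S, ⟨y, hy, e⟩, y', hy', e'⟩ := h1 S hSD hSne haS hbS
      rcases hSn y hy u hu e with h | h
      · subst h; exact ⟨y, hy, e⟩
      · rcases hSn y' hy' u' hu' e' with h' | h'
        · subst h'; exact ⟨y', hy', e'⟩
        · rw [mem_insert] at h h'
          have h := h.resolve_right huS
          have h' := h'.resolve_right hu'S
          exact absurd (h.trans h'.symm) hne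
    -- a path from `v` to `b` outside `S`
    obtain ⟨l2, hl2⟩ : ∃ l, Pth G ((insert b K) \ S) v b l := by
      obtain ⟨X, hX1, hX2, hX3, hX4⟩ := exists_part (G := G) ((insert b K) \ S) (a := v)
        (mem_sdiff.2 ⟨hvQ, hvS⟩)
      have hZ := hconn (fun u => u ∈ X ∨ u ∈ S) (by
        obtain ⟨s, hs⟩ := hSne
        exact ⟨s, hSK hs, Or.inr hs⟩) (by
        intro u hu w hw hZ e
        by_cases hwS : w ∈ S
        · exact Or.inr hwS
        left
        rcases hZ with hZ | hZ
        · exact hX4 u hZ w (mem_sdiff.2 ⟨hw, hwS⟩) e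
        · rw [hSv u hZ w hw hwS e]; exact hX2) b (mem_insert_self _ _)
      obtain ⟨l, hl⟩ := hX3 b (hZ.resolve_right hbS)
      exact ⟨l, hl.mono hX1⟩
    obtain ⟨e0, rfl⟩ : ∃ e0, d = e0 + 1 := ⟨d - 1, by omega⟩
    have hcardD : ∀ D' : Finset V, D' ⊆ insert b K → D'.card ≤ n := by
      intro D' hD'
      have : D' ⊆ D.erase a := by
        intro u hu
        refine mem_erase.2 ⟨?_, (insert_subset hb hKsub) (hD' hu)⟩
        rintro rfl
        rcases mem_insert.1 (hD' hu) with h | h
        · exact hab h
        · exact haK h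
      have h3 := card_le_card this
      rw [card_erase_of_mem ha] at h3
      omega
    -- joining
    have hglue : ∀ (D' : Finset V) (l1 : List V) (p : V), D' ⊆ insert v S →
        Pth G D' p v l1 → ∃ l, Pth G (D' ∪ (insert b K) \ S) p b l ∧ l1.length ≤ l.length := by
      intro D' l1 p hD' hl1
      refine ⟨_, hl1.join hl2 ?_, ?_⟩
      · intro u hu hu'
        rcases mem_insert.1 (hD' hu) with h | h
        · exact h
        · exact absurd h (mem_sdiff.1 hu').2
      · rw [List.length_append]; omega
    have hpair : ∀ (D' Y : Finset V), D' ⊆ insert b K → Y ⊆ S → Y.Nonempty → Y ≠ {c} →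
        Y.card < S.card → (∀ y ∈ Y, ∀ u ∈ insert b K, G.Adj y u → u ∈ D') →
        ∃ u ∈ D', ∃ u' ∈ D', u ≠ u' ∧ u ∉ Y ∧ u' ∉ Y ∧ (∃ y ∈ Y, G.Adj y u) ∧
          ∃ y ∈ Y, G.Adj y u' := by
      intro D' Y hD' hYS hYn hYc hYcard hYD'
      by_contra hcon
      have hYF : Y ∈ F := by
        rw [hF]
        refine ⟨hYS.trans hSK, hYn, hYc, ?_⟩
        by_cases hex : ∃ u0 ∈ insert b K, u0 ∉ Y ∧ ∃ y ∈ Y, G.Adj y u0
        · obtain ⟨u0, hu0, hu0Y, y0, hy0, e0⟩ := hex
          refine ⟨u0, hu0, hu0Y, ?_⟩
          intro s hs u hu huY e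
          by_contra hne
          exact hcon ⟨u, hYD' s hs u hu e, u0, hYD' y0 hy0 u0 hu0 e0, hne, huY, hu0Y,
            ⟨s, hs, e⟩, y0, hy0, e0⟩
        · exact ⟨v, hvQ, fun h => hvS (hYS h), fun s hs u hu huY e =>
            absurd ⟨u, hu, huY, s, hs, e⟩ hex⟩
      have := hSmin Y hYF
      omega
    have hSQ : insert v S ⊆ insert b K := insert_subset hvQ (hSK.trans (subset_insert _ _))
    have haQ : a ∉ insert b K := by
      intro h
      rcases mem_insert.1 h with h | h
      · exact hab h
      · exact haK h
    have hQn : ∀ s ∈ S, ∀ u ∈ insert b K, G.Adj s u → u ∈ insert v S := by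
      intro s hs u hu e
      by_cases huS : u ∈ S
      · exact mem_insert_of_mem huS
      · rw [hSv s hs u hu huS e]; exact mem_insert_self _ _
    have hdegS : ∀ s ∈ S, s ≠ c → e0 + 1 ≤ (D.filter (G.Adj s)).card := fun s hs hsc =>
      h2 s (hSD hs) (hK s (hSK hs)).2.1 (hK s (hSK hs)).2.2 hsc
    -- degrees drop by at most one
    have hdrop : ∀ (D' : Finset V) (s : V), s ∈ S → s ≠ c →
        (∀ u ∈ insert v S, G.Adj s u → u ∈ D') → e0 ≤ (D'.filter (G.Adj s)).card := by
      intro D' s hs hsc hD'
      have h3 := hdegS s hs hsc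
      have h4 : D.filter (G.Adj s) ⊆ insert a (D'.filter (G.Adj s)) := by
        intro u hu
        rw [mem_filter] at hu
        rcases hSn s hs u hu.1 hu.2 with h | h
        · rw [h]; exact mem_insert_self _ _
        · exact mem_insert_of_mem (mem_filter.2 ⟨hD' u h hu.2, hu.2⟩)
      have h5 := card_le_card h4
      have h6 := card_insert_le a (D'.filter (G.Adj s))
      omega
    have hsmall : ∀ s ∈ S, s ≠ c → ∀ p q r : V, (∀ u ∈ D, G.Adj s u → u = p ∨ u = q ∨ u = r) →
        False := by
      intro s hs hsc p q r h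
      have h3 := hdegS s hs hsc
      have h4 : D.filter (G.Adj s) ⊆ {p, q, r} := by
        intro u hu
        rw [mem_filter] at hu
        rw [mem_insert, mem_insert, mem_singleton]
        exact h u hu.1 hu.2
      have h5 := card_le_card h4
      have h6 : ({p, q, r} : Finset V).card ≤ 3 := card_le_three
      omega
    by_cases hbad : c ∈ S ∧ ∃ v' ∈ insert b K, v' ≠ c ∧ ∀ u ∈ insert b K, G.Adj c u → u = v'
    · obtain ⟨hcS, v', hv'Q, hv'c, hcv'⟩ := hbad
      have hcD : c ∈ D := hSD hcS
      -- `c` is adjacent to `a` and to `v'`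
      obtain ⟨eca, ecv⟩ : G.Adj c a ∧ G.Adj c v' := by
        obtain ⟨u, hu, u', hu', hne, -, -, ⟨y, hy, e⟩, y', hy', e'⟩ := h1 {c}
          (singleton_subset_iff.2 hcD) ⟨c, mem_singleton_self c⟩
          (fun h => haS (mem_singleton.1 h ▸ hcS)) (fun h => hbS (mem_singleton.1 h ▸ hcS))
        rw [mem_singleton] at hy hy'
        rw [hy] at e
        rw [hy'] at e'
        rcases hSn c hcS u hu e with h | h
        · subst h
          rcases hSn c hcS u' hu' e' with h' | h'
          · exact absurd h'.symm hne
          · have := hcv' u' (hSQ h') e'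
            subst this
            exact ⟨e, e'⟩
        · have h3 := hcv' u (hSQ h) e
          subst h3
          rcases hSn c hcS u' hu' e' with h' | h'
          · subst h'
            exact ⟨e', e⟩
          · exact absurd (hcv' u' (hSQ h') e').symm hne
      have hv'S : v' ∈ S := by
        by_contra hv'S
        have hv'v : v' = v := hSv c hcS v' hv'Q hv'S ecv
        have hlt : (S.erase c).card < S.card := card_erase_lt_of_mem hcS
        have hne : (S.erase c).Nonempty := by
          rw [nonempty_iff_ne_empty]
          intro h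
          apply hSc
          ext u
          rw [mem_singleton]
          constructor
          · intro hu
            by_contra hne
            have : u ∈ S.erase c := mem_erase.2 ⟨hne, hu⟩
            rw [h] at this
            exact notMem_empty _ this
          · rintro rfl; exact hcS
        have hYF : S.erase c ∈ F := by
          rw [hF]
          refine ⟨(erase_subset _ _).trans hSK, hne, ?_, v, hvQ, fun h => hvS (mem_of_mem_erase h),
            ?_⟩
          · intro h
            have : c ∈ S.erase c := by rw [h]; exact mem_singleton_self c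
            exact (mem_erase.1 this).1 rfl
          · intro s hs u hu huS e
            by_cases huc : u = c
            · subst huc
              have := hcv' s (mem_insert_of_mem (hSK (mem_of_mem_erase hs))) e.symm
              rw [this] at hs
              exact absurd (mem_of_mem_erase hs) hv'S
            · exact hSv s (mem_of_mem_erase hs) u hu (fun h => huS (mem_erase.2 ⟨huc, h⟩)) e
        have := hSmin _ hYF
        omega
      have hcv : c ≠ v := by
        rintro rfl
        exact hvS hcS
      have hv'v : v' ≠ v := by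
        rintro rfl
        exact hvS hv'S
      have hDsub : insert v (S.erase c) ⊆ insert v S := insert_subset_insert _ (erase_subset _ _)
      obtain ⟨l1, hl1, hlen⟩ := ih (insert v (S.erase c)) v' v c e0
        (hcardD _ (hDsub.trans hSQ)) (mem_insert_of_mem (mem_erase.2 ⟨hv'c, hv'S⟩))
        (mem_insert_self _ _) hv'v (by
          intro Y hY hYn hv'Y hvY
          have hYE : Y ⊆ S.erase c := by
            intro u hu
            rcases mem_insert.1 (hY hu) with h | h
            · exact absurd (h ▸ hu) hvY
            · exact h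
          refine hpair _ Y (hDsub.trans hSQ) (hYE.trans (erase_subset _ _)) hYn ?_ ?_ ?_
          · intro h
            have : c ∈ Y := by rw [h]; exact mem_singleton_self c
            exact (mem_erase.1 (hYE this)).1 rfl
          · have := card_le_card hYE
            have := card_erase_lt_of_mem hcS
            omega
          · intro y hy u hu e
            have hyS := hYE hy
            rcases mem_insert.1 (hQn y (mem_of_mem_erase hyS) u hu e) with h | h
            · rw [h]; exact mem_insert_self _ _
            · refine mem_insert_of_mem (mem_erase.2 ⟨?_, h⟩)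
              rintro rfl
              have := hcv' y (mem_insert_of_mem (hSK (mem_of_mem_erase hyS))) e.symm
              exact hv'Y (this ▸ hy)) (by
          intro s hs hsv' hsv hsc
          have hsE : s ∈ S.erase c := (mem_insert.1 hs).resolve_left hsv
          refine hdrop _ s (mem_of_mem_erase hsE) hsc ?_
          intro u hu e
          rcases mem_insert.1 hu with h | h
          · rw [h]; exact mem_insert_self _ _
          · refine mem_insert_of_mem (mem_erase.2 ⟨?_, h⟩)
            rintro rfl
            exact hsv' (hcv' s (mem_insert_of_mem (hSK (mem_of_mem_erase hsE))) e.symm)) (by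
          by_contra hcon
          push Not at hcon
          refine hsmall v' hv'S hv'c a v c ?_
          intro u hu e
          rcases hSn v' hv'S u hu e with h | h
          · exact Or.inl h
          · by_cases huv : u = v
            · exact Or.inr (Or.inl huv)
            right; right
            have huS := (mem_insert.1 h).resolve_left huv
            by_contra huc
            exact huc (hcon u (mem_insert_of_mem (mem_erase.2 ⟨huc, huS⟩)) (by
              rintro rfl; exact e.ne rfl) huv))
      obtain ⟨l3, hl3, hlen3⟩ := hglue _ l1 v' hDsub hl1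
      have hc3 : c ∉ l3 := by
        intro h
        rcases mem_union.1 (hl3.2.1 c h) with h | h
        · rcases mem_insert.1 h with h | h
          · exact hcv h
          · exact (mem_erase.1 h).1 rfl
        · exact (mem_sdiff.1 h).2 hcS
      have hsub3 : insert v (S.erase c) ∪ (insert b K) \ S ⊆ insert b K :=
        union_subset (hDsub.trans hSQ) sdiff_subset
      have hl4 : Pth G (insert b K) c b (c :: l3) :=
        hl3.cons ecv hc3 (mem_insert_of_mem (hSK hcS)) hsub3
      refine ⟨a :: c :: l3, hl4.cons eca.symm (fun h => haQ (hl4.2.1 a h)) ha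
        (insert_subset hb hKsub), ?_⟩
      rw [List.length_cons, List.length_cons]
      omega
    · have hva' : a' ≠ v := by
        rintro rfl
        exact hvS ha'S
      have hbad' : c ∈ S → ∀ v' ∈ insert b K, v' ≠ c → ∃ u ∈ insert b K, G.Adj c u ∧ u ≠ v' := by
        intro hcS v' hv' hv'c
        by_contra hcon
        push Not at hcon
        exact hbad ⟨hcS, v', hv', hv'c, hcon⟩
      obtain ⟨l1, hl1, hlen⟩ := ih (insert v S) a' v c e0
        (hcardD _ hSQ) (mem_insert_of_mem ha'S) (mem_insert_self _ _) hva' (by
          intro Y hY hYn ha'Y hvY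
          have hYS : Y ⊆ S := by
            intro u hu
            rcases mem_insert.1 (hY hu) with h | h
            · exact absurd (h ▸ hu) hvY
            · exact h
          by_cases hYc : Y = {c}
          · -- `c` has two neighbours in `Q`
            subst hYc
            have hcS : c ∈ S := hYS (mem_singleton_self c)
            have hcv : v ≠ c := by
              rintro rfl; exact hvS hcS
            obtain ⟨u, hu, e, huv⟩ := hbad' hcS v hvQ hcv
            obtain ⟨u', hu', e', hne⟩ := hbad' hcS u hu e.ne'
            exact ⟨u, hQn c hcS u hu e, u', hQn c hcS u' hu' e', hne.symm,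
              fun h => e.ne (mem_singleton.1 h).symm, fun h => e'.ne (mem_singleton.1 h).symm,
              ⟨c, mem_singleton_self c, e⟩, c, mem_singleton_self c, e'⟩
          · refine hpair _ Y hSQ hYS hYn hYc ?_ ?_
            · refine card_lt_card ((ssubset_iff_of_subset hYS).2 ⟨a', ha'S, ha'Y⟩)
            · intro y hy u hu e
              exact hQn y (hYS hy) u hu e) (by
          intro s hs hsa' hsv hsc
          have hsS : s ∈ S := (mem_insert.1 hs).resolve_left hsv
          exact hdrop _ s hsS hsc (fun u hu _ => hu)) (by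
          by_contra hcon
          push Not at hcon
          by_cases ha'c : a' = c
          · apply hSc
            ext u
            rw [mem_singleton]
            constructor
            · intro hu
              by_cases hua : u = a'
              · exact hua.trans ha'c
              · exact hcon u (mem_insert_of_mem hu) hua (by rintro rfl; exact hvS hu)
            · rintro rfl
              rw [← ha'c]; exact ha'S
          · refine hsmall a' ha'S ha'c a v c ?_
            intro u hu e
            rcases hSn a' ha'S u hu e with h | h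
            · exact Or.inl h
            · by_cases huv : u = v
              · exact Or.inr (Or.inl huv)
              right; right
              have huS := (mem_insert.1 h).resolve_left huv
              exact hcon u h (by rintro rfl; exact e.ne rfl) huv)
      obtain ⟨l3, hl3, hlen3⟩ := hglue _ l1 a' subset_rfl hl1
      have hsub3 : insert v S ∪ (insert b K) \ S ⊆ insert b K := union_subset hSQ sdiff_subset
      refine ⟨a :: l3, hl3.cons ea'.symm (fun h => haQ (hsub3 (hl3.2.1 a h))) ha
        (hsub3.trans (insert_subset hb hKsub)), ?_⟩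
      rw [List.length_cons]
      omega

end Pool.Agent.MP5ce328
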