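import Pool.Agent.Lib.MP_5ce328_co.Reg

/-!
# A local degree condition at geodesic paths with four vertices

A connected graph with a vertex of degree at most `k`, at most `k` vertices at positive even
distance from every vertex, and with
`deg z + k ≤ deg b + deg y + |N(b) ∩ N(y)|` for every geodesic path `x, b, z, y`, has fewer than
`4 * k` vertices.
-/

namespace Pool.Agent.MP5ce328

open Finset

variable {V : Type*} {G : SimpleGraph V}

theorem lo_one {u v : V} (h : G.Adj u v) : G.dist u v = 1 :=
  SimpleGraph.dist_eq_one_iff_adj.2 h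

theorem lo_two (hG : G.Connected) {u v : V} (h : G.dist u v = 2) :
    ∃ w, G.Adj u w ∧ G.Adj w v := by
  obtain ⟨w, h1, h2⟩ := exists_between hG u 1 _ v h (by omega)
  exact ⟨w, SimpleGraph.dist_eq_one_iff_adj.1 h1, SimpleGraph.dist_eq_one_iff_adj.1 (by omega)⟩

theorem lo_mem_EV {u v : V} [Fintype V] {d : ℕ} (h : G.dist u v = d) (hd : Even d)
    (hpos : 0 < d) : v ∈ EV G u := by
  rw [mem_EV]
  refine ⟨?_, by rw [h]; exact hd⟩
  rintro rfl
  rw [SimpleGraph.dist_self] at h
  omega

/-- the parity count around a path `b, z, y`, with the far vertices -/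
theorem lo_count [Fintype V] [DecidableEq V] [DecidableRel G.Adj] (hG : G.Connected)
    {x b z y : V} (P : GP G x b z y) (T : Finset V)
    (hT : ∀ q, G.dist b q = G.dist z q → G.dist y q = G.dist z q → 3 ≤ G.dist z q →
      ¬ Even (G.dist z q) → q ∈ T) :
    Fintype.card V ≤ (EV G b ∪ EV G z ∪ EV G y).card +
      (G.neighborFinset b ∩ G.neighborFinset y).card + T.card := by
  classical
  obtain ⟨hxb, hbz, hzy, hxy⟩ := P
  have hby : G.dist b y = 2 := by
    have h1 := hG.dist_triangle (u := x) (v := b) (w := y)
    have h2 := hG.dist_triangle (u := b) (v := z) (w := y)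
    have h3 := lo_one hxb
    have h4 := lo_one hbz
    have h5 := lo_one hzy
    omega
  set I := G.neighborFinset b ∩ G.neighborFinset y with hI
  have hzI : z ∈ I := by
    rw [hI, mem_inter, SimpleGraph.mem_neighborFinset, SimpleGraph.mem_neighborFinset]
    exact ⟨hbz, hzy.symm⟩
  have hsub : (univ : Finset V) ⊆ ((EV G b ∪ EV G z ∪ EV G y) ∪ I) ∪ T := by
    intro q _
    rw [mem_union, mem_union, mem_union, mem_union, mem_EV, mem_EV, mem_EV]
    by_cases hqz : q = z
    · left; right; rw [hqz]; exact hzI
    by_cases hqb : q = b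
    · left; left; right
      refine ⟨?_, ?_⟩
      · rintro rfl
        rw [← hqb, SimpleGraph.dist_self] at hby
        omega
      · rw [hqb, SimpleGraph.dist_comm, hby]; exact ⟨1, rfl⟩
    by_cases hqy : q = y
    · left; left; left; left
      refine ⟨hqb, ?_⟩
      rw [hqy, hby]; exact ⟨1, rfl⟩
    by_contra hc
    push Not at hc
    obtain ⟨⟨⟨⟨h1, h2⟩, h3⟩, h4⟩, h5⟩ := hc
    have h1' := h1 hqb
    have h2' := h2 hqz
    have h3' := h3 hqy
    have hodd := h2'
    rw [Nat.not_even_iff_odd] at h1' h2' h3'
    have e1 := lo_one hbz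
    have e2 := lo_one hzy
    have t1 := hG.dist_triangle (u := b) (v := z) (w := q)
    have t2 := hG.dist_triangle (u := z) (v := b) (w := q)
    have t3 := hG.dist_triangle (u := y) (v := z) (w := q)
    have t4 := hG.dist_triangle (u := z) (v := y) (w := q)
    rw [SimpleGraph.dist_comm (u := z) (v := b)] at t2
    rw [SimpleGraph.dist_comm (u := y) (v := z)] at t3
    obtain ⟨i1, i1'⟩ := h1'
    obtain ⟨i2, i2'⟩ := h2'
    obtain ⟨i3, i3'⟩ := h3'
    have a1 : G.dist b q = G.dist z q := by omega
    have a2 : G.dist y q = G.dist z q := by omega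
    rcases Nat.lt_or_ge (G.dist z q) 3 with h | h
    · apply h4
      rw [hI, mem_inter, SimpleGraph.mem_neighborFinset, SimpleGraph.mem_neighborFinset]
      exact ⟨SimpleGraph.dist_eq_one_iff_adj.1 (by omega),
        SimpleGraph.dist_eq_one_iff_adj.1 (by omega)⟩
    · exact h5 (hT q a1 a2 h hodd)
  have h1 := card_le_card hsub
  rw [card_univ] at h1
  have h2 := card_union_le ((EV G b ∪ EV G z ∪ EV G y) ∪ I) T
  have h3 := card_union_le (EV G b ∪ EV G z ∪ EV G y) I
  omega

/-- if no vertex is far from `v` -/
theorem lo_near [Fintype V] [DecidableEq V] [DecidableRel G.Adj] (hG : G.Connected) (v : V)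
    (hle : ∀ q, G.dist v q ≤ 2) :
    Fintype.card V ≤ 1 + G.degree v + (EV G v).card := by
  classical
  have hsub : (univ : Finset V) ⊆ insert v (G.neighborFinset v) ∪ EV G v := by
    intro q _
    rw [mem_union, mem_insert, SimpleGraph.mem_neighborFinset]
    by_cases hqv : q = v
    · left; left; exact hqv
    have hpos : 0 < G.dist v q := by
      rw [Nat.pos_iff_ne_zero]
      intro h0
      exact hqv (hG.dist_eq_zero_iff.1 h0).symm
    have h2 := hle q
    rcases Nat.lt_or_ge (G.dist v q) 2 with h | h
    · left; right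
      exact SimpleGraph.dist_eq_one_iff_adj.1 (by omega)
    · right
      exact lo_mem_EV (d := 2) (by omega) ⟨1, rfl⟩ (by omega)
  have h1 := card_le_card hsub
  have h2 := card_union_le (insert v (G.neighborFinset v)) (EV G v)
  rw [card_univ] at h1
  rw [card_insert_of_notMem (by simp), SimpleGraph.card_neighborFinset_eq_degree] at h2
  omega

/-- a geodesic path whose inner pair has fewer than `k` common neighbours -/
theorem lo_small [Fintype V] [DecidableEq V] [DecidableRel G.Adj] (hG : G.Connected) {k : ℕ}
    (hk : 2 ≤ k) {v0 : V} (hv0 : G.degree v0 ≤ k) (hE : ∀ v, (EV G v).card ≤ k)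
    (hn : 4 * k ≤ Fintype.card V) :
    ∃ x b z y, GP G x b z y ∧ (G.neighborFinset b ∩ G.neighborFinset y).card < k := by
  classical
  have h0 : ∃ q, 3 ≤ G.dist v0 q := by
    by_contra hc
    push Not at hc
    have h1 := lo_near hG v0 (fun q => by have := hc q; omega)
    have := hE v0
    omega
  obtain ⟨q0, hq0⟩ := h0
  obtain ⟨q, hq, _⟩ := exists_between hG v0 3 _ q0 rfl hq0
  obtain ⟨f, g, Q, hfq⟩ := exists_GP hG hq
  refine ⟨_, _, _, _, Q, ?_⟩
  by_contra hc
  push Not at hc
  obtain ⟨hvf, hfg, hgq, _⟩ := Q
  have e1 := lo_one hvf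
  set I := G.neighborFinset f ∩ G.neighborFinset q with hI
  have hI2 : ∀ w ∈ I, G.dist v0 w = 2 ∧ G.Adj f w := by
    intro w hw
    rw [hI, mem_inter, SimpleGraph.mem_neighborFinset, SimpleGraph.mem_neighborFinset] at hw
    have t1 := hG.dist_triangle (u := v0) (v := f) (w := w)
    have t2 := hG.dist_triangle (u := v0) (v := w) (w := q)
    have e2 := lo_one hw.1
    have e3 := lo_one hw.2.symm
    exact ⟨by omega, hw.1⟩
  have hIsub : I ⊆ EV G v0 := by
    intro w hw
    exact lo_mem_EV (hI2 w hw).1 ⟨1, rfl⟩ (by omega)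
  have hIeq : I = EV G v0 := eq_of_subset_of_card_le hIsub (le_trans (hE v0) hc)
  have hno4 : ∀ w, G.dist v0 w ≤ 3 := by
    intro w
    by_contra hw
    push Not at hw
    obtain ⟨w', h1, _⟩ := exists_between hG v0 4 _ w rfl hw
    have h2 : w' ∈ EV G v0 := lo_mem_EV h1 ⟨2, rfl⟩ (by omega)
    rw [← hIeq] at h2
    have := (hI2 w' h2).1
    omega
  have hsub : (univ : Finset V) ⊆ (insert v0 (G.neighborFinset v0) ∪ EV G v0) ∪ EV G f := by
    intro w _
    rw [mem_union, mem_union, mem_insert, SimpleGraph.mem_neighborFinset]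
    by_cases hwv : w = v0
    · left; left; left; exact hwv
    have hpos : 0 < G.dist v0 w := by
      rw [Nat.pos_iff_ne_zero]
      intro h0
      exact hwv (hG.dist_eq_zero_iff.1 h0).symm
    have h3 := hno4 w
    rcases Nat.lt_or_ge (G.dist v0 w) 2 with h | h
    · left; left; right
      exact SimpleGraph.dist_eq_one_iff_adj.1 (by omega)
    rcases Nat.lt_or_ge (G.dist v0 w) 3 with h' | h'
    · left; right
      exact lo_mem_EV (d := 2) (by omega) ⟨1, rfl⟩ (by omega)
    · right
      obtain ⟨w', h4, h5⟩ := exists_between hG v0 2 3 w (by omega) (by omega)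
      have h6 : w' ∈ EV G v0 := lo_mem_EV h4 ⟨1, rfl⟩ (by omega)
      rw [← hIeq] at h6
      have e2 := lo_one (hI2 w' h6).2
      have t1 := hG.dist_triangle (u := f) (v := w') (w := w)
      have t2 := hG.dist_triangle (u := v0) (v := f) (w := w)
      exact lo_mem_EV (d := 2) (by omega) ⟨1, rfl⟩ (by omega)
  have h1 := card_le_card hsub
  rw [card_univ] at h1
  have h2 := card_union_le (insert v0 (G.neighborFinset v0) ∪ EV G v0) (EV G f)
  have h3 := card_union_le (insert v0 (G.neighborFinset v0)) (EV G v0)
  rw [card_insert_of_notMem (by simp), SimpleGraph.card_neighborFinset_eq_degree] at h3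
  have := hE v0
  have := hE f
  omega

/-- **Local degree condition** -/
theorem localOre_card_lt [Fintype V] [DecidableEq V] [DecidableRel G.Adj] (hG : G.Connected)
    {k : ℕ} (hk : 2 ≤ k) {v0 : V} (hv0 : G.degree v0 ≤ k)
    (hE : ∀ v, (EV G v).card ≤ k)
    (hH : ∀ x b z y, GP G x b z y → G.degree z + k ≤
      G.degree b + G.degree y + (G.neighborFinset b ∩ G.neighborFinset y).card) :
    Fintype.card V < 4 * k := by
  classical
  by_contra hn
  push Not at hn
  obtain ⟨x1, b1, z1, y1, P1, hP1⟩ := lo_small hG hk hv0 hE hn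
  have hex : ∃ ν x b z y, GP G x b z y ∧
      (G.neighborFinset b ∩ G.neighborFinset y).card = ν := ⟨_, _, _, _, _, P1, rfl⟩
  obtain ⟨x, b, z, y, P, hν⟩ := Nat.find_spec hex
  have hcmin : ∀ x' b' z' y', GP G x' b' z' y' →
      (G.neighborFinset b ∩ G.neighborFinset y).card ≤
        (G.neighborFinset b' ∩ G.neighborFinset y').card := by
    intro x' b' z' y' P'
    rw [hν]
    exact Nat.find_min' hex ⟨x', b', z', y', P', rfl⟩
  have hck : (G.neighborFinset b ∩ G.neighborFinset y).card < k :=
    lt_of_le_of_lt (hcmin _ _ _ _ P1) hP1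
  have hHP := hH _ _ _ _ P
  clear hν hex
  obtain ⟨hxb, hbz, hzy, hxy⟩ := id P
  have e0 := lo_one hxb
  have e1 := lo_one hbz
  have e2 := lo_one hzy
  have e1' := lo_one hbz.symm
  have e2' := lo_one hzy.symm
  have hby : G.dist b y = 2 := by
    have h1 := hG.dist_triangle (u := x) (v := b) (w := y)
    have h2 := hG.dist_triangle (u := b) (v := z) (w := y)
    omega
  set c := (G.neighborFinset b ∩ G.neighborFinset y).card with hc
  have hc1 : 1 ≤ c := by
    rw [hc, Nat.one_le_iff_ne_zero, Ne, card_eq_zero, ← Ne, ← nonempty_iff_ne_empty]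
    refine ⟨z, ?_⟩
    rw [mem_inter, SimpleGraph.mem_neighborFinset, SimpleGraph.mem_neighborFinset]
    exact ⟨hbz, hzy.symm⟩
  set A := insert z (G.neighborFinset z) with hA
  set C := insert b (G.neighborFinset b) with hC
  set D := insert y (G.neighborFinset y) with hD
  have memA : ∀ v, v ∈ A ↔ v = z ∨ G.Adj z v := by
    intro v; rw [hA, mem_insert, SimpleGraph.mem_neighborFinset]
  have memC : ∀ v, v ∈ C ↔ v = b ∨ G.Adj b v := by
    intro v; rw [hC, mem_insert, SimpleGraph.mem_neighborFinset]
  have memD : ∀ v, v ∈ D ↔ v = y ∨ G.Adj y v := by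
    intro v; rw [hD, mem_insert, SimpleGraph.mem_neighborFinset]
  have cA : A.card = G.degree z + 1 := by
    rw [hA, card_insert_of_notMem (by simp), SimpleGraph.card_neighborFinset_eq_degree]
  have cC : C.card = G.degree b + 1 := by
    rw [hC, card_insert_of_notMem (by simp), SimpleGraph.card_neighborFinset_eq_degree]
  have cD : D.card = G.degree y + 1 := by
    rw [hD, card_insert_of_notMem (by simp), SimpleGraph.card_neighborFinset_eq_degree]
  -- the ball of radius two around `z`, without the closed neighbourhoods of `b` and `y`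
  set W := A ∪ EV G z with hW
  set Om := W \ (C ∪ D) with hOm
  have memOm : ∀ v, v ∈ Om ↔ v ∈ W ∧ ¬ ((v = b ∨ G.Adj b v) ∨ (v = y ∨ G.Adj y v)) := by
    intro v
    rw [← memC, ← memD, ← mem_union (s := C) (t := D), ← mem_sdiff (s := W)]
  have hball : ∀ v, G.dist z v ≤ 2 → v ∈ W := by
    intro v hv
    rw [hW, mem_union, memA]
    by_cases hvz : v = z
    · left; left; exact hvz
    have hpos : 0 < G.dist z v := by
      rw [Nat.pos_iff_ne_zero]
      intro h0
      exact hvz (hG.dist_eq_zero_iff.1 h0).symm
    rcases Nat.lt_or_ge (G.dist z v) 2 with h | h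
    · left; right
      exact SimpleGraph.dist_eq_one_iff_adj.1 (by omega)
    · right
      exact lo_mem_EV (d := 2) (by omega) ⟨1, rfl⟩ (by omega)
  have hOmcard : Om.card + 1 ≤ 2 * c := by
    have hsub : C ∪ D ⊆ W := by
      intro v hv
      apply hball
      rw [mem_union, memC, memD] at hv
      rcases hv with (h | h) | (h | h)
      · rw [h]; omega
      · have t := hG.dist_triangle (u := z) (v := b) (w := v)
        have := lo_one h
        omega
      · rw [h]; omega
      · have t := hG.dist_triangle (u := z) (v := y) (w := v)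
        have := lo_one h
        omega
    have hinter : C ∩ D ⊆ G.neighborFinset b ∩ G.neighborFinset y := by
      intro v hv
      rw [mem_inter, memC, memD] at hv
      rw [mem_inter, SimpleGraph.mem_neighborFinset, SimpleGraph.mem_neighborFinset]
      obtain ⟨h5 | h5, h6 | h6⟩ := hv
      · exfalso
        rw [← h5, ← h6, SimpleGraph.dist_self] at hby
        omega
      · exfalso
        rw [h5] at h6
        have := lo_one h6
        rw [SimpleGraph.dist_comm] at this
        omega
      · exfalso
        rw [h6] at h5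
        have := lo_one h5
        omega
      · exact ⟨h5, h6⟩
    have c1 := card_sdiff_add_card_eq_card hsub
    have c2 := card_union_le A (EV G z)
    have c3 := card_union_add_card_inter C D
    have c4 := card_le_card hinter
    have cz := hE z
    rw [← hOm] at c1
    rw [← hW] at c2
    rw [← hc] at c4
    omega
  -- gates
  have hM : ∀ q f, G.dist z q = 3 → 3 ≤ G.dist b q → 3 ≤ G.dist y q → G.Adj z f →
      G.dist f q = 2 → G.neighborFinset f ∩ G.neighborFinset q ⊆ Om ∧
        c ≤ (G.neighborFinset f ∩ G.neighborFinset q).card ∧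
        (∀ w ∈ G.neighborFinset f ∩ G.neighborFinset q, G.dist z w = 2 ∧ G.Adj f w ∧
          G.Adj w q) := by
    intro q f h1 h2 h3 h4 h5
    have e3 := lo_one h4
    have h6 : ∀ w ∈ G.neighborFinset f ∩ G.neighborFinset q, G.dist z w = 2 ∧ G.Adj f w ∧
        G.Adj w q := by
      intro w hw
      rw [mem_inter, SimpleGraph.mem_neighborFinset, SimpleGraph.mem_neighborFinset] at hw
      have t1 := hG.dist_triangle (u := z) (v := f) (w := w)
      have t2 := hG.dist_triangle (u := z) (v := w) (w := q)
      have e4 := lo_one hw.1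
      have e5 := lo_one hw.2.symm
      exact ⟨by omega, hw.1, hw.2.symm⟩
    refine ⟨?_, ?_, h6⟩
    · intro w hw
      obtain ⟨h7, h8, h9⟩ := h6 w hw
      rw [memOm]
      refine ⟨hball w (by omega), ?_⟩
      have e5 := lo_one h9
      rintro ((h | h) | (h | h))
      · rw [h] at e5; omega
      · have t := hG.dist_triangle (u := b) (v := w) (w := q)
        have := lo_one h
        omega
      · rw [h] at e5; omega
      · have t := hG.dist_triangle (u := y) (v := w) (w := q)
        have := lo_one h
        omega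
    · obtain ⟨w, h7, h8⟩ := lo_two hG h5
      exact hcmin z f w q ⟨h4, h7, h8, h1⟩
  -- every gate is a gate of every far vertex
  have hcross : ∀ q q' f, G.dist z q = 3 → 3 ≤ G.dist b q → 3 ≤ G.dist y q →
      G.dist z q' = 3 → 3 ≤ G.dist b q' → 3 ≤ G.dist y q' → G.Adj z f → G.dist f q = 2 →
      G.dist f q' = 2 := by
    intro q q' f h1 h2 h3 h1' h2' h3' h4 h5
    obtain ⟨f', g', ⟨k1, k2, k3, k4⟩, k5⟩ := exists_GP hG h1'
    obtain ⟨m1, m2, m3⟩ := hM q f h1 h2 h3 h4 h5
    obtain ⟨m1', m2', m3'⟩ := hM q' f' h1' h2' h3' k1 k5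
    have h6 : ¬ Disjoint (G.neighborFinset f ∩ G.neighborFinset q)
        (G.neighborFinset f' ∩ G.neighborFinset q') := by
      intro hd
      have h7 := card_union_of_disjoint hd
      have h8 := card_le_card (union_subset m1 m1')
      omega
    rw [not_disjoint_iff] at h6
    obtain ⟨w, hw, hw'⟩ := h6
    have t1 := hG.dist_triangle (u := f) (v := w) (w := q')
    have t2 := hG.dist_triangle (u := z) (v := f) (w := q')
    have e3 := lo_one h4
    have e4 := lo_one (m3 w hw).2.1
    have e5 := lo_one (m3' w hw').2.2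
    omega
  -- the far vertices
  set T := univ.filter (fun q => G.dist b q = G.dist z q ∧ G.dist y q = G.dist z q ∧
    3 ≤ G.dist z q ∧ ¬ Even (G.dist z q)) with hT
  have hcount := lo_count hG P T (fun q h1 h2 h3 h4 => by
    rw [hT, mem_filter]; exact ⟨mem_univ q, h1, h2, h3, h4⟩)
  rw [← hc] at hcount
  have hEb := hE b
  have hEz := hE z
  have hEy := hE y
  by_cases hTe : T = ∅
  · rw [hTe, card_empty] at hcount
    have h1 := card_union_le (EV G b ∪ EV G z) (EV G y)
    have h2 := card_union_le (EV G b) (EV G z)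
    omega
  rw [← Ne, ← nonempty_iff_ne_empty] at hTe
  obtain ⟨p, hp⟩ := hTe
  rw [hT, mem_filter] at hp
  obtain ⟨_, hp1, hp2, hp3, hp4⟩ := hp
  obtain ⟨q, hq3, hqp⟩ := exists_between hG z 3 _ p rfl hp3
  have hqb : 3 ≤ G.dist b q := by
    have t1 := hG.dist_triangle (u := b) (v := q) (w := p)
    omega
  have hqy : 3 ≤ G.dist y q := by
    have t1 := hG.dist_triangle (u := y) (v := q) (w := p)
    omega
  -- the far vertices lie in `EV f` for every gate `f`
  have hTf : ∀ f, G.Adj z f → G.dist f q = 2 → ∀ p' ∈ T, p' ∈ EV G f ∧ 3 ≤ G.dist z p' := by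
    intro f h4 h5 p' hp'
    rw [hT, mem_filter] at hp'
    obtain ⟨_, g1, g2, g3, g4⟩ := hp'
    obtain ⟨q', i1, i2⟩ := exists_between hG z 3 _ p' rfl g3
    have t1 := hG.dist_triangle (u := b) (v := q') (w := p')
    have t2 := hG.dist_triangle (u := y) (v := q') (w := p')
    have i3 := hcross q q' f hq3 hqb hqy i1 (by omega) (by omega) h4 h5
    have t3 := hG.dist_triangle (u := f) (v := q') (w := p')
    have t4 := hG.dist_triangle (u := z) (v := f) (w := p')
    have e3 := lo_one h4
    rw [Nat.not_even_iff_odd] at g4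
    obtain ⟨j, hj⟩ := g4
    refine ⟨lo_mem_EV (d := 2 * j) (by omega) ⟨j, by ring⟩ (by omega), g3⟩
  -- the count in `EV f`
  have hTN : ∀ f, G.Adj z f → G.dist f q = 2 → ∀ S : Finset V,
      (∀ v ∈ S, G.Adj z v ∧ v ≠ f ∧ ¬ G.Adj f v) → T.card + S.card ≤ k := by
    intro f h4 h5 S hS
    have hd : Disjoint T S := by
      rw [disjoint_left]
      intro v hv hv'
      have g1 := (hTf f h4 h5 v hv).2
      have g2 := lo_one (hS v hv').1
      omega
    have hsub : T ∪ S ⊆ EV G f := by
      apply union_subset
      · intro v hv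
        exact (hTf f h4 h5 v hv).1
      · intro v hv
        obtain ⟨g1, g2, g3⟩ := hS v hv
        have t := hG.dist_triangle (u := f) (v := z) (w := v)
        have e3 := lo_one h4.symm
        have e4 := lo_one g1
        have hpos : 0 < G.dist f v := by
          rw [Nat.pos_iff_ne_zero]
          intro h0
          exact g2 (hG.dist_eq_zero_iff.1 h0).symm
        have hne1 : G.dist f v ≠ 1 := fun h => g3 (SimpleGraph.dist_eq_one_iff_adj.1 h)
        exact lo_mem_EV (d := 2) (by omega) ⟨1, rfl⟩ (by omega)
    have h6 := card_le_card hsub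
    rw [card_union_of_disjoint hd] at h6
    exact le_trans h6 (hE f)
  -- a gate adjacent to `b` or to `y`
  obtain ⟨f, hzf, hfq, hfby⟩ : ∃ f, G.Adj z f ∧ G.dist f q = 2 ∧ (G.Adj b f ∨ G.Adj y f) := by
    obtain ⟨f0, u, ⟨k1, k2, k3, k4⟩, k5⟩ := exists_GP hG hq3
    by_contra hcon
    push Not at hcon
    obtain ⟨m1, m2, m3⟩ := hM q f0 hq3 hqb hqy k1 k5
    have hqz : G.dist q z = 3 := by rw [SimpleGraph.dist_comm]; exact hq3
    have h6 := hcmin q u f0 z ⟨k3.symm, k2.symm, k1.symm, hqz⟩
    have h7 : ∀ f ∈ G.neighborFinset u ∩ G.neighborFinset z, G.Adj z f ∧ G.dist f q = 2 := by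
      intro f hf
      rw [mem_inter, SimpleGraph.mem_neighborFinset, SimpleGraph.mem_neighborFinset] at hf
      have t1 := hG.dist_triangle (u := f) (v := u) (w := q)
      have t2 := hG.dist_triangle (u := z) (v := f) (w := q)
      have e3 := lo_one hf.1.symm
      have e4 := lo_one hf.2
      have e5 := lo_one k3
      exact ⟨hf.2, by omega⟩
    have h8 : G.neighborFinset u ∩ G.neighborFinset z ⊆ Om := by
      intro f hf
      obtain ⟨g1, g2⟩ := h7 f hf
      obtain ⟨g3, g4⟩ := hcon f g1 g2
      have e3 := lo_one g1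
      rw [memOm]
      refine ⟨hball f (by omega), ?_⟩
      rintro ((h | h) | (h | h))
      · rw [h] at g2; omega
      · exact g3 h
      · rw [h] at g2; omega
      · exact g4 h
    have hd : Disjoint (G.neighborFinset u ∩ G.neighborFinset z)
        (G.neighborFinset f0 ∩ G.neighborFinset q) := by
      rw [disjoint_left]
      intro v hv hv'
      have g1 := lo_one (h7 v hv).1
      have g2 := (m3 v hv').1
      omega
    have h9 := card_le_card (union_subset h8 m1)
    rw [card_union_of_disjoint hd] at h9
    omega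
  obtain ⟨m1, m2, m3⟩ := hM q f hq3 hqb hqy hzf hfq
  set M := G.neighborFinset f ∩ G.neighborFinset q with hMdef
  have hMz : M ⊆ EV G z := fun w hw => lo_mem_EV (m3 w hw).1 ⟨1, rfl⟩ (by omega)
  have hMside : ∀ a, G.Adj a f → 3 ≤ G.dist a q → M ⊆ EV G a := by
    intro a h1 h2 w hw
    obtain ⟨_, g2, g3⟩ := m3 w hw
    have t1 := hG.dist_triangle (u := a) (v := f) (w := w)
    have t2 := hG.dist_triangle (u := a) (v := w) (w := q)
    have e3 := lo_one h1
    have e4 := lo_one g2
    have e5 := lo_one g3
    exact lo_mem_EV (d := 2) (by omega) ⟨1, rfl⟩ (by omega)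
  have hTk : T.card ≤ k := by
    have := hTN f hzf hfq ∅ (by simp)
    simpa using this
  by_cases hfb : G.Adj b f
  · have hMb := hMside b hfb hqb
    by_cases hfy : G.Adj y f
    · have hMy := hMside y hfy hqy
      have hsub : EV G b ∪ EV G z ∪ EV G y ⊆ (EV G b \ M) ∪ EV G z ∪ (EV G y \ M) := by
        intro v hv
        rw [mem_union, mem_union] at hv
        rw [mem_union, mem_union, mem_sdiff, mem_sdiff]
        by_cases hvM : v ∈ M
        · left; right; exact hMz hvM
        · rcases hv with (h | h) | h
          · left; left; exact ⟨h, hvM⟩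
          · left; right; exact h
          · right; exact ⟨h, hvM⟩
      have h1 := card_le_card hsub
      have h2 := card_union_le ((EV G b \ M) ∪ EV G z) (EV G y \ M)
      have h3 := card_union_le (EV G b \ M) (EV G z)
      have h4 := card_sdiff_add_card_eq_card hMb
      have h5 := card_sdiff_add_card_eq_card hMy
      omega
    · have hyf : y ≠ f := by
        rintro rfl
        omega
      have h6 := hTN f hzf hfq {y} (by
        intro v hv
        rw [mem_singleton] at hv
        subst hv
        exact ⟨hzy, hyf, fun h => hfy h.symm⟩)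
      rw [card_singleton] at h6
      have hsub : EV G b ∪ EV G z ∪ EV G y ⊆ (EV G b \ M) ∪ EV G z ∪ EV G y := by
        intro v hv
        rw [mem_union, mem_union] at hv
        rw [mem_union, mem_union, mem_sdiff]
        by_cases hvM : v ∈ M
        · left; right; exact hMz hvM
        · rcases hv with (h | h) | h
          · left; left; exact ⟨h, hvM⟩
          · left; right; exact h
          · right; exact h
      have h1 := card_le_card hsub
      have h2 := card_union_le ((EV G b \ M) ∪ EV G z) (EV G y)
      have h3 := card_union_le (EV G b \ M) (EV G z)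
      have h4 := card_sdiff_add_card_eq_card hMb
      omega
  · have hfy : G.Adj y f := by
      rcases hfby with h | h
      · exact absurd h hfb
      · exact h
    have hMy := hMside y hfy hqy
    have hbf : b ≠ f := by
      rintro rfl
      omega
    have h6 := hTN f hzf hfq {b} (by
      intro v hv
      rw [mem_singleton] at hv
      subst hv
      exact ⟨hbz.symm, hbf, fun h => hfb h.symm⟩)
    rw [card_singleton] at h6
    have hsub : EV G b ∪ EV G z ∪ EV G y ⊆ EV G b ∪ EV G z ∪ (EV G y \ M) := by
      intro v hv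
      rw [mem_union, mem_union] at hv
      rw [mem_union, mem_union, mem_sdiff]
      by_cases hvM : v ∈ M
      · left; right; exact hMz hvM
      · rcases hv with (h | h) | h
        · left; left; exact h
        · left; right; exact h
        · right; exact ⟨h, hvM⟩
    have h1 := card_le_card hsub
    have h2 := card_union_le (EV G b ∪ EV G z) (EV G y \ M)
    have h3 := card_union_le (EV G b) (EV G z)
    have h4 := card_sdiff_add_card_eq_card hMy
    omega

end Pool.Agent.MP5ce328
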