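import Pool.Agent.Lib.MP_5ce328_co.Core

namespace Pool.Agent.MP5ce328

open Finset

variable {V : Type*} {G : SimpleGraph V}

/-- vertices at positive even distance -/
noncomputable def EV [Fintype V] (G : SimpleGraph V) (u : V) : Finset V := by
  classical exact univ.filter (fun v => v ≠ u ∧ Even (G.dist u v))

theorem mem_EV [Fintype V] {u v : V} : v ∈ EV G u ↔ v ≠ u ∧ Even (G.dist u v) := by
  unfold EV; simp

theorem dist_eq_two (hG : G.Connected) {u v : V} (h1 : v ≠ u) (h2 : ¬ G.Adj u v)
    (h3 : ∃ w, G.Adj u w ∧ G.Adj w v) : G.dist u v = 2 := by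
  obtain ⟨w, a, b⟩ := h3
  have h4 : G.dist u v ≤ 2 := by
    have := SimpleGraph.dist_le (SimpleGraph.Walk.cons a (SimpleGraph.Walk.cons b .nil))
    simpa using this
  have h5 : G.dist u v ≠ 0 := by
    intro h
    exact h1 ((hG.preconnected u v).dist_eq_zero_iff.1 h).symm
  have h6 : G.dist u v ≠ 1 := by
    intro h
    exact h2 (SimpleGraph.dist_eq_one_iff_adj.1 h)
  omega

theorem N2_sub_EV [Fintype V] (hG : G.Connected) (u : V) : N2 G u ⊆ EV G u := by
  intro v hv
  rw [mem_N2] at hv
  rw [mem_EV]
  refine ⟨hv.1, ?_⟩
  rw [dist_eq_two hG hv.1 hv.2.1 hv.2.2]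
  exact ⟨1, rfl⟩

/-- parity lemma -/
theorem LP.parity [Fintype V] {m k : ℕ} {x : ℕ → V} (C : LP G m x) (hG : G.Connected)
    (hE : ∀ v, (EV G v).card ≤ k) {h : V} (hh : Off m x h) {p : ℕ} (hp : p < m)
    (a : G.Adj h (x p)) (hall : ∀ g, Off m x g → ∀ q < m, G.Adj g (x q) → q = p) :
    m ≤ 2 * k + 1 := by
  classical
  have key : ∀ (u z : V) (c : G.Walk u z), ¬ Off m x u → Off m x z →
      G.dist u (x p) + 1 ≤ c.length := by
    intro u z c
    induction c with
    | nil => intro h1 h2; exact absurd h2 h1
    | @cons u v z b c ih =>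
      intro h1 h2
      rw [SimpleGraph.Walk.length_cons]
      by_cases hv : Off m x v
      · unfold Off at h1
        push Not at h1
        obtain ⟨q, hq, rfl⟩ := h1
        have := hall v hv q hq b.symm
        subst this
        rw [SimpleGraph.dist_self]
        omega
      · have h3 := ih hv h2
        have h4 := hG.dist_triangle (u := u) (v := v) (w := x p)
        have h5 : G.dist u v = 1 := SimpleGraph.dist_eq_one_iff_adj.2 b
        omega
  have hd : ∀ i < m, i ≠ p → G.dist (x i) h = G.dist (x i) (x p) + 1 := by
    intro i hi _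
    obtain ⟨c, hc⟩ := hG.exists_walk_length_eq_dist (x i) h
    have h1 := key _ _ c (by intro ho; exact ho i hi rfl) hh
    have h2 := hG.dist_triangle (u := x i) (v := x p) (w := h)
    have h3 : G.dist (x p) h = 1 := SimpleGraph.dist_eq_one_iff_adj.2 a.symm
    omega
  have hcard : ((range m).erase p).card ≤ (EV G h ∪ EV G (x p)).card := by
    refine card_le_of_inj C _ ?_ _ ?_
    · intro i hi
      rw [mem_erase, mem_range] at hi
      exact hi.2
    · intro i hi
      rw [mem_erase, mem_range] at hi
      have h1 := hd i hi.2 hi.1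
      rw [mem_union, mem_EV, mem_EV]
      rcases Nat.even_or_odd (G.dist (x i) (x p)) with h2 | h2
      · right
        exact ⟨fun he => hi.1 (C.inj _ hi.2 _ hp he), by rw [SimpleGraph.dist_comm]; exact h2⟩
      · left
        refine ⟨hh i hi.2, ?_⟩
        rw [SimpleGraph.dist_comm, h1]
        exact h2.add_one
  rw [card_erase_of_mem (mem_range.2 hp), card_range] at hcard
  have h1 := card_union_le (EV G h) (EV G (x p))
  have h2 := hE h
  have h3 := hE (x p)
  omega

/-- a crossing edge -/
theorem exists_cross {m : ℕ} {x : ℕ → V} (hG : G.Connected) {u z : V}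
    (hu : ¬ Off m x u) (hz : Off m x z) : ∃ i < m, ∃ v, Off m x v ∧ G.Adj v (x i) := by
  obtain ⟨c⟩ := hG.preconnected u z
  induction c with
  | nil => exact absurd hz hu
  | @cons u v z b c ih =>
    by_cases hv : Off m x v
    · unfold Off at hu
      push Not at hu
      obtain ⟨q, hq, rfl⟩ := hu
      exact ⟨q, hq, v, hv, b.symm⟩
    · exact ih hv hz

/-- off neighbours -/
noncomputable def NO [Fintype V] (G : SimpleGraph V) (m : ℕ) (x : ℕ → V) (u : V) : Finset V := by
  classical exact univ.filter (fun v => (v = u ∨ G.Adj u v) ∧ Off m x v)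

theorem mem_NO [Fintype V] {m : ℕ} {x : ℕ → V} {u v : V} :
    v ∈ NO G m x u ↔ (v = u ∨ G.Adj u v) ∧ Off m x v := by
  unfold NO; simp

theorem card_NO [Fintype V] [DecidableRel G.Adj] {m : ℕ} {x : ℕ → V} (C : LP G m x) {u : V}
    (hu : Off m x u) : G.degree u + 1 ≤ (NO G m x u).card + (W G m x u).card := by
  classical
  rw [← card_W_image C, ← SimpleGraph.card_neighborFinset_eq_degree]
  have h1 : insert u (G.neighborFinset u) ⊆ NO G m x u ∪ (W G m x u).image x := by
    intro v hv
    rw [mem_insert, SimpleGraph.mem_neighborFinset] at hv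
    rw [mem_union, mem_NO, mem_image]
    by_cases ho : Off m x v
    · left; exact ⟨hv, ho⟩
    · right
      unfold Off at ho
      push Not at ho
      obtain ⟨i, hi, rfl⟩ := ho
      rcases hv with hv | hv
      · exact absurd hv (hu i hi)
      · exact ⟨i, mem_W.2 ⟨hi, hv⟩, rfl⟩
  have h2 := card_le_card h1
  rw [card_insert_of_notMem (by rw [SimpleGraph.mem_neighborFinset]; exact G.irrefl)] at h2
  exact h2.trans (card_union_le _ _)

theorem conn_of_meet [Fintype V] {m : ℕ} {x : ℕ → V} {h : V} (hh : Off m x h)
    (hmeet : ∀ z, Off m x z → ∃ v, v ∈ NO G m x h ∧ v ∈ NO G m x z) : Conn G m x h := by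
  intro z hz
  obtain ⟨v, h1, h2⟩ := hmeet z hz
  rw [mem_NO] at h1 h2
  by_cases e : z = h
  · subst e
    exact ⟨[z], isP_one z, off_one hz, by simp, by simp, by simp, fun hc => absurd rfl hc⟩
  · by_cases e2 : G.Adj h z
    · exact ⟨[h, z], isP_two e2, off_two hz hh, by simp, by simp, by simp, fun _ => by simp⟩
    · have h3 : v ≠ h := by
        intro hv
        subst hv
        rcases h2.1 with h2 | h2
        · exact e h2.symm
        · exact e2 h2.symm
      have h4 : v ≠ z := by
        intro hv
        subst hv
        rcases h1.1 with h1 | h1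
        · exact e h1
        · exact e2 h1
      have a1 : G.Adj h v := by
        rcases h1.1 with h1 | h1
        · exact absurd h1 h3
        · exact h1
      have a2 : G.Adj z v := by
        rcases h2.1 with h2 | h2
        · exact absurd h2 h4
        · exact h2
      refine ⟨[h, v, z], ⟨?_, ?_⟩, ?_, by simp, by simp, by simp, fun _ => by simp⟩
      · simp [Ne.symm h3, Ne.symm e, h4]
      · simp [a1, a2.symm]
      · intro w hw
        simp only [List.mem_cons, List.not_mem_nil, or_false] at hw
        rcases hw with rfl | rfl | rfl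
        · exact hh
        · exact h1.2
        · exact hz

/-- **Theorem T1**, for a longest path which is not Hamiltonian -/
theorem four_mul_le [Fintype V] [DecidableRel G.Adj] {m k : ℕ} {x : ℕ → V} (C : LP G m x)
    (hG : G.Connected) (hdeg : ∀ v, k ≤ G.degree v) (hE : ∀ v, (EV G v).card ≤ k)
    (hmn : m < Fintype.card V) : 4 * k ≤ Fintype.card V := by
  classical
  have hN2 : ∀ v, (N2 G v).card ≤ k := fun v => (card_le_card (N2_sub_EV hG v)).trans (hE v)
  -- the off vertices
  set O : Finset V := univ.filter (fun v => Off m x v) with hO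
  have memO : ∀ v, v ∈ O ↔ Off m x v := by intro v; simp [hO]
  have hOc : O.card + m = Fintype.card V := by
    have h1 : ((range m).image x).card = m := by
      rw [card_image_of_injOn, card_range]
      intro i hi j hj h
      simp only [coe_range, Set.mem_Iio] at hi hj
      exact C.inj i hi j hj h
    have h2 : O = ((range m).image x)ᶜ := by
      ext v
      rw [memO, mem_compl, mem_image]
      unfold Off
      push Not
      simp only [mem_range]
    rw [h2, card_compl, h1]
    omega
  have hOne : O.Nonempty := by rw [← card_pos]; omega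
  obtain ⟨h, hhO, hmax⟩ := exists_max_image O (fun v => (W G m x v).card) hOne
  have hh : Off m x h := (memO h).1 hhO
  -- r is positive
  have hr : 0 < (W G m x h).card := by
    obtain ⟨i, hi, v, hv, a⟩ := exists_cross hG (u := x 0) (z := h)
      (fun ho => ho 0 C.pos rfl) hh
    have h1 : 0 < (W G m x v).card := card_pos.2 ⟨i, mem_W.2 ⟨hi, a⟩⟩
    exact lt_of_lt_of_le h1 (hmax v ((memO v).2 hv))
  have hne : (W G m x h).Nonempty := card_pos.1 hr
  have hr1 := C.lemma1 hh hne
  have hk := hN2 h
  -- the second off vertex
  obtain ⟨h', hh', b⟩ : ∃ h', Off m x h' ∧ G.Adj h' h := by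
    by_contra hc
    push Not at hc
    have h1 := card_W C h (fun v a => by
      by_contra hc'
      push Not at hc'
      exact hc v hc' a.symm)
    have := hdeg h
    omega
  -- the far ends
  obtain ⟨y, D, S, fa, fb⟩ := C.far_both hh hh' b hne hk hdeg
  have hrc : ∀ u, (W G m y u).card = (W G m x u).card := fun u => (card_W_same C D S u).symm
  have gh : Off m y h := S.off hh
  have gh' : Off m y h' := S.off hh'
  have hne' : (W G m y h).Nonempty := by rw [← card_pos, hrc]; exact hr
  have hc1 := D.count1 gh hne' fa fb (hdeg _) (hdeg _)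
  rw [hrc] at hc1
  have hNO : ∀ z, Off m y z → k + 1 ≤ (NO G m y z).card + (W G m x h).card := by
    intro z hz
    have h1 := card_NO D hz
    rw [hrc] at h1
    have h2 := hmax z ((memO z).2 (S.symm.off hz))
    have h3 := hdeg z
    omega
  have hsub : ∀ z, NO G m y z ⊆ O := by
    intro z v hv
    exact (memO v).2 (S.symm.off (mem_NO.1 hv).2)
  by_cases hmeet : ∀ z, Off m y z → ∃ v, v ∈ NO G m y h ∧ v ∈ NO G m y z
  · have hC : Conn G m y h := conn_of_meet gh hmeet
    have h5 := hNO h gh
    have h6 := card_le_card (hsub h)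
    -- orientation
    have main : ∀ z : ℕ → V, LP G m z → Same m y z → Far G h (z 0) → Far G h (z (m - 1)) →
        (2 ≤ (W G m z h).card ∨ ∃ g q, Off m z g ∧ g ≠ h ∧ G.Adj g (z q) ∧ q < m ∧
          ∀ p ∈ W G m z h, p < q) → 4 * k ≤ Fintype.card V := by
      intro z Z T ga gb alt
      have hC' : Conn G m z h := by
        intro w hw
        obtain ⟨e, he1, he2, he3⟩ := hC w (T.symm.off hw)
        exact ⟨e, he1, fun v hv => T.off (he2 v hv), he3⟩
      have e1 : (W G m z h).card = (W G m x h).card := by
        rw [← hrc]; exact (card_W_same D Z T h).symm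
      have := Z.core hdeg hN2 (T.off gh) (T.off gh') b
        (by rw [← card_pos, e1]; exact hr) ga gb hC' alt
      rw [e1] at this
      omega
    by_cases h2 : 2 ≤ (W G m y h).card
    · exact main y D (fun v => Iff.rfl) fa fb (Or.inl h2)
    · have h1 : (W G m y h).card = 1 := by
        have := card_pos.2 hne'
        omega
      obtain ⟨p, hp⟩ := card_eq_one.1 h1
      have hpW : p ∈ W G m y h := by rw [hp]; exact mem_singleton_self p
      have hpa := mem_W.1 hpW
      by_cases hall : ∀ g, Off m y g → ∀ q < m, G.Adj g (y q) → q = p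
      · have := D.parity hG hE gh hpa.1 hpa.2 hall
        omega
      · push Not at hall
        obtain ⟨g, hg, q, hq, a, hqp⟩ := hall
        have hgh : g ≠ h := by
          intro he
          subst he
          have : q ∈ W G m y g := mem_W.2 ⟨hq, a⟩
          rw [hp, mem_singleton] at this
          exact hqp this
        rcases Nat.lt_or_gt_of_ne hqp with hlt | hgt
        · refine main _ D.rev (same_rev y) ?_ ?_ (Or.inr ⟨g, m - 1 - q, (same_rev y).off hg, hgh,
            ?_, by omega, ?_⟩)
          · simpa using fb
          · simpa using fa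
          · rw [show m - 1 - (m - 1 - q) = q by omega]; exact a
          · intro p' hp'
            have hp'' := mem_W.1 hp'
            have : m - 1 - p' ∈ W G m y h := mem_W.2 ⟨by omega, hp''.2⟩
            rw [hp, mem_singleton] at this
            omega
        · refine main y D (fun v => Iff.rfl) fa fb (Or.inr ⟨g, q, hg, hgh, a, hq, ?_⟩)
          intro p' hp'
          rw [hp, mem_singleton] at hp'
          omega
  · push Not at hmeet
    obtain ⟨z, hz, hdis⟩ := hmeet
    have h1 := hNO z hz
    have h2 := hNO h gh
    have h3 : Disjoint (NO G m y h) (NO G m y z) := by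
      rw [disjoint_left]
      intro v hv hv'
      exact hdis v hv hv'
    have h4 := card_le_card (union_subset (hsub h) (hsub z))
    rw [card_union_of_disjoint h3] at h4
    omega

end Pool.Agent.MP5ce328
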