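import Pool.Agent.Lib.MP_5ce328_co.Route

namespace Pool.Agent.MP5ce328

variable {V : Type*} {G : SimpleGraph V}

theorem isP_one (h : V) : IsP G [h] := ⟨by simp, by simp⟩

theorem isP_two {h h' : V} (a : G.Adj h' h) : IsP G [h', h] := ⟨by simp [a.ne], by simp [a]⟩

theorem ext1 {x : ℕ → V} {m : ℕ} {h : V} : ext x m [h] m = h := by simp [ext]
theorem ext2a {x : ℕ → V} {m : ℕ} {h h' : V} : ext x m [h', h] m = h' := by simp [ext]
theorem ext2b {x : ℕ → V} {m : ℕ} {h h' : V} : ext x m [h', h] (m + 1) = h := by simp [ext]

theorem off_one {m : ℕ} {x : ℕ → V} {h : V} (hh : Off m x h) : ∀ v ∈ [h], Off m x v := by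
  intro v hv; simp only [List.mem_singleton] at hv; subst hv; exact hh

theorem off_two {m : ℕ} {x : ℕ → V} {h h' : V} (hh : Off m x h) (hh' : Off m x h') :
    ∀ v ∈ [h', h], Off m x v := by
  intro v hv
  simp only [List.mem_cons, List.not_mem_nil, or_false] at hv
  rcases hv with rfl | rfl
  · exact hh'
  · exact hh

variable {m : ℕ} {x : ℕ → V}

theorem LP.not_first (C : LP G m x) {h : V} (hh : Off m x h) : ¬ G.Adj h (x 0) := by
  intro a
  have hm := C.pos
  have := C.count [h] (isP_one h) (off_one hh) [(m, m), (0, m - 1)] (by simp; omega)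
    (by simp [Dis]; omega)
    (by simp only [List.isChain_cons_cons, List.isChain_singleton, and_true]
        rw [ext1, ext_lt (by omega)]; exact a)
  simp [len] at this; omega

theorem LP.not_last (C : LP G m x) {h : V} (hh : Off m x h) : ¬ G.Adj h (x (m - 1)) := by
  intro a
  have hm := C.pos
  have := C.count [h] (isP_one h) (off_one hh) [(0, m - 1), (m, m)] (by simp; omega)
    (by simp [Dis]; omega)
    (by simp only [List.isChain_cons_cons, List.isChain_singleton, and_true]
        rw [ext1, ext_lt (by omega)]; exact a.symm)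
  simp [len] at this; omega

/-- insertion of an off path between two consecutive vertices -/
theorem LP.not_insert (C : LP G m x) {e : List V} (he : IsP G e) (hoff : ∀ v ∈ e, Off m x v)
    {h g : V} (hne : 1 ≤ e.length) (h0 : e.getD 0 (x 0) = h) (h1 : e.getD (e.length - 1) (x 0) = g)
    {p : ℕ} (hp : p + 1 < m) (a1 : G.Adj h (x p)) (a2 : G.Adj g (x (p + 1))) : False := by
  have := C.count e he hoff [(0, p), (m, m + (e.length - 1)), (p + 1, m - 1)] (by simp; omega)
    (by simp [Dis]; omega)
    (by simp only [List.isChain_cons_cons, List.isChain_singleton, and_true]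
        refine ⟨?_, ?_⟩
        · rw [ext_m, ext_lt (by omega), h0]; exact a1.symm
        · rw [ext_ge, ext_lt (by omega), h1]; exact a2)
  simp [len] at this; omega

theorem LP.not_consec (C : LP G m x) {h : V} (hh : Off m x h) {p : ℕ} (hp : p + 1 < m)
    (a1 : G.Adj h (x p)) (a2 : G.Adj h (x (p + 1))) : False :=
  C.not_insert (isP_one h) (off_one hh) (by simp) (by simp) (by simp) hp a1 a2

/-- successors of neighbours of an off vertex are not adjacent -/
theorem LP.not_succ (C : LP G m x) {h : V} (hh : Off m x h) {i j : ℕ} (hij : i < j) (hj : j + 1 < m)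
    (a1 : G.Adj h (x i)) (a2 : G.Adj h (x j)) (a3 : G.Adj (x (i + 1)) (x (j + 1))) : False := by
  have := C.count [h] (isP_one h) (off_one hh) [(0, i), (m, m), (j, i + 1), (j + 1, m - 1)]
    (by simp; omega) (by simp [Dis]; omega)
    (by simp only [List.isChain_cons_cons, List.isChain_singleton, and_true]
        refine ⟨?_, ?_, ?_⟩
        · rw [ext1, ext_lt (by omega)]; exact a1.symm
        · rw [ext1, ext_lt (by omega)]; exact a2
        · rw [ext_lt (by omega), ext_lt (by omega)]; exact a3)
  simp [len] at this; omega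

theorem LP.not_first_succ (C : LP G m x) {h : V} (hh : Off m x h) {w : ℕ} (hw : w + 1 < m)
    (a1 : G.Adj h (x w)) (a2 : G.Adj (x 0) (x (w + 1))) : False := by
  have := C.count [h] (isP_one h) (off_one hh) [(m, m), (w, 0), (w + 1, m - 1)]
    (by simp; omega) (by simp [Dis]; omega)
    (by simp only [List.isChain_cons_cons, List.isChain_singleton, and_true]
        refine ⟨?_, ?_⟩
        · rw [ext1, ext_lt (by omega)]; exact a1
        · rw [ext_lt (by omega), ext_lt (by omega)]; exact a2)
  simp [len] at this; omega

theorem LP.not_last_pred (C : LP G m x) {h : V} (hh : Off m x h) {w : ℕ} (hw : w + 1 < m)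
    (a1 : G.Adj h (x (w + 1))) (a2 : G.Adj (x (m - 1)) (x w)) : False := by
  have := C.count [h] (isP_one h) (off_one hh) [(0, w), (m - 1, w + 1), (m, m)]
    (by simp; omega) (by simp [Dis]; omega)
    (by simp only [List.isChain_cons_cons, List.isChain_singleton, and_true]
        refine ⟨?_, ?_⟩
        · rw [ext_lt (by omega), ext_lt (by omega)]; exact a2.symm
        · rw [ext1, ext_lt (by omega)]; exact a1.symm)
  simp [len] at this; omega

/-- a tail of two vertices -/
theorem LP.not_first_succ2 (C : LP G m x) {h h' : V} (hh : Off m x h) (hh' : Off m x h')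
    (a : G.Adj h' h) {w : ℕ} (hw : w + 2 < m)
    (a1 : G.Adj h (x w)) (a2 : G.Adj (x 0) (x (w + 2))) : False := by
  have := C.count [h', h] (isP_two a) (off_two hh hh') [(m, m + 1), (w, 0), (w + 2, m - 1)]
    (by simp; omega) (by simp [Dis]; omega)
    (by simp only [List.isChain_cons_cons, List.isChain_singleton, and_true]
        refine ⟨?_, ?_⟩
        · rw [ext2b, ext_lt (by omega)]; exact a1
        · rw [ext_lt (by omega), ext_lt (by omega)]; exact a2)
  simp [len] at this; omega

/-- the rotated end is not adjacent to an off vertex -/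
theorem LP.not_rot (C : LP G m x) {h : V} (hh : Off m x h) {i : ℕ} (hi : i + 1 < m)
    (a1 : G.Adj h (x i)) (a2 : G.Adj (x 0) (x (i + 1))) : False :=
  C.not_first_succ hh hi a1 a2

/-- a cycle through all vertices of the path -/
theorem LP.not_cycle (C : LP G m x) {h : V} (hh : Off m x h) {i p : ℕ} (hi : i + 1 < m)
    (hp : p < m) (a : G.Adj h (x p)) (a1 : G.Adj (x (m - 1)) (x i))
    (a2 : G.Adj (x 0) (x (i + 1))) : False := by
  have hm := C.pos
  rcases Nat.lt_trichotomy p i with h1 | h1 | h1
  · have := C.count [h] (isP_one h) (off_one hh) [(m, m), (p, 0), (i + 1, m - 1), (i, p + 1)]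
      (by simp; omega) (by simp [Dis]; omega)
      (by simp only [List.isChain_cons_cons, List.isChain_singleton, and_true]
          refine ⟨?_, ?_, ?_⟩
          · rw [ext1, ext_lt (by omega)]; exact a
          · rw [ext_lt (by omega), ext_lt (by omega)]; exact a2
          · rw [ext_lt (by omega), ext_lt (by omega)]; exact a1)
    simp [len] at this; omega
  · subst h1
    have := C.count [h] (isP_one h) (off_one hh) [(m, m), (p, 0), (p + 1, m - 1)]
      (by simp; omega) (by simp [Dis]; omega)
      (by simp only [List.isChain_cons_cons, List.isChain_singleton, and_true]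
          refine ⟨?_, ?_⟩
          · rw [ext1, ext_lt (by omega)]; exact a
          · rw [ext_lt (by omega), ext_lt (by omega)]; exact a2)
    simp [len] at this; omega
  · rcases Nat.lt_or_ge (i + 1) p with h2 | h2
    · have := C.count [h] (isP_one h) (off_one hh) [(m, m), (p, m - 1), (i, 0), (i + 1, p - 1)]
        (by simp; omega) (by simp [Dis]; omega)
        (by simp only [List.isChain_cons_cons, List.isChain_singleton, and_true]
            refine ⟨?_, ?_, ?_⟩
            · rw [ext1, ext_lt (by omega)]; exact a
            · rw [ext_lt (by omega), ext_lt (by omega)]; exact a1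
            · rw [ext_lt (by omega), ext_lt (by omega)]; exact a2)
      simp [len] at this; omega
    · have h3 : p = i + 1 := by omega
      subst h3
      have := C.count [h] (isP_one h) (off_one hh) [(m, m), (i + 1, m - 1), (i, 0)]
        (by simp; omega) (by simp [Dis]; omega)
        (by simp only [List.isChain_cons_cons, List.isChain_singleton, and_true]
            refine ⟨?_, ?_⟩
            · rw [ext1, ext_lt (by omega)]; exact a
            · rw [ext_lt (by omega), ext_lt (by omega)]; exact a1)
      simp [len] at this; omega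

/-- a cycle through all but one vertex, with a tail of two -/
theorem LP.not_cycle2 (C : LP G m x) {h h' : V} (hh : Off m x h) (hh' : Off m x h')
    (b : G.Adj h' h) {i p : ℕ} (hi : i + 2 < p)
    (hp : p < m) (a : G.Adj h (x p)) (a1 : G.Adj (x (m - 1)) (x i))
    (a2 : G.Adj (x 0) (x (i + 2))) : False := by
  have := C.count [h', h] (isP_two b) (off_two hh hh')
    [(m, m + 1), (p, m - 1), (i, 0), (i + 2, p - 1)]
    (by simp; omega) (by simp [Dis]; omega)
    (by simp only [List.isChain_cons_cons, List.isChain_singleton, and_true]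
        refine ⟨?_, ?_, ?_⟩
        · rw [ext2b, ext_lt (by omega)]; exact a
        · rw [ext_lt (by omega), ext_lt (by omega)]; exact a1
        · rw [ext_lt (by omega), ext_lt (by omega)]; exact a2)
  simp [len] at this; omega

theorem LP.m1 (C : LP G m x) {h : V} (hh : Off m x h) {i p : ℕ} (hi : i + 1 ≤ p)
    (hp : p + 1 < m) (a : G.Adj h (x p)) (a1 : G.Adj (x (p + 1)) (x i))
    (a2 : G.Adj (x 0) (x (i + 1))) : False := by
  have := C.count [h] (isP_one h) (off_one hh) [(m, m), (p, i + 1), (0, i), (p + 1, m - 1)]
    (by simp; omega) (by simp [Dis]; omega)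
    (by simp only [List.isChain_cons_cons, List.isChain_singleton, and_true]
        refine ⟨?_, ?_, ?_⟩
        · rw [ext1, ext_lt (by omega)]; exact a
        · rw [ext_lt (by omega), ext_lt (by omega)]; exact a2.symm
        · rw [ext_lt (by omega), ext_lt (by omega)]; exact a1.symm)
  simp [len] at this; omega

theorem LP.m3 (C : LP G m x) {h : V} (hh : Off m x h) {i p : ℕ} (hi : i + 1 ≤ p)
    (hp : p + 1 < m) (a : G.Adj h (x p)) (a1 : G.Adj (x (p + 1)) (x (i + 1)))
    (a2 : G.Adj (x (m - 1)) (x i)) : False := by
  have := C.count [h] (isP_one h) (off_one hh) [(0, i), (m - 1, p + 1), (i + 1, p), (m, m)]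
    (by simp; omega) (by simp [Dis]; omega)
    (by simp only [List.isChain_cons_cons, List.isChain_singleton, and_true]
        refine ⟨?_, ?_, ?_⟩
        · rw [ext_lt (by omega), ext_lt (by omega)]; exact a2.symm
        · rw [ext_lt (by omega), ext_lt (by omega)]; exact a1
        · rw [ext1, ext_lt (by omega)]; exact a.symm)
  simp [len] at this; omega

theorem LP.m4 (C : LP G m x) {h : V} (hh : Off m x h) {i p : ℕ} (hi : p + 1 ≤ i)
    (hp : i + 1 < m) (a : G.Adj h (x p)) (a1 : G.Adj (x (p + 1)) (x (i + 1)))
    (a2 : G.Adj (x 0) (x i)) : False := by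
  have := C.count [h] (isP_one h) (off_one hh) [(m, m), (p, 0), (i, p + 1), (i + 1, m - 1)]
    (by simp; omega) (by simp [Dis]; omega)
    (by simp only [List.isChain_cons_cons, List.isChain_singleton, and_true]
        refine ⟨?_, ?_, ?_⟩
        · rw [ext1, ext_lt (by omega)]; exact a
        · rw [ext_lt (by omega), ext_lt (by omega)]; exact a2
        · rw [ext_lt (by omega), ext_lt (by omega)]; exact a1)
  simp [len] at this; omega

/-- the path through the cycle on the second part, which leaves out one vertex -/
theorem LP.m6 (C : LP G m x) {e : List V} (he : IsP G e) (hoff : ∀ v ∈ e, Off m x v)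
    {h g : V} (hne : 1 ≤ e.length) (h0 : e.getD 0 (x 0) = h) (h1 : e.getD (e.length - 1) (x 0) = g)
    {i p q : ℕ} (hi : p + 1 ≤ i) (him : i + 2 < m) (hq1 : p + 2 ≤ q) (hq2 : q + 1 < m)
    (hqi : q ≠ i + 1) (a : G.Adj h (x p)) (b : G.Adj g (x q))
    (a1 : G.Adj (x (p + 1)) (x (i + 2))) (a2 : G.Adj (x (m - 1)) (x i)) :
    ∃ l : List V, IsP G l ∧ l.length = m - 1 + e.length ∧
      (∀ v, v ∈ l ↔ v ∈ e ∨ ∃ j < m, j ≠ i + 1 ∧ x j = v) := by
  have key : ∃ L : List (ℕ × ℕ), IsP G ((cat L).map (ext x m e)) ∧
      (L.map len).sum = m - 1 + e.length ∧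
      ∀ j, j ∈ cat L ↔ (j < m ∧ j ≠ i + 1) ∨ (m ≤ j ∧ j < m + e.length) := by
    rcases Nat.lt_or_ge i q with h2 | h2
    · refine ⟨[(0, p), (m, m + (e.length - 1)), (q, i + 2), (p + 1, i), (m - 1, q + 1)], ?_, ?_, ?_⟩
      · refine C.build e he hoff _ (by simp; omega) (by simp [Dis]; omega) ?_
        simp only [List.isChain_cons_cons, List.isChain_singleton, and_true]
        refine ⟨?_, ?_, ?_, ?_⟩
        · rw [ext_m, ext_lt (by omega), h0]; exact a.symm
        · rw [ext_ge, ext_lt (by omega), h1]; exact b
        · rw [ext_lt (by omega), ext_lt (by omega)]; exact a1.symm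
        · rw [ext_lt (by omega), ext_lt (by omega)]; exact a2.symm
      · simp [len]; omega
      · intro j
        rw [mem_cat]
        simp only [List.mem_cons, List.not_mem_nil, or_false, exists_eq_or_imp, exists_eq_left,
          mem_seg]
        omega
    · refine ⟨[(0, p), (m, m + (e.length - 1)), (q, i), (m - 1, i + 2), (p + 1, q - 1)], ?_, ?_, ?_⟩
      · refine C.build e he hoff _ (by simp; omega) (by simp [Dis]; omega) ?_
        simp only [List.isChain_cons_cons, List.isChain_singleton, and_true]
        refine ⟨?_, ?_, ?_, ?_⟩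
        · rw [ext_m, ext_lt (by omega), h0]; exact a.symm
        · rw [ext_ge, ext_lt (by omega), h1]; exact b
        · rw [ext_lt (by omega), ext_lt (by omega)]; exact a2.symm
        · rw [ext_lt (by omega), ext_lt (by omega)]; exact a1.symm
      · simp [len]; omega
      · intro j
        rw [mem_cat]
        simp only [List.mem_cons, List.not_mem_nil, or_false, exists_eq_or_imp, exists_eq_left,
          mem_seg]
        omega
  obtain ⟨L, hL1, hL2, hL3⟩ := key
  refine ⟨_, hL1, ?_, ?_⟩
  · rw [List.length_map, length_cat, hL2]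
  · intro v
    rw [List.mem_map]
    constructor
    · rintro ⟨j, hj, rfl⟩
      rw [hL3] at hj
      rcases hj with hj | hj
      · right
        exact ⟨j, hj.1, hj.2, (ext_lt hj.1).symm⟩
      · left
        unfold ext
        rw [if_neg (by omega), List.getD_eq_getElem e _ (by omega)]
        exact List.getElem_mem _
    · rintro (hv | ⟨j, hj1, hj2, rfl⟩)
      · obtain ⟨j, hj, rfl⟩ := List.getElem_of_mem hv
        refine ⟨m + j, (hL3 _).2 (by omega), ?_⟩
        rw [ext_ge, List.getD_eq_getElem e _ hj]
      · exact ⟨j, (hL3 _).2 (by omega), ext_lt hj1⟩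

end Pool.Agent.MP5ce328
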