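import Pool.Agent.Lib.MP_5ce328_co.BR_21

/-!
# Regular graphs

A connected `k`-regular graph in which every vertex has at most `k` vertices at positive even
distance has fewer than `4 * k` vertices.
-/

namespace Pool.Agent.MP5ce328

open Finset

variable {V : Type*} {G : SimpleGraph V}

/-- a vertex at given distance on a geodesic -/
theorem exists_between (hG : G.Connected) (u : V) (j : ℕ) :
    ∀ (n : ℕ) (v : V), G.dist u v = n → j ≤ n →
      ∃ w, G.dist u w = j ∧ G.dist w v + j = n := by
  intro n
  induction n with
  | zero =>
    intro v hv hj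
    exact ⟨v, by omega, by rw [SimpleGraph.dist_self]; omega⟩
  | succ n ih =>
    intro v hv hj
    rcases Nat.lt_or_ge n j with h | h
    · exact ⟨v, by omega, by rw [SimpleGraph.dist_self]; omega⟩
    · have hne : v ≠ u := by
        rintro rfl
        rw [SimpleGraph.dist_self] at hv
        omega
      obtain ⟨w, hw, hw'⟩ := br_next hG hne
      rw [SimpleGraph.dist_comm (u := w), SimpleGraph.dist_comm (u := v), hv] at hw'
      obtain ⟨q, hq, hq'⟩ := ih w (by omega) h
      refine ⟨q, hq, ?_⟩
      have h1 := hG.dist_triangle (u := q) (v := w) (w := v)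
      have h2 : G.dist w v = 1 := SimpleGraph.dist_eq_one_iff_adj.2 hw.symm
      have h3 := hG.dist_triangle (u := u) (v := q) (w := v)
      omega

/-- a geodesic path with four vertices -/
def GP (G : SimpleGraph V) (x b z y : V) : Prop :=
  G.Adj x b ∧ G.Adj b z ∧ G.Adj z y ∧ G.dist x y = 3

theorem exists_GP (hG : G.Connected) {u v : V} (h : G.dist u v = 3) :
    ∃ f g, GP G u f g v ∧ G.dist f v = 2 := by
  have h1 : u ≠ v := by rintro rfl; rw [SimpleGraph.dist_self] at h; omega
  obtain ⟨f, hf, hf'⟩ := br_next hG h1
  have h2 : f ≠ v := by rintro rfl; rw [SimpleGraph.dist_self] at hf'; omega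
  obtain ⟨g, hg, hg'⟩ := br_next hG h2
  exact ⟨f, g, ⟨hf, hg, SimpleGraph.dist_eq_one_iff_adj.1 (by omega), h⟩, by omega⟩

/-- the parity count around a path `b, z, y` -/
theorem card_le_of_no_far [Fintype V] [DecidableRel G.Adj] (hG : G.Connected) {k : ℕ}
    (hE : ∀ v, (EV G v).card ≤ k) {x b z y : V} (P : GP G x b z y) [DecidableEq V]
    (hfar : ∀ q, G.dist b q = G.dist z q → G.dist y q = G.dist z q → 3 ≤ G.dist z q → False) :
    Fintype.card V ≤ 3 * k + (G.neighborFinset b ∩ G.neighborFinset y).card := by
  classical
  obtain ⟨hxb, hbz, hzy, hxy⟩ := P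
  have hby : G.dist b y = 2 := by
    have h1 := hG.dist_triangle (u := x) (v := b) (w := y)
    have h2 := hG.dist_triangle (u := b) (v := z) (w := y)
    have h3 : G.dist x b = 1 := SimpleGraph.dist_eq_one_iff_adj.2 hxb
    have h4 : G.dist b z = 1 := SimpleGraph.dist_eq_one_iff_adj.2 hbz
    have h5 : G.dist z y = 1 := SimpleGraph.dist_eq_one_iff_adj.2 hzy
    omega
  set I := G.neighborFinset b ∩ G.neighborFinset y with hI
  have hzI : z ∈ I := by
    rw [hI, mem_inter, SimpleGraph.mem_neighborFinset, SimpleGraph.mem_neighborFinset]
    exact ⟨hbz, hzy.symm⟩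
  have hsub : (univ : Finset V) ⊆ (EV G b ∪ EV G z) ∪ (EV G y ∪ I) := by
    intro q _
    rw [mem_union, mem_union, mem_union, mem_EV, mem_EV, mem_EV]
    by_cases hqz : q = z
    · right; right; rw [hqz]; exact hzI
    by_cases hqb : q = b
    · right; left
      refine ⟨?_, ?_⟩
      · rintro rfl
        rw [← hqb, SimpleGraph.dist_self] at hby
        omega
      · rw [hqb, SimpleGraph.dist_comm, hby]; exact ⟨1, rfl⟩
    by_cases hqy : q = y
    · left; left
      refine ⟨hqb, ?_⟩
      rw [hqy, hby]; exact ⟨1, rfl⟩
    by_contra hc
    push Not at hc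
    obtain ⟨⟨h1, h2⟩, h3, h4⟩ := hc
    have h1' := h1 hqb
    have h2' := h2 hqz
    have h3' := h3 hqy
    rw [Nat.not_even_iff_odd] at h1' h2' h3'
    have e1 : G.dist b z = 1 := SimpleGraph.dist_eq_one_iff_adj.2 hbz
    have e2 : G.dist z y = 1 := SimpleGraph.dist_eq_one_iff_adj.2 hzy
    have t1 := hG.dist_triangle (u := b) (v := z) (w := q)
    have t2 := hG.dist_triangle (u := z) (v := b) (w := q)
    have t3 := hG.dist_triangle (u := y) (v := z) (w := q)
    have t4 := hG.dist_triangle (u := z) (v := y) (w := q)
    rw [SimpleGraph.dist_comm (u := z) (v := b)] at t2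
    rw [SimpleGraph.dist_comm (u := y) (v := z)] at t3
    obtain ⟨i1, i1'⟩ := h1'
    obtain ⟨i2, i2'⟩ := h2'
    obtain ⟨i3, i3'⟩ := h3'
    have a1 : G.dist b q = G.dist z q := by omega
    have a2 : G.dist y q = G.dist z q := by omega
    rcases Nat.lt_or_ge (G.dist z q) 3 with h | h
    · apply h4
      rw [hI, mem_inter, SimpleGraph.mem_neighborFinset, SimpleGraph.mem_neighborFinset]
      exact ⟨SimpleGraph.dist_eq_one_iff_adj.1 (by omega),
        SimpleGraph.dist_eq_one_iff_adj.1 (by omega)⟩
    · exact hfar q a1 a2 h
  have h1 := card_le_card hsub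
  rw [card_univ] at h1
  have h2 := card_union_le (EV G b ∪ EV G z) (EV G y ∪ I)
  have h3 := card_union_le (EV G b) (EV G z)
  have h4 := card_union_le (EV G y) I
  have := hE b
  have := hE z
  have := hE y
  omega

/-- **Regular graphs** -/
theorem regular_card_lt [Fintype V] [DecidableRel G.Adj] (hG : G.Connected) {k : ℕ} (hk : 1 ≤ k)
    (hdeg : ∀ v, G.degree v = k) (hE : ∀ v, (EV G v).card ≤ k) : Fintype.card V < 4 * k := by
  classical
  by_cases hex : ∃ ν x b z y, GP G x b z y ∧
      (G.neighborFinset b ∩ G.neighborFinset y).card = ν
  · obtain ⟨x, b, z, y, P, hν⟩ := Nat.find_spec hex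
    have hmin : ∀ x' b' z' y', GP G x' b' z' y' →
        (G.neighborFinset b ∩ G.neighborFinset y).card ≤
          (G.neighborFinset b' ∩ G.neighborFinset y').card := by
      intro x' b' z' y' P'
      rw [hν]
      exact Nat.find_min' hex ⟨x', b', z', y', P', rfl⟩
    obtain ⟨hxb, hbz, hzy, hxy⟩ := id P
    have e0 : G.dist x b = 1 := SimpleGraph.dist_eq_one_iff_adj.2 hxb
    have e1 : G.dist b z = 1 := SimpleGraph.dist_eq_one_iff_adj.2 hbz
    have e2 : G.dist z y = 1 := SimpleGraph.dist_eq_one_iff_adj.2 hzy
    have e1' : G.dist z b = 1 := by rw [SimpleGraph.dist_comm]; exact e1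
    have hby : G.dist b y = 2 := by
      have h1 := hG.dist_triangle (u := x) (v := b) (w := y)
      have h2 := hG.dist_triangle (u := b) (v := z) (w := y)
      omega
    -- no vertex at distance three from `z` is at distance at least three from `b` and `y`
    have key : ∀ q, G.dist z q = 3 → 3 ≤ G.dist b q → 3 ≤ G.dist y q → False := by
      intro q h1 h2 h3
      obtain ⟨f, g, Q, hfq⟩ := exists_GP hG h1
      have h4 := hmin _ _ _ _ Q
      obtain ⟨hzf, hfg, hgq, _⟩ := id Q
      set A := insert z (G.neighborFinset z) with hA
      set C := insert b (G.neighborFinset b) with hC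
      set D := insert y (G.neighborFinset y) with hD
      set M := G.neighborFinset f ∩ G.neighborFinset q with hM
      have e3 : G.dist z f = 1 := SimpleGraph.dist_eq_one_iff_adj.2 hzf
      have hsub : (C ∪ D) ∪ M ⊆ A ∪ EV G z := by
        intro v hv
        have hv2 : G.dist z v ≤ 2 := by
          rw [mem_union, mem_union, hC, hD, hM, mem_insert, mem_insert, mem_inter,
            SimpleGraph.mem_neighborFinset, SimpleGraph.mem_neighborFinset,
            SimpleGraph.mem_neighborFinset] at hv
          rcases hv with (h | h) | h
          · have t := hG.dist_triangle (u := z) (v := b) (w := v)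
            rcases h with h | h
            · subst h; omega
            · have : G.dist b v = 1 := SimpleGraph.dist_eq_one_iff_adj.2 h
              omega
          · have t := hG.dist_triangle (u := z) (v := y) (w := v)
            rcases h with h | h
            · subst h; omega
            · have : G.dist y v = 1 := SimpleGraph.dist_eq_one_iff_adj.2 h
              omega
          · have t := hG.dist_triangle (u := z) (v := f) (w := v)
            have : G.dist f v = 1 := SimpleGraph.dist_eq_one_iff_adj.2 h.1
            omega
        rw [mem_union, hA, mem_insert, SimpleGraph.mem_neighborFinset, mem_EV]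
        by_cases hvz : v = z
        · left; left; exact hvz
        have hpos : 0 < G.dist z v := by
          rw [Nat.pos_iff_ne_zero]
          intro h0
          exact hvz (hG.dist_eq_zero_iff.1 h0).symm
        rcases Nat.lt_or_ge (G.dist z v) 2 with h | h
        · left; right
          exact SimpleGraph.dist_eq_one_iff_adj.1 (by omega)
        · right
          refine ⟨hvz, ?_⟩
          have : G.dist z v = 2 := by omega
          rw [this]; exact ⟨1, rfl⟩
      have hdis : Disjoint (C ∪ D) M := by
        rw [disjoint_left]
        intro v hv hv'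
        rw [hM, mem_inter, SimpleGraph.mem_neighborFinset, SimpleGraph.mem_neighborFinset] at hv'
        have e4 : G.dist v q = 1 := SimpleGraph.dist_eq_one_iff_adj.2 hv'.2.symm
        rw [mem_union, hC, hD, mem_insert, mem_insert, SimpleGraph.mem_neighborFinset,
            SimpleGraph.mem_neighborFinset] at hv
        rcases hv with h | h
        · have t := hG.dist_triangle (u := b) (v := v) (w := q)
          rcases h with h | h
          · subst h; omega
          · have : G.dist b v = 1 := SimpleGraph.dist_eq_one_iff_adj.2 h
            omega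
        · have t := hG.dist_triangle (u := y) (v := v) (w := q)
          rcases h with h | h
          · subst h; omega
          · have : G.dist y v = 1 := SimpleGraph.dist_eq_one_iff_adj.2 h
            omega
      have hinter : C ∩ D ⊆ G.neighborFinset b ∩ G.neighborFinset y := by
        intro v hv
        rw [hC, hD, mem_inter, mem_insert, mem_insert, SimpleGraph.mem_neighborFinset,
          SimpleGraph.mem_neighborFinset] at hv
        rw [mem_inter, SimpleGraph.mem_neighborFinset, SimpleGraph.mem_neighborFinset]
        obtain ⟨h5 | h5, h6 | h6⟩ := hv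
        · exfalso
          rw [← h5, ← h6, SimpleGraph.dist_self] at hby
          omega
        · exfalso
          rw [h5] at h6
          have : G.dist y b = 1 := SimpleGraph.dist_eq_one_iff_adj.2 h6
          rw [SimpleGraph.dist_comm] at this
          omega
        · exfalso
          rw [h6] at h5
          have : G.dist b y = 1 := SimpleGraph.dist_eq_one_iff_adj.2 h5
          omega
        · exact ⟨h5, h6⟩
      have c1 := card_le_card hsub
      rw [card_union_of_disjoint hdis] at c1
      have c2 := card_union_le A (EV G z)
      have cz := hE z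
      have cA : A.card = k + 1 := by
        rw [hA, card_insert_of_notMem (by simp), SimpleGraph.card_neighborFinset_eq_degree, hdeg]
      have cC : C.card = k + 1 := by
        rw [hC, card_insert_of_notMem (by simp), SimpleGraph.card_neighborFinset_eq_degree, hdeg]
      have cD : D.card = k + 1 := by
        rw [hD, card_insert_of_notMem (by simp), SimpleGraph.card_neighborFinset_eq_degree, hdeg]
      have c3 := card_union_add_card_inter C D
      have c4 := card_le_card hinter
      omega
    have hfar : ∀ q, G.dist b q = G.dist z q → G.dist y q = G.dist z q → 3 ≤ G.dist z q →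
        False := by
      intro q h1 h2 h3
      obtain ⟨q', hq, hq'⟩ := exists_between hG z 3 _ q rfl h3
      have t1 := hG.dist_triangle (u := b) (v := q') (w := q)
      have t2 := hG.dist_triangle (u := y) (v := q') (w := q)
      exact key q' hq (by omega) (by omega)
    have h1 := card_le_of_no_far hG hE P hfar
    have h2 : (G.neighborFinset b ∩ G.neighborFinset y).card < k := by
      have h3 : G.neighborFinset b ∩ G.neighborFinset y ⊆ (G.neighborFinset b).erase x := by
        intro v hv
        rw [mem_inter, SimpleGraph.mem_neighborFinset, SimpleGraph.mem_neighborFinset] at hv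
        rw [mem_erase, SimpleGraph.mem_neighborFinset]
        refine ⟨?_, hv.1⟩
        rintro rfl
        have : G.dist y v = 1 := SimpleGraph.dist_eq_one_iff_adj.2 hv.2
        rw [SimpleGraph.dist_comm] at this
        omega
      have h4 := card_le_card h3
      rw [card_erase_of_mem (by rw [SimpleGraph.mem_neighborFinset]; exact hxb.symm),
        SimpleGraph.card_neighborFinset_eq_degree, hdeg] at h4
      omega
    omega
  · push Not at hex
    have hle : ∀ u v, G.dist u v ≤ 2 := by
      intro u v
      by_contra hc
      push Not at hc
      obtain ⟨w, hw, _⟩ := exists_between hG u 3 _ v rfl hc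
      obtain ⟨f, g, Q, _⟩ := exists_GP hG hw
      exact hex _ _ _ _ _ Q rfl
    obtain ⟨v⟩ := hG.nonempty
    have hsub : (univ : Finset V) ⊆ insert v (G.neighborFinset v) ∪ EV G v := by
      intro q _
      rw [mem_union, mem_insert, SimpleGraph.mem_neighborFinset, mem_EV]
      by_cases hqv : q = v
      · left; left; exact hqv
      have hpos : 0 < G.dist v q := by
        rw [Nat.pos_iff_ne_zero]
        intro h0
        exact hqv (hG.dist_eq_zero_iff.1 h0).symm
      have h2 := hle v q
      rcases Nat.lt_or_ge (G.dist v q) 2 with h | h
      · left; right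
        exact SimpleGraph.dist_eq_one_iff_adj.1 (by omega)
      · right
        refine ⟨hqv, ?_⟩
        have : G.dist v q = 2 := by omega
        rw [this]; exact ⟨1, rfl⟩
    have h1 := card_le_card hsub
    have h2 := card_union_le (insert v (G.neighborFinset v)) (EV G v)
    rw [card_univ] at h1
    rw [card_insert_of_notMem (by simp), SimpleGraph.card_neighborFinset_eq_degree, hdeg] at h2
    have := hE v
    omega

end Pool.Agent.MP5ce328
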