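import Mathlib

namespace Pool.Agent.MP5ce328

variable {V : Type*} {G : SimpleGraph V}

/-- a path of `G`, as a list of vertices -/
def IsP (G : SimpleGraph V) (l : List V) : Prop := l.Nodup ∧ l.IsChain G.Adj

/-- the natural numbers from `a` to `b`, upwards or downwards -/
def seg (a b : ℕ) : List ℕ :=
  if a ≤ b then List.range' a (b - a + 1) else (List.range' b (a - b + 1)).reverse

theorem mem_seg {a b i : ℕ} : i ∈ seg a b ↔ (a ≤ i ∧ i ≤ b) ∨ (b ≤ i ∧ i ≤ a) := by
  unfold seg
  split_ifs with h
  · simp only [List.mem_range'_1]; omega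
  · simp only [List.mem_reverse, List.mem_range'_1]; omega

theorem length_seg (a b : ℕ) : (seg a b).length = (a - b) + (b - a) + 1 := by
  unfold seg
  split_ifs with h
  · simp only [List.length_range']; omega
  · simp only [List.length_reverse, List.length_range']; omega

theorem nodup_seg (a b : ℕ) : (seg a b).Nodup := by
  unfold seg
  split_ifs with h
  · exact List.nodup_range'
  · exact List.nodup_reverse.2 List.nodup_range'

theorem seg_ne_nil (a b : ℕ) : seg a b ≠ [] := by
  intro h
  have := length_seg a b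
  rw [h] at this
  simp at this

theorem head_range' (a n : ℕ) : (List.range' a (n + 1)).head? = some a := by
  simp [List.range'_succ]

theorem last_range' (a n : ℕ) : (List.range' a (n + 1)).getLast? = some (a + n) := by
  rw [List.range'_1_concat]
  simp

theorem head_seg (a b : ℕ) : (seg a b).head? = some a := by
  unfold seg
  split_ifs with h
  · exact head_range' _ _
  · rw [List.head?_reverse, last_range']
    congr 1; omega

theorem last_seg (a b : ℕ) : (seg a b).getLast? = some b := by
  unfold seg
  split_ifs with h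
  · rw [last_range']
    congr 1; omega
  · rw [List.getLast?_reverse, head_range']

theorem chain_range' (R : ℕ → ℕ → Prop) (n : ℕ) : ∀ a, (∀ i, a ≤ i → i + 1 < a + n → R i (i + 1)) →
    (List.range' a n).IsChain R := by
  induction n with
  | zero => intro a _; simp
  | succ n ih =>
    intro a h
    rw [List.range'_succ, List.isChain_cons]
    refine ⟨?_, ih (a + 1) (fun i h1 h2 => h i (by omega) (by omega))⟩
    intro y hy
    cases n with
    | zero => simp at hy
    | succ n =>
      rw [head_range'] at hy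
      simp only [Option.mem_def, Option.some.injEq] at hy
      subst hy
      exact h a le_rfl (by omega)

theorem chain_seg (R : ℕ → ℕ → Prop) (hR : ∀ i j, R i j → R j i) (a b : ℕ)
    (h : ∀ i, (a ≤ i ∧ i < b) ∨ (b ≤ i ∧ i < a) → R i (i + 1)) : (seg a b).IsChain R := by
  unfold seg
  split_ifs with hab
  · exact chain_range' R _ a (fun i h1 h2 => h i (by omega))
  · rw [List.isChain_reverse]
    refine chain_range' _ _ b (fun i h1 h2 => ?_)
    exact hR _ _ (h i (by omega))

/-- the concatenation of directed segments -/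
def cat (L : List (ℕ × ℕ)) : List ℕ := L.flatMap (fun s => seg s.1 s.2)

theorem cat_cons (s : ℕ × ℕ) (L : List (ℕ × ℕ)) : cat (s :: L) = seg s.1 s.2 ++ cat L := rfl

/-- number of elements of a segment -/
def len (s : ℕ × ℕ) : ℕ := (s.1 - s.2) + (s.2 - s.1) + 1

def Dis (s t : ℕ × ℕ) : Prop :=
  (s.1 < t.1 ∧ s.1 < t.2 ∧ s.2 < t.1 ∧ s.2 < t.2) ∨ (t.1 < s.1 ∧ t.1 < s.2 ∧ t.2 < s.1 ∧ t.2 < s.2)

theorem mem_cat {L : List (ℕ × ℕ)} {i : ℕ} : i ∈ cat L ↔ ∃ s ∈ L, i ∈ seg s.1 s.2 := by
  unfold cat; simp

theorem length_cat (L : List (ℕ × ℕ)) : (cat L).length = (L.map len).sum := by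
  induction L with
  | nil => rfl
  | cons s L ih => rw [cat_cons, List.length_append, ih, length_seg]; simp [len]

theorem nodup_cat (L : List (ℕ × ℕ)) (h : L.Pairwise Dis) : (cat L).Nodup := by
  induction L with
  | nil => simp [cat]
  | cons s L ih =>
    rw [List.pairwise_cons] at h
    rw [cat_cons, List.nodup_append]
    refine ⟨nodup_seg _ _, ih h.2, ?_⟩
    intro i hi j hj hij
    subst hij
    obtain ⟨t, ht, hjt⟩ := mem_cat.1 hj
    have := h.1 t ht
    rw [mem_seg] at hi hjt
    unfold Dis at this
    omega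

theorem chain_cat (R : ℕ → ℕ → Prop) (hR : ∀ i j, R i j → R j i) (L : List (ℕ × ℕ))
    (hS : ∀ s ∈ L, ∀ i, (s.1 ≤ i ∧ i < s.2) ∨ (s.2 ≤ i ∧ i < s.1) → R i (i + 1))
    (hj : L.IsChain (fun s t => R s.2 t.1)) : (cat L).IsChain R := by
  induction L with
  | nil => simp [cat]
  | cons s L ih =>
    rw [cat_cons, List.isChain_append]
    rw [List.isChain_cons] at hj
    refine ⟨chain_seg R hR _ _ (hS s (by simp)), ih (fun t ht => hS t (by simp [ht])) hj.2, ?_⟩
    intro i hi j hj'
    rw [last_seg] at hi
    simp only [Option.mem_def, Option.some.injEq] at hi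
    subst hi
    cases L with
    | nil => simp [cat] at hj'
    | cons t L =>
      rw [cat_cons, List.head?_append, head_seg] at hj'
      simp only [Option.some_or, Option.mem_def, Option.some.injEq] at hj'
      subst hj'
      exact hj.1 t (by simp)

theorem route (x : ℕ → V) (L : List (ℕ × ℕ))
    (hinj : ∀ i ∈ cat L, ∀ j ∈ cat L, x i = x j → i = j)
    (hS : ∀ s ∈ L, ∀ i, (s.1 ≤ i ∧ i < s.2) ∨ (s.2 ≤ i ∧ i < s.1) → G.Adj (x i) (x (i + 1)))
    (hdis : L.Pairwise Dis) (hj : L.IsChain (fun s t => G.Adj (x s.2) (x t.1))) :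
    IsP G ((cat L).map x) := by
  refine ⟨?_, ?_⟩
  · rw [List.nodup_map_iff_inj_on (nodup_cat L hdis)]
    intro i hi j hj' h
    exact hinj i hi j hj' h
  · rw [List.isChain_map]
    exact chain_cat (fun i j => G.Adj (x i) (x j)) (fun _ _ h => h.symm) L hS hj

/-- a longest path, as a function on `[0, m)` -/
structure LP (G : SimpleGraph V) (m : ℕ) (x : ℕ → V) : Prop where
  pos : 0 < m
  inj : ∀ i < m, ∀ j < m, x i = x j → i = j
  adj : ∀ i, i + 1 < m → G.Adj (x i) (x (i + 1))
  max : ∀ l : List V, IsP G l → l.length ≤ m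

/-- `v` is not on the path -/
def Off (m : ℕ) (x : ℕ → V) (v : V) : Prop := ∀ i < m, x i ≠ v

def ext (x : ℕ → V) (m : ℕ) (e : List V) (i : ℕ) : V := if i < m then x i else e.getD (i - m) (x 0)

theorem ext_lt {x : ℕ → V} {m : ℕ} {e : List V} {i : ℕ} (h : i < m) : ext x m e i = x i := by
  simp [ext, h]

theorem ext_ge {x : ℕ → V} {m : ℕ} {e : List V} (j : ℕ) : ext x m e (m + j) = e.getD j (x 0) := by
  simp [ext]

theorem ext_m {x : ℕ → V} {m : ℕ} {e : List V} : ext x m e m = e.getD 0 (x 0) := by
  simp [ext]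

/-- the new path built from pieces of the longest path and of a path off it -/
theorem LP.build {m : ℕ} {x : ℕ → V} (C : LP G m x) (e : List V) (he : IsP G e)
    (hoff : ∀ v ∈ e, Off m x v) (L : List (ℕ × ℕ))
    (hL : ∀ s ∈ L, (s.1 < m ∧ s.2 < m) ∨
      (m ≤ s.1 ∧ m ≤ s.2 ∧ s.1 < m + e.length ∧ s.2 < m + e.length))
    (hdis : L.Pairwise Dis)
    (hj : L.IsChain (fun s t => G.Adj (ext x m e s.2) (ext x m e t.1))) :
    IsP G ((cat L).map (ext x m e)) := by
  refine route (ext x m e) L ?_ ?_ hdis hj
  · have key : ∀ i ∈ cat L, i < m + e.length := by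
      intro i hi
      obtain ⟨s, hs, his⟩ := mem_cat.1 hi
      rw [mem_seg] at his
      have := hL s hs
      omega
    intro i hi j hj' h
    have h1 := key i hi
    have h2 := key j hj'
    unfold ext at h
    split_ifs at h with h3 h4 h4
    · exact C.inj i h3 j h4 h
    · exfalso
      have h5 : j - m < e.length := by omega
      rw [List.getD_eq_getElem e _ h5] at h
      exact hoff _ (List.getElem_mem h5) i h3 h
    · exfalso
      have h5 : i - m < e.length := by omega
      rw [List.getD_eq_getElem e _ h5] at h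
      exact hoff _ (List.getElem_mem h5) j h4 h.symm
    · have h5 : j - m < e.length := by omega
      have h6 : i - m < e.length := by omega
      rw [List.getD_eq_getElem e _ h5, List.getD_eq_getElem e _ h6] at h
      have := (List.Nodup.getElem_inj_iff he.1).1 h
      omega
  · intro s hs i hi
    have := hL s hs
    rcases this with h | h
    · rw [ext_lt (by omega), ext_lt (by omega)]
      exact C.adj i (by omega)
    · have h5 : i - m + 1 < e.length := by omega
      have e1 : ext x m e i = e[i - m] := by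
        unfold ext
        rw [if_neg (by omega), List.getD_eq_getElem e _ (by omega)]
      have e2 : ext x m e (i + 1) = e[i - m + 1] := by
        unfold ext
        rw [if_neg (by omega), List.getD_eq_getElem e _ (by omega)]
        congr 1; omega
      rw [e1, e2]
      exact List.isChain_iff_getElem.1 he.2 (i - m) h5

theorem LP.count {m : ℕ} {x : ℕ → V} (C : LP G m x) (e : List V) (he : IsP G e)
    (hoff : ∀ v ∈ e, Off m x v) (L : List (ℕ × ℕ))
    (hL : ∀ s ∈ L, (s.1 < m ∧ s.2 < m) ∨
      (m ≤ s.1 ∧ m ≤ s.2 ∧ s.1 < m + e.length ∧ s.2 < m + e.length))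
    (hdis : L.Pairwise Dis)
    (hj : L.IsChain (fun s t => G.Adj (ext x m e s.2) (ext x m e t.1))) :
    (L.map len).sum ≤ m := by
  have := C.max _ (C.build e he hoff L hL hdis hj)
  rwa [List.length_map, length_cat] at this

end Pool.Agent.MP5ce328
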