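import Pool.Agent.Lib.MP_5ce328_co.CaseA
import Pool.Agent.Lib.MP_5ce328_co.CB_42
import Pool.Agent.Lib.MP_5ce328_co.BR_21

namespace Pool.Agent.MP5ce328

open Finset

variable {V : Type*} {G : SimpleGraph V}

/-- the second entry of the sorted list of degrees: at most one smaller degree, and it is
attained -/
theorem second_spec [Fintype V] (G : SimpleGraph V) [DecidableRel G.Adj] (hn : 1 < Fintype.card V)
    {k : ℕ} (hk : ((Finset.univ.val.map fun v => G.degree v).sort (· ≤ ·)).getD 1 0 = k) :
    (∃ w0, ∀ v, v ≠ w0 → k ≤ G.degree v) ∧ ∃ s, G.degree s ≤ k := by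
  classical
  set s : Multiset ℕ := Finset.univ.val.map fun v => G.degree v with hs
  set L : List ℕ := s.sort (· ≤ ·) with hL
  have hLs : (L : Multiset ℕ) = s := Multiset.sort_eq _ _
  have hlen : L.length = Fintype.card V := by
    have : Multiset.card (L : Multiset ℕ) = Fintype.card V := by
      rw [hLs, hs, Multiset.card_map]; rfl
    simpa using this
  have hsort : L.Pairwise (· ≤ ·) := Multiset.pairwise_sort _ _
  obtain ⟨a, b, L', hab⟩ : ∃ a b L', L = a :: b :: L' := by
    match L, hlen with
    | [], h => simp at h; omega
    | [a], h => simp at h; omega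
    | a :: b :: L', _ => exact ⟨a, b, L', rfl⟩
  rw [hab] at hk hsort
  simp at hk
  subst hk
  have hmem : ∀ v, G.degree v ∈ L := by
    intro v
    have : G.degree v ∈ (L : Multiset ℕ) := by
      rw [hLs, hs]
      exact Multiset.mem_map_of_mem _ (Finset.mem_univ v)
    simpa using this
  have hcount : (univ.filter (fun v => G.degree v < b)).card ≤ 1 := by
    have h1 : (univ.filter (fun v => G.degree v < b)).card
        = Multiset.card (s.filter (fun d => d < b)) := by
      rw [hs, Multiset.filter_map, Multiset.card_map]
      rfl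
    have h2 : Multiset.card (s.filter (fun d => d < b)) = (L.filter (fun d => d < b)).length := by
      rw [← hLs, Multiset.filter_coe, Multiset.coe_card]
    rw [h1, h2, hab]
    rw [List.pairwise_cons, List.pairwise_cons] at hsort
    have h3 : (b :: L').filter (fun d => decide (d < b)) = [] := by
      rw [List.filter_eq_nil_iff]
      intro d hd
      rw [List.mem_cons] at hd
      simp only [decide_eq_true_eq, not_lt]
      rcases hd with rfl | hd
      · exact le_rfl
      · exact hsort.2.1 d hd
    rw [List.filter_cons, h3]
    split_ifs <;> simp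
  refine ⟨?_, ?_⟩
  · have hnon : Nonempty V := Fintype.card_pos_iff.1 (by omega)
    rw [card_le_one_iff_subset_singleton] at hcount
    obtain ⟨w0, hw0⟩ := hcount
    refine ⟨w0, fun v hv => ?_⟩
    by_contra hc
    push Not at hc
    have := hw0 (mem_filter.2 ⟨mem_univ v, hc⟩)
    rw [mem_singleton] at this
    exact hv this
  · have : b ∈ s := by
      rw [← hLs, hab]; simp
    rw [hs, Multiset.mem_map] at this
    obtain ⟨v, _, hv⟩ := this
    exact ⟨v, hv.le⟩

/-- **Theorem T2** -/
theorem three_mul [Fintype V] [DecidableRel G.Adj] {m k : ℕ} {x : ℕ → V} (C : LP G m x)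
    (hG : G.Connected) (w0 : V) (hd : ∀ v, v ≠ w0 → k ≤ G.degree v)
    (hE : ∀ v, (EV G v).card ≤ k) (hmn : m < Fintype.card V) : 3 * k + 3 ≤ Fintype.card V := by
  classical
  by_cases h : ∃ y : ℕ → V, LP G m y ∧ ∃ v, Off m y v ∧ v ≠ w0
  · obtain ⟨y, Y, hy⟩ := h
    exact Y.caseA hG w0 hd hE hy
  · push Not at h
    obtain ⟨w, hw⟩ : ∃ w, Off m x w := by
      by_contra hc
      push Not at hc
      have h1 : (univ : Finset V) ⊆ (range m).image x := by
        intro v _
        have := hc v
        unfold Off at this
        push Not at this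
        obtain ⟨i, hi, rfl⟩ := this
        exact mem_image_of_mem _ (mem_range.2 hi)
      have h2 := card_le_card h1
      have h3 := card_image_le (s := range m) (f := x)
      rw [card_univ] at h2
      rw [card_range] at h3
      omega
    have hww := h x C w hw
    subst hww
    exact caseB C hG w hd hE hw h

end Pool.Agent.MP5ce328
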